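import Pool.Agent.MP_a550d9_nt.H28.Spec

/-!
Counting zeros in short windows and the resulting sums.
-/

open Complex Metric

namespace Pool.Agent.MP_a550d9_nt.H28

namespace Cn

theorem pow_le (C : ℝ) (hC : Low C) : ∃ K : ℝ, 0 < K ∧ ∀ (x : ℝ) (V : Finset ℝ),
    (∀ v ∈ V, z1 v = 0 ∧ |v - x| ≤ 1 / 20) → (19 / 10 : ℝ) ^ V.card ≤ K * (|x| + 2) ^ 2 := by
  obtain ⟨C₁, hC₁, hz⟩ := z1_le
  have ha : (0 : ℝ) < 1 / 20 * √(1 / 20) := by positivity
  refine ⟨C * C₁ / (1 / 20 * √(1 / 20)), div_pos (mul_pos hC.1 hC₁) ha, fun x V hV => ?_⟩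
  obtain ⟨g, hg, hfg⟩ := Pool.Agent.MP_ca0a54_nt.L0.Factor.exists_quot Set.univ isOpen_univ z1
    z1_diff.differentiableOn V fun u hu => ⟨Set.mem_univ _, (hV u hu).1⟩
  set c : ℂ := (x : ℂ) - (1 / 20 : ℝ) * I with hc
  have hcim : c.im = -(1 / 20) := by simp [hc]
  have hcv : ∀ v ∈ V, ‖c - (v : ℂ)‖ ≤ 1 / 10 := by
    intro v hv
    have e : c - (v : ℂ) = ((x - v : ℝ) : ℂ) - (1 / 20 : ℝ) * I := by
      rw [hc]; push_cast; ring
    rw [e]
    refine (norm_sub_le _ _).trans ?_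
    rw [norm_mul, norm_I, mul_one, Complex.norm_real, Complex.norm_real, Real.norm_eq_abs,
      Real.norm_eq_abs, abs_sub_comm, abs_of_pos (by norm_num : (0 : ℝ) < 1 / 20)]
    linarith [(hV v hv).2]
  have hcn : ‖c‖ ≤ |x| + 1 / 20 := by
    refine (norm_sub_le _ _).trans ?_
    rw [norm_mul, norm_I, mul_one, Complex.norm_real, Complex.norm_real, Real.norm_eq_abs,
      Real.norm_eq_abs, abs_of_pos (by norm_num : (0 : ℝ) < 1 / 20)]
  have hp : (0 : ℝ) < (19 / 100 : ℝ) ^ V.card := by positivity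
  have hmax : ‖g c‖ ≤ C₁ * (|x| + 2) ^ 2 / (19 / 100 : ℝ) ^ V.card := by
    refine Complex.norm_le_of_forall_mem_frontier_norm_le (U := ball c (29 / 100)) isBounded_ball
      ((differentiableOn_univ.1 hg).diffContOnCl) (fun w hw => ?_)
      (subset_closure (mem_ball_self (by norm_num)))
    rw [frontier_ball c (by norm_num), mem_sphere, dist_eq_norm] at hw
    have him : w.im < 1 / 4 := by
      have h1 := (le_abs_self _).trans (abs_im_le_norm (w - c))
      rw [hw, sub_im, hcim] at h1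
      linarith
    have hwn : ‖w‖ ≤ |x| + 1 := by
      have h1 := norm_add_le (w - c) c
      rw [sub_add_cancel, hw] at h1
      linarith
    have h2 : ‖z1 w‖ ≤ C₁ * (|x| + 2) ^ 2 := by
      refine (hz w him).trans (mul_le_mul_of_nonneg_left ?_ hC₁.le)
      exact pow_le_pow_left₀ (by positivity) (by linarith) 2
    have h3 : (19 / 100 : ℝ) ^ V.card ≤ ‖∏ u ∈ V, (w - (u : ℂ))‖ := by
      rw [norm_prod, ← Finset.prod_const]
      refine Finset.prod_le_prod (fun _ _ => by norm_num) fun u hu => ?_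
      have h4 := norm_sub_le (w - (u : ℂ)) (c - (u : ℂ))
      rw [show w - (u : ℂ) - (c - (u : ℂ)) = w - c by ring, hw] at h4
      linarith [hcv u hu]
    rw [le_div_iff₀ hp]
    rw [hfg w, norm_mul] at h2
    calc ‖g w‖ * (19 / 100 : ℝ) ^ V.card ≤ ‖g w‖ * ‖∏ u ∈ V, (w - (u : ℂ))‖ :=
          mul_le_mul_of_nonneg_left h3 (norm_nonneg _)
      _ ≤ _ := by rw [mul_comm]; exact h2
  have h5 : ‖∏ u ∈ V, (c - (u : ℂ))‖ ≤ (1 / 10 : ℝ) ^ V.card := by
    rw [norm_prod, ← Finset.prod_const]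
    exact Finset.prod_le_prod (fun _ _ => norm_nonneg _) hcv
  have h6 := hC.2 c (by rw [hcim]; norm_num) (by rw [hcim]; norm_num)
  rw [hcim, neg_neg, hfg c, norm_mul] at h6
  have h7 : ‖∏ u ∈ V, (c - (u : ℂ))‖ * ‖g c‖ ≤
      (1 / 10 : ℝ) ^ V.card * (C₁ * (|x| + 2) ^ 2 / (19 / 100 : ℝ) ^ V.card) :=
    mul_le_mul h5 hmax (norm_nonneg _) (by positivity)
  have h8 := h6.trans (mul_le_mul_of_nonneg_left h7 hC.1.le)
  have h9 : (19 / 100 : ℝ) ^ V.card = (19 / 10 : ℝ) ^ V.card * (1 / 10 : ℝ) ^ V.card := by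
    rw [← mul_pow]; norm_num
  have hq : (0 : ℝ) < (19 / 10 : ℝ) ^ V.card := by positivity
  have hr : (0 : ℝ) < (1 / 10 : ℝ) ^ V.card := by positivity
  have h10 : C * ((1 / 10 : ℝ) ^ V.card * (C₁ * (|x| + 2) ^ 2 / (19 / 100 : ℝ) ^ V.card)) =
      C * C₁ * (|x| + 2) ^ 2 / (19 / 10 : ℝ) ^ V.card := by
    rw [h9]; field_simp
  rw [h10, le_div_iff₀ hq] at h8
  rw [div_mul_eq_mul_div, le_div_iff₀ ha, mul_comm]
  exact h8

theorem fib {C : ℝ} (hC : Cnt C) (V : Finset ℝ) (hV : ∀ v ∈ V, z1 v = 0) (k : ℤ) :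
    ((V.filter fun v => round (10 * v) = k).card : ℝ) ≤ C * Real.log (|(k : ℝ)| / 10 + 2) := by
  have h := hC.2 ((k : ℝ) / 10) (V.filter fun v => round (10 * v) = k) fun v hv => by
    obtain ⟨h1, h2⟩ := Finset.mem_filter.1 hv
    refine ⟨hV v h1, ?_⟩
    have h3 := abs_sub_round (10 * v)
    rw [h2, abs_le] at h3
    rw [abs_le]
    constructor <;> linarith [h3.1, h3.2]
  rwa [abs_div, abs_of_pos (by norm_num : (0 : ℝ) < 10)] at h

theorem summ : Summable fun k : ℤ => 1 / (1 + |(k : ℝ)|) ^ 2 := by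
  have h : Summable fun n : ℕ => 1 / (1 + (n : ℝ)) ^ 2 := by
    have := (summable_nat_add_iff 1).2 (Real.summable_one_div_nat_pow.2 (by norm_num : 1 < 2))
    refine this.congr fun n => ?_
    push_cast
    rw [add_comm]
  refine Summable.of_nat_of_neg ?_ ?_
  · simpa using h
  · simpa using h

end Cn

theorem cnt : CNT := by
  intro C hC
  obtain ⟨K, hK, h⟩ := Cn.pow_le C hC
  have hl : 0 < Real.log (19 / 10) := Real.log_pos (by norm_num)
  refine ⟨(2 * |Real.log K| + 2) / Real.log (19 / 10), by positivity, fun x V hV => ?_⟩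
  have h1 := Real.log_le_log (by positivity) (h x V hV)
  have hx : 0 < |x| + 2 := by positivity
  rw [Real.log_pow, Real.log_mul hK.ne' (by positivity), Real.log_pow] at h1
  have h2 : 1 / 2 ≤ Real.log (|x| + 2) := by
    have h3 := Real.log_le_log (by norm_num : (0 : ℝ) < 2) (by linarith [abs_nonneg x] :
      (2 : ℝ) ≤ |x| + 2)
    linarith [Real.log_two_gt_d9]
  rw [div_mul_eq_mul_div, le_div_iff₀ hl]
  push_cast at h1
  nlinarith [le_abs_self (Real.log K), abs_nonneg (Real.log K)]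

theorem sumz : SUM := by
  classical
  intro C hC
  have hC0 := hC.1
  have hS : 0 ≤ ∑' k : ℤ, 1 / (1 + |(k : ℝ)|) ^ 2 := tsum_nonneg fun k => by positivity
  set S := ∑' k : ℤ, 1 / (1 + |(k : ℝ)|) ^ 2 with hSdef
  refine ⟨1000 * C * S + 100 * C, by positivity, fun V hV => ?_, fun X hX => ?_⟩
  · rw [← Finset.sum_fiberwise_of_maps_to (s := V) (t := V.image fun v => round (10 * v))
      (g := fun v => round (10 * v)) (fun v hv => Finset.mem_image_of_mem _ hv)]
    have h1 : ∀ k ∈ V.image fun v => round (10 * v),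
        ∑ v ∈ V with round (10 * v) = k, 1 / (1 + |v|) ^ 3 ≤
          1000 * C * (1 / (1 + |(k : ℝ)|) ^ 2) := by
      intro k _
      have hk : 0 < 1 + |(k : ℝ)| := by positivity
      have h2 : ∑ v ∈ V with round (10 * v) = k, 1 / (1 + |v|) ^ 3 ≤
          (V.filter fun v => round (10 * v) = k).card • (1000 / (1 + |(k : ℝ)|) ^ 3) := by
        refine Finset.sum_le_card_nsmul _ _ _ fun v hv => ?_
        obtain ⟨_, h2⟩ := Finset.mem_filter.1 hv
        have h3 := abs_sub_round (10 * v)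
        rw [h2] at h3
        have h4 : |(k : ℝ)| ≤ 10 * |v| + 1 / 2 := by
          have h5 := abs_sub_abs_le_abs_sub (k : ℝ) (10 * v)
          rw [abs_sub_comm, abs_mul, abs_of_pos (by norm_num : (0 : ℝ) < 10)] at h5
          linarith
        rw [div_le_div_iff₀ (by positivity) (by positivity), one_mul,
          show (1000 : ℝ) * (1 + |v|) ^ 3 = (10 * (1 + |v|)) ^ 3 by ring]
        exact pow_le_pow_left₀ hk.le (by linarith) 3
      rw [nsmul_eq_mul] at h2
      have h6 : Real.log (|(k : ℝ)| / 10 + 2) ≤ 1 + |(k : ℝ)| := by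
        have := Real.log_le_sub_one_of_pos (show 0 < |(k : ℝ)| / 10 + 2 by positivity)
        linarith [abs_nonneg (k : ℝ)]
      have h7 := (Cn.fib hC V hV k).trans (mul_le_mul_of_nonneg_left h6 hC0.le)
      refine h2.trans ((mul_le_mul_of_nonneg_right h7 (by positivity)).trans (le_of_eq ?_))
      field_simp
    refine (Finset.sum_le_sum h1).trans ?_
    rw [← Finset.mul_sum]
    have h8 := Cn.summ.sum_le_tsum (V.image fun v => round (10 * v)) fun k _ => by positivity
    have h9 := mul_le_mul_of_nonneg_left h8 (show 0 ≤ 1000 * C by positivity)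
    linarith
  · have hlog : 0 < Real.log X := Real.log_pos (by linarith)
    set M : ℕ := ⌈10 * X⌉₊ + 1 with hM
    have hM1 : 10 * X + 1 ≤ M := by
      rw [hM]; push_cast; linarith [Nat.le_ceil (10 * X)]
    have hM2 : (M : ℝ) ≤ 10 * X + 2 := by
      rw [hM]; push_cast
      linarith [Nat.ceil_lt_add_one (show 0 ≤ 10 * X by linarith)]
    have hmap : ∀ v ∈ ZS X, round (10 * v) ∈ Finset.Icc (-(M : ℤ)) M := by
      intro v hv
      have h1 := abs_le.1 (mem_ZS.1 hv).2
      have h2 := abs_le.1 (abs_sub_round (10 * v))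
      rw [Finset.mem_Icc]
      constructor
      · have : (-(M : ℝ)) ≤ (round (10 * v) : ℝ) := by linarith [h1.1, h2.2]
        exact_mod_cast this
      · have : (round (10 * v) : ℝ) ≤ (M : ℝ) := by linarith [h1.2, h2.1]
        exact_mod_cast this
    rw [Finset.card_eq_sum_card_fiberwise hmap]
    push_cast
    have h3 : ∀ k ∈ Finset.Icc (-(M : ℤ)) M,
        (((ZS X).filter fun v => round (10 * v) = k).card : ℝ) ≤ C * (3 * Real.log X) := by
      intro k hk
      refine (Cn.fib hC (ZS X) (fun v hv => (mem_ZS.1 hv).1) k).trans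
        (mul_le_mul_of_nonneg_left ?_ hC0.le)
      have h4 : |(k : ℝ)| ≤ M := by
        rw [Finset.mem_Icc] at hk
        rw [abs_le]
        constructor
        · exact_mod_cast hk.1
        · exact_mod_cast hk.2
      have hX2 : 4 ≤ X ^ 2 := by nlinarith
      have hX3 : 4 * X ≤ X ^ 3 := by
        have h := mul_le_mul_of_nonneg_right hX2 (show (0 : ℝ) ≤ X by linarith)
        calc 4 * X ≤ X ^ 2 * X := h
          _ = X ^ 3 := by ring
      have h5 : |(k : ℝ)| / 10 + 2 ≤ X ^ 3 := by linarith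
      have h6 := Real.log_le_log (by positivity) h5
      rwa [Real.log_pow] at h6
    refine (Finset.sum_le_card_nsmul _ _ _ h3).trans ?_
    rw [nsmul_eq_mul, Int.card_Icc]
    have h7 : ((((M : ℤ) + 1 - -(M : ℤ)).toNat : ℕ) : ℝ) = 2 * M + 1 := by
      rw [show (M : ℤ) + 1 - -(M : ℤ) = ((2 * M + 1 : ℕ) : ℤ) by push_cast; ring, Int.toNat_natCast]
      push_cast; ring
    rw [h7]
    have h8 : (2 * (M : ℝ) + 1) ≤ 25 * X := by linarith
    have h9 : 0 ≤ 1000 * C * S * X * Real.log X := by positivity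
    have h10 := mul_le_mul_of_nonneg_right h8 (show 0 ≤ C * (3 * Real.log X) by positivity)
    have h11 : 0 ≤ C * X * Real.log X := by positivity
    nlinarith

end Pool.Agent.MP_a550d9_nt.H28
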