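import Pool.Agent.MP_a550d9_nt.H28.Spec

/-!
Simultaneous Dirichlet approximation, and the Riesz product inequality.
-/

open Complex MeasureTheory

namespace Pool.Agent.MP_a550d9_nt.H28

namespace DR

theorem close (x y : ℝ) (q : ℕ) (hq : 0 < q)
    (h : ⌊(q : ℝ) * Int.fract x⌋ = ⌊(q : ℝ) * Int.fract y⌋) :
    ‖exp (I * (2 * Real.pi * (y - x) : ℝ)) - 1‖ ≤ 7 / q := by
  have hq' : (0 : ℝ) < q := by exact_mod_cast hq
  have h1 := Int.abs_sub_lt_one_of_floor_eq_floor h.symm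
  rw [← mul_sub, abs_mul, abs_of_pos hq'] at h1
  have e : exp (I * (2 * Real.pi * (y - x) : ℝ)) =
      exp (I * (2 * Real.pi * (Int.fract y - Int.fract x) : ℝ)) := by
    have e1 : (I * (2 * Real.pi * (y - x) : ℝ) : ℂ) =
        I * (2 * Real.pi * (Int.fract y - Int.fract x) : ℝ) +
          ((⌊y⌋ - ⌊x⌋ : ℤ) : ℂ) * (2 * Real.pi * I) := by
      unfold Int.fract
      push_cast
      ring
    rw [e1, exp_add, exp_int_mul_two_pi_mul_I, mul_one]
  rw [e]
  refine Real.norm_exp_I_mul_ofReal_sub_one_le.trans ?_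
  rw [Real.norm_eq_abs, abs_mul, abs_of_pos (by positivity : (0 : ℝ) < 2 * Real.pi),
    le_div_iff₀ hq']
  have := Real.pi_lt_d2
  have h0 := abs_nonneg (Int.fract y - Int.fract x)
  nlinarith [Real.pi_pos]

/-- The mean of a pure oscillation. -/
theorem osc (l U Δ : ℝ) (hΔ : 0 < Δ) (h : Δ ≤ |l|) :
    ‖∫ u in U..2 * U, exp (I * l * u)‖ ≤ 2 / Δ := by
  have hl : l ≠ 0 := fun e => by rw [e, abs_zero] at h; linarith
  have hc : (I * l : ℂ) ≠ 0 := mul_ne_zero I_ne_zero (ofReal_ne_zero.2 hl)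
  rw [integral_exp_mul_complex hc, norm_div, norm_mul, norm_I, one_mul, norm_real,
    Real.norm_eq_abs]
  have n1 : ∀ t : ℝ, ‖exp (I * l * t)‖ = 1 := fun t => by
    rw [norm_exp]
    simp
  refine div_le_div₀ (by norm_num) ((norm_sub_le _ _).trans ?_) hΔ h
  rw [n1, n1]
  norm_num

/-- The Riesz product. -/
noncomputable def W (P : Finset ℝ) (α β : ℝ → ℂ) (u : ℝ) : ℂ :=
  ∏ p ∈ P, (1 + (α p * exp (I * p * u) + β p * exp (-(I * p * u))))

theorem W_cont (P : Finset ℝ) (α β : ℝ → ℂ) : Continuous (W P α β) := by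
  unfold W
  fun_prop

open Classical in
theorem W_eq (P : Finset ℝ) (α β : ℝ → ℂ) (g u : ℝ) :
    W P α β u * exp (-(I * g * u)) = ∑ S ∈ P.powerset, ∑ T ∈ S.powerset,
      ((∏ p ∈ T, α p) * ∏ p ∈ S \ T, β p) *
        exp (I * (∑ p ∈ T, p - ∑ p ∈ S \ T, p - g : ℝ) * u) := by
  rw [W, Finset.prod_one_add, Finset.sum_mul]
  refine Finset.sum_congr rfl fun S _ => ?_
  rw [Finset.prod_add, Finset.sum_mul]
  refine Finset.sum_congr rfl fun T _ => ?_
  rw [Finset.prod_mul_distrib, Finset.prod_mul_distrib, ← exp_sum, ← exp_sum]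
  have e : (I * (∑ p ∈ T, p - ∑ p ∈ S \ T, p - g : ℝ) * u : ℂ) =
      ∑ p ∈ T, I * (p : ℂ) * u + ∑ p ∈ S \ T, -(I * (p : ℂ) * u) + -(I * g * u) := by
    rw [Finset.sum_neg_distrib, ← Finset.sum_mul, ← Finset.sum_mul, ← Finset.mul_sum,
      ← Finset.mul_sum]
    push_cast
    ring
  rw [e, exp_add, exp_add]
  ring

open Classical in
theorem total (P : Finset ℝ) (α β : ℝ → ℂ) (h : ∀ p, ‖α p‖ + ‖β p‖ ≤ 1) :
    ∑ S ∈ P.powerset, ∑ T ∈ S.powerset, ‖(∏ p ∈ T, α p) * ∏ p ∈ S \ T, β p‖ ≤ 2 ^ P.card := by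
  have e : ∑ S ∈ P.powerset, ∑ T ∈ S.powerset, ‖(∏ p ∈ T, α p) * ∏ p ∈ S \ T, β p‖ =
      ∏ p ∈ P, (1 + (‖α p‖ + ‖β p‖)) := by
    rw [Finset.prod_one_add]
    refine Finset.sum_congr rfl fun S _ => ?_
    rw [Finset.prod_add]
    refine Finset.sum_congr rfl fun T _ => ?_
    rw [norm_mul, norm_prod, norm_prod]
  rw [e, ← Finset.prod_const]
  exact Finset.prod_le_prod (fun p _ => by positivity) fun p _ => by linarith [h p]

open Classical in
theorem key (P S₀ : Finset ℝ) (α β : ℝ → ℂ) (h : ∀ p, ‖α p‖ + ‖β p‖ ≤ 1) (g U Δ : ℝ)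
    (hΔ : 0 < Δ) (h0 : ∑ p ∈ S₀, p = g)
    (hs : ∀ S T : Finset ℝ, S ⊆ P → T ⊆ S → ¬ (S = S₀ ∧ T = S₀) →
      Δ ≤ |∑ p ∈ T, p - ∑ p ∈ S \ T, p - g|) :
    ‖(∫ u in U..2 * U, W P α β u * exp (-(I * g * u))) -
      (if S₀ ⊆ P then (∏ p ∈ S₀, α p) * U else 0)‖ ≤ 2 ^ P.card * (2 / Δ) := by
  have e1 : (∫ u in U..2 * U, W P α β u * exp (-(I * g * u))) =
      ∑ S ∈ P.powerset, ∑ T ∈ S.powerset, ((∏ p ∈ T, α p) * ∏ p ∈ S \ T, β p) *
        ∫ u in U..2 * U, exp (I * (∑ p ∈ T, p - ∑ p ∈ S \ T, p - g : ℝ) * u) := by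
    simp_rw [W_eq]
    rw [intervalIntegral.integral_finsetSum fun S _ =>
      Continuous.intervalIntegrable (by fun_prop) _ _]
    refine Finset.sum_congr rfl fun S _ => ?_
    rw [intervalIntegral.integral_finsetSum fun T _ =>
      Continuous.intervalIntegrable (by fun_prop) _ _]
    refine Finset.sum_congr rfl fun T _ => ?_
    rw [intervalIntegral.integral_const_mul]
  have e2 : (if S₀ ⊆ P then (∏ p ∈ S₀, α p) * U else 0 : ℂ) =
      ∑ S ∈ P.powerset, ∑ T ∈ S.powerset, ((∏ p ∈ T, α p) * ∏ p ∈ S \ T, β p) *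
        (if S = S₀ ∧ T = S₀ then (U : ℂ) else 0) := by
    by_cases hP : S₀ ⊆ P
    · rw [if_pos hP, Finset.sum_eq_single_of_mem S₀ (Finset.mem_powerset.2 hP),
        Finset.sum_eq_single_of_mem S₀ (Finset.mem_powerset_self _)]
      · simp
      · intro T _ hT
        simp [hT]
      · intro S _ hS
        simp [hS]
    · rw [if_neg hP]
      refine (Finset.sum_eq_zero fun S hS => Finset.sum_eq_zero fun T _ => ?_).symm
      rw [if_neg fun e : S = S₀ ∧ T = S₀ => hP (e.1 ▸ Finset.mem_powerset.1 hS), mul_zero]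
  rw [e1, e2, ← Finset.sum_sub_distrib]
  refine (norm_sum_le _ _).trans (le_trans ?_
    (mul_le_mul_of_nonneg_right (total P α β h) (by positivity)))
  rw [Finset.sum_mul]
  refine Finset.sum_le_sum fun S hS => ?_
  rw [← Finset.sum_sub_distrib, Finset.sum_mul]
  refine (norm_sum_le _ _).trans (Finset.sum_le_sum fun T hT => ?_)
  rw [← mul_sub, norm_mul]
  refine mul_le_mul_of_nonneg_left ?_ (norm_nonneg _)
  by_cases hc : S = S₀ ∧ T = S₀
  · rw [if_pos hc, hc.1, hc.2, h0]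
    simp only [sdiff_self, Finset.bot_eq_empty, Finset.sum_empty, sub_zero, sub_self, ofReal_zero,
      mul_zero, zero_mul, exp_zero, intervalIntegral.integral_const, real_smul, mul_one]
    rw [show ((2 * U - U : ℝ) : ℂ) - U = 0 by push_cast; ring, norm_zero]
    positivity
  · rw [if_neg hc, sub_zero]
    exact osc _ _ _ hΔ (hs S T (Finset.mem_powerset.1 hS) (Finset.mem_powerset.1 hT) hc)

theorem W_real (P : Finset ℝ) (α : ℝ → ℂ) (h : ∀ p, ‖α p‖ ≤ 1 / 2) (u : ℝ) :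
    ∃ r : ℝ, 0 ≤ r ∧ W P α (fun p => (starRingEnd ℂ) (α p)) u = r := by
  refine ⟨∏ p ∈ P, (1 + 2 * (α p * exp (I * p * u)).re), Finset.prod_nonneg fun p _ => ?_, ?_⟩
  · have h1 := abs_re_le_norm (α p * exp (I * p * u))
    have h2 : ‖exp (I * p * u)‖ = 1 := by
      rw [norm_exp]
      simp
    rw [norm_mul, h2, mul_one] at h1
    linarith [(abs_le.1 h1).1, h p]
  · rw [W, ofReal_prod]
    refine Finset.prod_congr rfl fun p _ => ?_
    have e : (starRingEnd ℂ) (α p) * exp (-(I * p * u)) =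
        (starRingEnd ℂ) (α p * exp (I * p * u)) := by
      rw [map_mul, ← exp_conj]
      simp
    rw [e, add_conj]
    push_cast
    ring

end DR

open DR

theorem dir : DIR := by
  classical
  intro V q U hq
  have hq' : (0 : ℝ) < q := by exact_mod_cast hq
  let x : ℕ → ℝ → ℝ := fun k v => v * (k * U) / (2 * Real.pi)
  have hb : ∀ t : ℝ, ⌊(q : ℝ) * Int.fract t⌋.toNat < q := fun t => by
    have h1 : ⌊(q : ℝ) * Int.fract t⌋ < q := by
      rw [Int.floor_lt]
      push_cast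
      nlinarith [Int.fract_lt_one t]
    omega
  let f : Fin (q ^ V.card + 1) → (V → Fin q) := fun k v =>
    ⟨⌊(q : ℝ) * Int.fract (x k v)⌋.toNat, hb _⟩
  have main : ∀ i j : Fin (q ^ V.card + 1), i < j → f i = f j →
      ∃ k : ℕ, 1 ≤ k ∧ k ≤ q ^ V.card ∧ ∀ v ∈ V, ‖exp (I * v * (k * U : ℝ)) - 1‖ ≤ 7 / q := by
    intro i j hij e
    have hij' : (i : ℕ) < j := hij
    refine ⟨j - i, by omega, by have := j.2; omega, fun v hv => ?_⟩
    have h1 : ⌊(q : ℝ) * Int.fract (x i v)⌋.toNat = ⌊(q : ℝ) * Int.fract (x j v)⌋.toNat :=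
      congrArg Fin.val (congrFun e ⟨v, hv⟩)
    have hn : ∀ t : ℝ, 0 ≤ ⌊(q : ℝ) * Int.fract t⌋ := fun t =>
      Int.floor_nonneg.2 (mul_nonneg hq'.le (Int.fract_nonneg t))
    have h2 := close (x i v) (x j v) q hq (by
      have := hn (x i v)
      have := hn (x j v)
      omega)
    have h3 : 2 * Real.pi * (x j v - x i v) = v * ((((j : ℕ) - (i : ℕ) : ℕ) : ℝ) * U) := by
      rw [Nat.cast_sub hij'.le]
      simp only [x]
      field_simp
    rw [h3] at h2
    rwa [mul_assoc, ← ofReal_mul]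
  obtain ⟨i, j, hne, e⟩ := Fintype.exists_ne_map_eq_of_card_lt f (by simp)
  rcases lt_or_gt_of_ne hne with h | h
  · exact main i j h e
  · exact main j i h e.symm

theorem riesz : RIESZ := by
  classical
  intro P Z a Δ U b hPZ hΔ hU hb hZ hs hF
  let α : ℝ → ℂ := fun p => a p / (2 * ‖a p‖)
  let β : ℝ → ℂ := fun p => (starRingEnd ℂ) (α p)
  have hα : ∀ p, ‖α p‖ ≤ 1 / 2 := fun p => by
    simp only [α, norm_div, norm_mul, norm_real, norm_norm, norm_ofNat]
    rcases (norm_nonneg (a p)).eq_or_lt with h | h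
    · rw [← h]
      norm_num
    · rw [div_le_iff₀ (by positivity)]
      linarith
  have hαβ : ∀ p, ‖α p‖ + ‖β p‖ ≤ 1 := fun p => by
    simp only [β, norm_conj]
    linarith [hα p]
  have hαa : ∀ p, (2 * (starRingEnd ℂ) (a p) * α p) = (‖a p‖ : ℂ) := fun p => by
    by_cases h : a p = 0
    · simp [h]
    · have h' : (‖a p‖ : ℂ) ≠ 0 := ofReal_ne_zero.2 (norm_ne_zero_iff.2 h)
      simp only [α]
      field_simp
      rw [conj_mul']
  set E : ℝ := 2 ^ P.card * (2 / Δ) with hE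
  let J : ℝ → ℂ := fun g => ∫ u in U..2 * U, W P α β u * exp (-(I * g * u))
  have hsep : ∀ (S T : Finset ℝ) (g : ℝ), S ⊆ P → T ⊆ S → S.Nonempty → (g = 0 ∨ g ∈ Z) →
      ¬ (S = {g} ∧ T = {g}) → Δ ≤ |∑ p ∈ T, p - ∑ p ∈ S \ T, p - g| := by
    intro S T g hS hT hne hg hn
    refine hs T (S \ T) (hT.trans hS) (Finset.sdiff_subset.trans hS) Finset.disjoint_sdiff
      (by rwa [Finset.union_sdiff_of_subset hT]) g hg fun h => hn ⟨?_, h.1⟩
    rw [← h.1]
    exact Finset.Subset.antisymm (Finset.sdiff_eq_empty_iff_subset.1 h.2) hT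
  have J0 : ‖J 0 - U‖ ≤ E := by
    have := key P ∅ α β hαβ 0 U Δ hΔ (by simp) fun S T hS hT hn => by
      refine hsep S T 0 hS hT ?_ (Or.inl rfl) fun h => ?_
      · rw [Finset.nonempty_iff_ne_empty]
        rintro rfl
        exact hn ⟨rfl, Finset.subset_empty.1 hT⟩
      · have := hZ 0 (hPZ (hS (by simp [h.1])))
        linarith
    simpa [J] using this
  have Jg : ∀ g ∈ Z, ‖J g - (if g ∈ P then α g * U else 0)‖ ≤ E := by
    intro g hg
    have := key P {g} α β hαβ g U Δ hΔ (by simp) fun S T hS hT hn => by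
      rcases S.eq_empty_or_nonempty with rfl | hne
      · rw [Finset.subset_empty.1 hT]
        simpa using (hZ g hg).trans (le_abs_self g)
      · exact hsep S T g hS hT hne (Or.inr hg) hn
    simpa [J] using this
  have hW := W_cont P α β
  let Φ : ℝ → ℂ := fun u => ∑ g ∈ Z, 2 * (starRingEnd ℂ) (a g) * (W P α β u * exp (-(I * g * u))) -
    b * (W P α β u * exp (-(I * (0 : ℝ) * u)))
  have hΦc : Continuous Φ := by
    simp only [Φ]
    fun_prop
  have hΦ : ∫ u in U..2 * U, Φ u = ∑ g ∈ Z, 2 * (starRingEnd ℂ) (a g) * J g - b * J 0 := by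
    simp only [Φ, J]
    rw [intervalIntegral.integral_sub (Continuous.intervalIntegrable (by fun_prop) _ _)
      (Continuous.intervalIntegrable (by fun_prop) _ _), intervalIntegral.integral_const_mul,
      intervalIntegral.integral_finsetSum fun g _ =>
        Continuous.intervalIntegrable (by fun_prop) _ _]
    simp only [intervalIntegral.integral_const_mul]
  have hre : (∫ u in U..2 * U, Φ u).re ≤ 0 := by
    have h1 := reCLM.intervalIntegral_comp_comm (hΦc.intervalIntegrable (μ := volume) U (2 * U))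
    simp only [reCLM_apply] at h1
    rw [← h1, ← neg_nonneg, ← intervalIntegral.integral_neg]
    refine intervalIntegral.integral_nonneg (by linarith) fun u hu => ?_
    obtain ⟨r, hr, e⟩ := W_real P α hα u
    have e1 : (Φ u).re = r * (∑ g ∈ Z, 2 * (a g * exp (I * g * u)).re - b) := by
      simp only [Φ, β, e, sub_re, re_sum]
      rw [mul_sub, Finset.mul_sum]
      congr 1
      · refine Finset.sum_congr rfl fun g _ => ?_
        have e2 : 2 * (starRingEnd ℂ) (a g) * ((r : ℂ) * exp (-(I * g * u))) =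
            ((r * 2 : ℝ) : ℂ) * (starRingEnd ℂ) (a g * exp (I * g * u)) := by
          rw [map_mul, ← exp_conj]
          simp
          ring
        rw [e2, re_ofReal_mul, conj_re, mul_assoc]
      · simp [mul_comm]
    rw [e1]
    nlinarith [hF u hu.1 hu.2]
  rw [hΦ, sub_re, re_sum] at hre
  have h1 : ∀ g ∈ Z, (if g ∈ P then ‖a g‖ * U else 0) - 2 * ‖a g‖ * E ≤
      (2 * (starRingEnd ℂ) (a g) * J g).re := by
    intro g hg
    have e : 2 * (starRingEnd ℂ) (a g) * J g = ((if g ∈ P then ‖a g‖ * U else 0 : ℝ) : ℂ) +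
        2 * (starRingEnd ℂ) (a g) * (J g - (if g ∈ P then α g * U else 0)) := by
      split_ifs
      · push_cast
        rw [← hαa]
        ring
      · simp
    have h2 := abs_re_le_norm
      (2 * (starRingEnd ℂ) (a g) * (J g - (if g ∈ P then α g * U else 0)))
    rw [norm_mul, norm_mul, norm_conj, norm_ofNat] at h2
    have h3 := mul_le_mul_of_nonneg_left (Jg g hg) (by positivity : 0 ≤ 2 * ‖a g‖)
    rw [e, add_re, ofReal_re]
    linarith [(abs_le.1 h2).1]
  have h2 := Finset.sum_le_sum h1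
  rw [Finset.sum_sub_distrib, Finset.sum_ite_mem, Finset.inter_eq_right.2 hPZ, ← Finset.sum_mul,
    ← Finset.sum_mul, ← Finset.mul_sum] at h2
  have h3 : (b * J 0).re ≤ b * (U + E) := by
    rw [re_ofReal_mul]
    refine mul_le_mul_of_nonneg_left ?_ hb
    have := (abs_le.1 ((abs_re_le_norm _).trans J0)).2
    rw [sub_re, ofReal_re] at this
    linarith
  have h4 : (b + 2 * ∑ g ∈ Z, ‖a g‖) * 2 ^ P.card * 2 / (U * Δ) =
      (b + 2 * ∑ g ∈ Z, ‖a g‖) * E / U := by
    rw [hE]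
    field_simp
  rw [h4, ← sub_le_iff_le_add', le_div_iff₀ hU]
  nlinarith

end Pool.Agent.MP_a550d9_nt.H28
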