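import Pool.Agent.MP_a550d9_nt.H28.Spec

/-!
The explicit formula: a Gaussian average of `f` equals a sum over the zeros, up to the integral
over the line to the left of the strip.
-/

open Complex MeasureTheory Filter Topology Pool.Agent.MP_ca0a54_nt.L0

namespace Pool.Agent.MP_a550d9_nt.H28

namespace ExpAux

theorem Ew_diff (T u : ℝ) : Differentiable ℂ (Ew T u) := by
  unfold Ew
  fun_prop

theorem Ew_bot (T u y x : ℝ) (hT : 0 < T) :
    Ew T u (x - (3 / 2 : ℝ) * I) * exp (-(2 + I * x) * y) =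
      exp ((-(1 / (2 * T ^ 2) : ℝ) : ℂ) * x ^ 2 + (I * ((u - y) + 3 / (2 * T ^ 2))) * x +
        (3 / 2 * u + 9 / (8 * T ^ 2) - 2 * y)) := by
  have hT' : (T : ℂ) ≠ 0 := ofReal_ne_zero.2 hT.ne'
  rw [Ew, ← Complex.exp_add]
  congr 1
  push_cast
  field_simp
  linear_combination (-(96 : ℂ) * u * T ^ 2 - 72) * I_mul_I

theorem neg_re_lt (T : ℝ) (hT : 0 < T) : (-(1 / (2 * T ^ 2) : ℝ) : ℂ).re < 0 := by
  rw [neg_re, ofReal_re, neg_lt_zero]
  positivity

theorem Ew_bot_int (T u : ℝ) (hT : 0 < T) :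
    Integrable fun x : ℝ => Ew T u (x - (3 / 2 : ℝ) * I) := by
  refine (integrable_cexp_quadratic' (neg_re_lt T hT) (I * ((u - (0 : ℝ)) + 3 / (2 * T ^ 2)))
    (3 / 2 * u + 9 / (8 * T ^ 2) - 2 * (0 : ℝ))).congr (Eventually.of_forall fun x => ?_)
  simp only
  rw [← Ew_bot T u 0 x hT, ofReal_zero, mul_zero, Complex.exp_zero, mul_one]

theorem Ew_bot_val (T u y : ℝ) (hT : 0 < T) :
    ∫ x : ℝ, Ew T u (x - (3 / 2 : ℝ) * I) * exp (-(2 + I * x) * y) =
      ((2 * Real.pi * (Real.exp (-y / 2) * Kt T (y - u)) : ℝ) : ℂ) := by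
  have hT' : (T : ℂ) ≠ 0 := ofReal_ne_zero.2 hT.ne'
  have h : (fun x : ℝ => Ew T u (x - (3 / 2 : ℝ) * I) * exp (-(2 + I * x) * y)) =
      fun x : ℝ => _ := funext fun x => Ew_bot T u y x hT
  rw [h, integral_cexp_quadratic (neg_re_lt T hT)]
  have e1 : ((Real.pi : ℂ) / - -((1 / (2 * T ^ 2) : ℝ) : ℂ)) ^ (1 / 2 : ℂ) =
      ((T * √(2 * Real.pi) : ℝ) : ℂ) := by
    rw [neg_neg, ← ofReal_div, show (1 / 2 : ℂ) = ((1 / 2 : ℝ) : ℂ) by push_cast; rfl,
      ← ofReal_cpow (by positivity), ← Real.sqrt_eq_rpow]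
    congr 1
    rw [show Real.pi / (1 / (2 * T ^ 2)) = T ^ 2 * (2 * Real.pi) by field_simp,
      Real.sqrt_mul (by positivity), Real.sqrt_sq hT.le]
  have e2 : (3 / 2 * u + 9 / (8 * T ^ 2) - 2 * y : ℂ) -
      (I * ((u - y) + 3 / (2 * T ^ 2))) ^ 2 / (4 * -((1 / (2 * T ^ 2) : ℝ) : ℂ)) =
      ((-y / 2 + -(T ^ 2 * (y - u) ^ 2 / 2) : ℝ) : ℂ) := by
    rw [mul_pow, I_sq]
    push_cast
    field_simp
    ring
  rw [e1, e2, ← ofReal_exp, ← ofReal_mul, Real.exp_add, Kt]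
  congr 1
  have hs : 0 < √(2 * Real.pi) := by positivity
  have hq : √(2 * Real.pi) * √(2 * Real.pi) = 2 * Real.pi := Real.mul_self_sqrt (by positivity)
  obtain ⟨r, hr⟩ : ∃ r, r = √(2 * Real.pi) := ⟨_, rfl⟩
  rw [← hr] at hs hq ⊢
  rw [← hq]
  field_simp

/-- The integral over the lower line. -/
theorem bottom (T u : ℝ) (hT : 0 < T) (f : ℝ → ℝ) (G : ℝ → ℂ)
    (hf : Integrable fun y : ℝ => f y * Real.exp (-2 * y))
    (hG : ∀ x : ℝ, ∫ y : ℝ, (f y : ℂ) * exp (-(2 + I * x) * y) = G x) :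
    Integrable (fun x : ℝ => Ew T u (x - (3 / 2 : ℝ) * I) * G x) ∧
      ∫ x : ℝ, Ew T u (x - (3 / 2 : ℝ) * I) * G x =
        2 * Real.pi * ((∫ y, f y * Real.exp (-y / 2) * Kt T (y - u) : ℝ) : ℂ) := by
  have h1 := (Ew_bot_int T u hT).mul_prod hf.ofReal
  have h2 : Integrable (fun z : ℝ × ℝ => (Ew T u (z.1 - (3 / 2 : ℝ) * I) *
      ((f z.2 * Real.exp (-2 * z.2) : ℝ) : ℂ)) * exp (-(I * z.1 * z.2))) (volume.prod volume) := by
    refine h1.mul_bdd (c := 1) (Continuous.aestronglyMeasurable (by fun_prop))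
      (Eventually.of_forall fun z => ?_)
    rw [norm_exp]
    simp
  have h3 : Integrable (Function.uncurry fun x y : ℝ => Ew T u (x - (3 / 2 : ℝ) * I) *
      ((f y : ℂ) * exp (-(2 + I * x) * y))) (volume.prod volume) := by
    refine h2.congr (Eventually.of_forall fun z => ?_)
    simp only [Function.uncurry]
    rw [mul_assoc, ofReal_mul, mul_assoc, ofReal_exp, ← Complex.exp_add]
    congr 3
    push_cast
    ring
  have h4 : (fun x : ℝ => Ew T u (x - (3 / 2 : ℝ) * I) * G x) = fun x : ℝ =>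
      ∫ y : ℝ, Ew T u (x - (3 / 2 : ℝ) * I) * ((f y : ℂ) * exp (-(2 + I * x) * y)) :=
    funext fun x => by rw [integral_const_mul, hG]
  rw [h4]
  refine ⟨h3.integral_prod_left, ?_⟩
  rw [integral_integral_swap h3, ← integral_complex_ofReal, ← integral_const_mul]
  refine integral_congr_ae (Eventually.of_forall fun y => ?_)
  have h5 : (fun x : ℝ => Ew T u (x - (3 / 2 : ℝ) * I) * ((f y : ℂ) * exp (-(2 + I * x) * y))) =
      fun x : ℝ => (f y : ℂ) * (Ew T u (x - (3 / 2 : ℝ) * I) * exp (-(2 + I * x) * y)) :=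
    funext fun x => by ring
  simp only
  rw [h5, integral_const_mul, Ew_bot_val T u y hT]
  push_cast
  ring

theorem deriv_prod (V : Finset ℝ) (g : ℂ → ℂ) (hg : Differentiable ℂ g) (v : ℝ) (hv : v ∈ V) :
    deriv (fun w => (∏ u ∈ V, (w - (u : ℂ))) * g w) v = (pd V v : ℂ) * g v := by
  have e : (fun w : ℂ => (∏ u ∈ V, (w - (u : ℂ))) * g w) =
      fun w : ℂ => (w - v) * ((∏ u ∈ V.erase v, (w - (u : ℂ))) * g w) := funext fun w => by
    rw [← Finset.mul_prod_erase V (fun u : ℝ => w - (u : ℂ)) hv, mul_assoc]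
  have h1 : DifferentiableAt ℂ (fun w : ℂ => w - v) v := by fun_prop
  have h2 : DifferentiableAt ℂ (fun w : ℂ => (∏ u ∈ V.erase v, (w - (u : ℂ))) * g w) v := by
    refine DifferentiableAt.mul ?_ (hg v)
    fun_prop
  rw [e, deriv_fun_mul h1 h2, sub_self, zero_mul, add_zero, deriv_sub_const, deriv_id'', one_mul,
    pd]
  push_cast
  rfl

/-- The residue theorem on the rectangle. -/
theorem residue {C : ℝ} (hZ : ZD C) (H : ℂ → ℂ) (hH : Differentiable ℂ H) (X : ℝ) (hX : 0 < X)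
    (h1 : z1 X ≠ 0) (h2 : z1 (-X : ℝ) ≠ 0) :
    rectInt (fun w => H w / z1 w) (-X) X (3 / 2) =
      2 * Real.pi * I * ∑ v ∈ ZS X, H v / deriv z1 v := by
  obtain ⟨g, hg, hfg⟩ := Factor.exists_quot Set.univ isOpen_univ z1 z1_diff.differentiableOn (ZS X)
    fun v hv => ⟨Set.mem_univ _, (mem_ZS.1 hv).1⟩
  have hg' : Differentiable ℂ g := differentiableOn_univ.1 hg
  have hd : ∀ v : ℝ, z1 v = 0 → deriv z1 v ≠ 0 := fun v hv h => by
    have := hZ.res v hv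
    rw [h, norm_zero, mul_zero] at this
    linarith
  have hne : ∀ w ∈ Set.Icc (-X) X ×ℂ Set.Icc (-(3 / 2 : ℝ)) (3 / 2), g w ≠ 0 := by
    intro w hw h0
    rw [mem_reProdIm] at hw
    have hz : z1 w = 0 := by rw [hfg, h0, mul_zero]
    have him : w.im = 0 := hZ.real w (abs_le.2 hw.2) hz
    have hw' : w = (w.re : ℂ) := by
      apply Complex.ext <;> simp [him]
    rw [hw'] at hz h0
    exact Factor.quot_ne_zero Set.univ isOpen_univ z1 g hg (ZS X) hfg w.re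
      (mem_ZS.2 ⟨hz, abs_le.2 hw.1⟩) (Set.mem_univ _) (hd _ hz) h0
  have hr := rect_residue (fun w => H w / g w) (-X) X (3 / 2) (by linarith) (by norm_num)
    (hH.differentiableOn.div hg'.differentiableOn hne) (ZS X)
    (fun h => h2 (mem_ZS.1 h).1) (fun h => h1 (mem_ZS.1 h).1)
  have e1 : (fun w => H w / z1 w) = fun w => H w / g w / ∏ u ∈ ZS X, (w - (u : ℂ)) :=
    funext fun w => by rw [hfg, div_div, mul_comm]
  have e2 : mid (ZS X) (-X) X = ZS X := by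
    refine Finset.filter_true_of_mem fun v hv => ?_
    obtain ⟨a, b⟩ := mem_ZS.1 hv
    obtain ⟨b1, b2⟩ := abs_le.1 b
    refine ⟨lt_of_le_of_ne b1 fun h => h2 ?_, lt_of_le_of_ne b2 fun h => h1 ?_⟩
    · rw [h]; exact a
    · rw [← h]; exact a
  rw [e1, hr, e2]
  congr 1
  refine Finset.sum_congr rfl fun v hv => ?_
  have e3 : z1 = fun w => (∏ u ∈ ZS X, (w - (u : ℂ))) * g w := funext hfg
  have e4 : deriv z1 v = (pd (ZS X) v : ℂ) * g v := by
    rw [← deriv_prod (ZS X) g hg' v hv, ← e3]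
  rw [e4, div_div, mul_comm]

/-- The bound on a vertical side. -/
noncomputable def sideB (C K T u X : ℝ) : ℝ :=
  |K| * (1 + X) * (Real.exp (C * X) + 1) *
    Real.exp (3 / 2 * |u| + 9 / (8 * T ^ 2) - X ^ 2 / (2 * T ^ 2))

theorem side_le (N : ℂ → ℂ) (C K T u X x : ℝ) (hT : 0 < T) (hX : 0 ≤ X) (hx : |x| = X)
    (hN : ∀ y : ℝ, |y| ≤ 3 / 2 → ‖N (x + y * I)‖ ≤ K * (1 + |x|) * (1 + ‖z1 (x + y * I)‖))
    (hz : ∀ y : ℝ, |y| ≤ 3 / 2 → 1 ≤ Real.exp (C * X) * ‖z1 (x + y * I)‖) :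
    ‖∫ y in (-(3 / 2 : ℝ))..(3 / 2), Ew T u (x + y * I) * N (x + y * I) / z1 (x + y * I)‖ ≤
      3 * sideB C K T u X := by
  refine (intervalIntegral.norm_integral_le_of_norm_le_const (C := sideB C K T u X)
    fun y hy => ?_).trans (le_of_eq (by norm_num [mul_comm]))
  rw [Set.uIoc_of_le (by norm_num)] at hy
  have hy' : |y| ≤ 3 / 2 := abs_le.2 ⟨hy.1.le, hy.2⟩
  have h1 := hN y hy'
  have h2 := hz y hy'
  have h3 : 0 < ‖z1 (x + y * I)‖ := by
    rcases (norm_nonneg (z1 (x + y * I))).eq_or_lt with h | h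
    · rw [← h] at h2; linarith
    · exact h
  rw [norm_div, norm_mul, norm_Ew, div_le_iff₀ h3, sideB]
  rw [hx] at h1
  have h4 : Real.exp (-y * u - (x ^ 2 - y ^ 2) / (2 * T ^ 2)) ≤
      Real.exp (3 / 2 * |u| + 9 / (8 * T ^ 2) - X ^ 2 / (2 * T ^ 2)) := by
    rw [Real.exp_le_exp, ← hx, sq_abs]
    have a1 : -y * u ≤ 3 / 2 * |u| := by
      refine (le_abs_self _).trans ?_
      rw [abs_mul, abs_neg]
      exact mul_le_mul_of_nonneg_right hy' (abs_nonneg _)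
    have a2 : y ^ 2 ≤ 9 / 4 := by
      rw [← sq_abs]
      nlinarith [abs_nonneg y]
    have a3 : y ^ 2 / (2 * T ^ 2) ≤ 9 / (8 * T ^ 2) := by
      rw [div_le_div_iff₀ (by positivity) (by positivity)]
      nlinarith [sq_pos_of_pos hT]
    rw [sub_div]
    linarith
  have h5 : ‖N (x + y * I)‖ ≤ |K| * (1 + X) * (Real.exp (C * X) + 1) * ‖z1 (x + y * I)‖ := by
    refine h1.trans ?_
    rw [mul_assoc (|K| * (1 + X))]
    refine mul_le_mul (mul_le_mul_of_nonneg_right (le_abs_self K) (by linarith)) (by linarith)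
      (by positivity) (by positivity)
  calc _ ≤ Real.exp (3 / 2 * |u| + 9 / (8 * T ^ 2) - X ^ 2 / (2 * T ^ 2)) *
        (|K| * (1 + X) * (Real.exp (C * X) + 1) * ‖z1 (x + y * I)‖) :=
        mul_le_mul h4 h5 (norm_nonneg _) (Real.exp_pos _).le
    _ = _ := by ring

theorem sideB_tendsto (C K T u : ℝ) (hC : 0 < C) (hT : 0 < T) :
    Tendsto (sideB C K T u) atTop (𝓝 0) := by
  have h1 : Tendsto (fun X : ℝ => 2 * |K| * Real.exp (3 / 2 * |u| + 9 / (8 * T ^ 2)) *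
      Real.exp (-X)) atTop (𝓝 (2 * |K| * Real.exp (3 / 2 * |u| + 9 / (8 * T ^ 2)) * 0)) :=
    Real.tendsto_exp_neg_atTop_nhds_zero.const_mul _
  rw [mul_zero] at h1
  refine squeeze_zero' ?_ ?_ h1
  · filter_upwards [eventually_ge_atTop (0 : ℝ)] with X hX
    unfold sideB
    positivity
  · filter_upwards [eventually_ge_atTop (2 * T ^ 2 * (C + 2))] with X hX
    have hX0 : 0 ≤ X := le_trans (by positivity) hX
    have a1 : 1 + X ≤ Real.exp X := by linarith [Real.add_one_le_exp X]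
    have a2 : Real.exp (C * X) + 1 ≤ 2 * Real.exp (C * X) := by
      linarith [Real.one_le_exp (show 0 ≤ C * X by positivity)]
    have a3 : (C + 2) * X ≤ X ^ 2 / (2 * T ^ 2) := by
      rw [le_div_iff₀ (by positivity)]
      nlinarith
    have a4 : Real.exp X * Real.exp (C * X) *
        Real.exp (3 / 2 * |u| + 9 / (8 * T ^ 2) - X ^ 2 / (2 * T ^ 2)) ≤
        Real.exp (3 / 2 * |u| + 9 / (8 * T ^ 2)) * Real.exp (-X) := by
      rw [← Real.exp_add, ← Real.exp_add, ← Real.exp_add, Real.exp_le_exp]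
      linarith
    unfold sideB
    calc _ ≤ |K| * Real.exp X * (2 * Real.exp (C * X)) *
          Real.exp (3 / 2 * |u| + 9 / (8 * T ^ 2) - X ^ 2 / (2 * T ^ 2)) := by gcongr
      _ = 2 * |K| * (Real.exp X * Real.exp (C * X) *
          Real.exp (3 / 2 * |u| + 9 / (8 * T ^ 2) - X ^ 2 / (2 * T ^ 2))) := by ring
      _ ≤ 2 * |K| * (Real.exp (3 / 2 * |u| + 9 / (8 * T ^ 2)) * Real.exp (-X)) := by gcongr
      _ = _ := by ring

theorem top_le (G : ℝ → ℂ) (T u X : ℝ) (hT : 0 < T) (hX : 0 ≤ X) (b : ℝ → ℝ) (hb : Integrable b)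
    (hG : ∀ x : ℝ, ‖G x‖ * Real.exp (-(x ^ 2 / (2 * T ^ 2))) ≤ b x) :
    ‖∫ x in (-X)..X, Ew T u (x + (3 / 2 : ℝ) * I) * G x‖ ≤
      Real.exp (-(3 / 2) * u + 9 / (8 * T ^ 2)) * ∫ x, b x := by
  have hb0 : ∀ x, 0 ≤ b x := fun x => le_trans (by positivity) (hG x)
  rw [intervalIntegral.integral_of_le (by linarith), ← integral_const_mul]
  have hi : Integrable fun x => Real.exp (-(3 / 2) * u + 9 / (8 * T ^ 2)) * b x := hb.const_mul _
  refine (norm_integral_le_of_norm_le hi.integrableOn (Eventually.of_forall fun x => ?_)).trans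
    (setIntegral_le_integral hi (Eventually.of_forall fun x => mul_nonneg (Real.exp_pos _).le (hb0 x)))
  rw [norm_mul, norm_Ew]
  refine le_trans (le_of_eq ?_) (mul_le_mul_of_nonneg_left (hG x) (Real.exp_pos _).le)
  rw [mul_comm ‖G x‖, ← mul_assoc, ← Real.exp_add]
  congr 2
  field_simp
  ring

end ExpAux

open ExpAux

theorem expl : EXP := by
  intro C hZ N K T u f b hN hT hNb hf hfG hb hbG ε X₀ hε
  obtain ⟨i1, i2⟩ := bottom T u hT f _ hf hfG
  have t1 := intervalIntegral_tendsto_integral i1 tendsto_neg_atTop_atBot tendsto_id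
  rw [i2] at t1
  have t2 := (Metric.tendsto_nhds.1 t1) ε hε
  have t3 := (sideB_tendsto C K T u hZ.pos hT).eventually (gt_mem_nhds (show 0 < ε / 2 by linarith))
  obtain ⟨X₁, hX₁⟩ := eventually_atTop.1 (t2.and t3)
  obtain ⟨X, hX, hS⟩ := hZ.side (max (max X₀ X₁) 1)
  have hX0 : X₀ ≤ X := ((le_max_left _ _).trans (le_max_left _ _)).trans hX
  have hX1 : X₁ ≤ X := ((le_max_right _ _).trans (le_max_left _ _)).trans hX
  have hX2 : 1 ≤ X := (le_max_right _ _).trans hX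
  obtain ⟨s1, s2⟩ := hX₁ X hX1
  refine ⟨X, hX0, ?_⟩
  have n1 : z1 X ≠ 0 := fun h => by
    have := (hS 0 (by norm_num)).1
    rw [ofReal_zero, zero_mul, add_zero, h, norm_zero, mul_zero] at this
    linarith
  have n2 : z1 (-X : ℝ) ≠ 0 := fun h => by
    have := (hS 0 (by norm_num)).2
    rw [ofReal_zero, zero_mul, add_zero, ← ofReal_neg, h, norm_zero, mul_zero] at this
    linarith
  have hr := residue hZ (fun w => Ew T u w * N w) ((Ew_diff T u).mul hN) X (by linarith) n1 n2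
  have aX : |X| = X := abs_of_nonneg (by linarith)
  have aX' : |(-X)| = X := by rw [abs_neg, aX]
  have b1 := side_le N C K T u X X hT (by linarith) aX
    (fun y hy => hNb X y (by rw [aX]; exact hX2) hy) fun y hy => (hS y hy).1
  have b2 := side_le N C K T u X (-X) hT (by linarith) aX'
    (fun y hy => hNb (-X) y (by rw [aX']; exact hX2) hy) fun y hy => by
      rw [ofReal_neg]; exact (hS y hy).2
  have b3 := top_le _ T u X hT (by linarith) b hb hbG
  rw [dist_eq_norm] at s1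
  unfold rectInt at hr
  simp only [mul_div_assoc, id] at hr b1 b2 s1
  obtain ⟨A, hA⟩ : ∃ A, A = ((∫ y, f y * Real.exp (-y / 2) * Kt T (y - u) : ℝ) : ℂ) := ⟨_, rfl⟩
  obtain ⟨B, hB⟩ : ∃ B, B = ∫ x in (-X)..X, Ew T u (x - (3 / 2 : ℝ) * I) *
    (N (x - (3 / 2 : ℝ) * I) / z1 (x - (3 / 2 : ℝ) * I)) := ⟨_, rfl⟩
  obtain ⟨P, hP⟩ : ∃ P, P = ∫ x in (-X)..X, Ew T u (x + (3 / 2 : ℝ) * I) *
    (N (x + (3 / 2 : ℝ) * I) / z1 (x + (3 / 2 : ℝ) * I)) := ⟨_, rfl⟩
  obtain ⟨R, hR⟩ : ∃ R, R = ∫ y in (-(3 / 2 : ℝ))..(3 / 2), Ew T u (X + y * I) *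
    (N (X + y * I) / z1 (X + y * I)) := ⟨_, rfl⟩
  obtain ⟨L, hL⟩ : ∃ L, L = ∫ y in (-(3 / 2 : ℝ))..(3 / 2), Ew T u ((-X : ℝ) + y * I) *
    (N ((-X : ℝ) + y * I) / z1 ((-X : ℝ) + y * I)) := ⟨_, rfl⟩
  obtain ⟨E, hE⟩ : ∃ E, E = Real.exp (-(3 / 2) * u + 9 / (8 * T ^ 2)) * ∫ x, b x := ⟨_, rfl⟩
  rw [← hB, ← hP, ← hR, ← hL] at hr
  rw [← hA, ← hB] at s1
  rw [← hR] at b1
  rw [← hL] at b2
  rw [← hP, ← hE] at b3
  rw [← hA, ← hE]
  have e : (2 * Real.pi : ℂ) * (A - ∑ v ∈ ZS X, I * N v / deriv z1 v * Ew T u v) =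
      -(B - 2 * Real.pi * A) + P - I * R + I * L := by
    have : ∑ v ∈ ZS X, I * N v / deriv z1 v * Ew T u v =
        I * ∑ v ∈ ZS X, Ew T u v * (N v / deriv z1 v) := by
      rw [Finset.mul_sum]
      exact Finset.sum_congr rfl fun v _ => by ring
    rw [this]
    linear_combination hr
  have e2 : 2 * Real.pi * ‖A - ∑ v ∈ ZS X, I * N v / deriv z1 v * Ew T u v‖ ≤
      ‖B - 2 * Real.pi * A‖ + ‖P‖ + ‖R‖ + ‖L‖ := by
    have := congrArg norm e
    rw [norm_mul, norm_mul, norm_real, Real.norm_of_nonneg Real.pi_pos.le, Complex.norm_two] at this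
    rw [this]
    refine (norm_add_le _ _).trans (add_le_add ((norm_sub_le _ _).trans (add_le_add
      ((norm_add_le _ _).trans (by rw [norm_neg])) (by simp))) (by simp))
  have hE0 : 0 ≤ E := (norm_nonneg _).trans b3
  have hp := Real.pi_gt_three
  nlinarith [norm_nonneg (A - ∑ v ∈ ZS X, I * N v / deriv z1 v * Ew T u v)]

end Pool.Agent.MP_a550d9_nt.H28
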