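import Pool.Agent.MP_a550d9_nt.H28.Spec

/-!
Non-vanishing on the real segment, the lower bound on `re s = -1`, and the reflection bound.
-/

open Complex MeasureTheory Pool.Agent.MP_ca0a54_nt.L0.ZetaA

namespace Pool.Agent.MP_a550d9_nt.H28

namespace FE

lemma pw_real (c : ℝ) {x : ℝ} (hx : 0 < x) : pw c x = ((x ^ c : ℝ) : ℂ) := by
  rw [pw_eq _ hx, Complex.ofReal_cpow hx.le]

lemma tm_re (n : ℕ) {σ : ℝ} (h0 : 0 ≤ σ) (h1 : σ ≤ 1) :
    (σ - 1) * (((n : ℝ) + 1) ^ (-σ) - ((n : ℝ) + 1 + 1) ^ (-σ)) ≤ (tm n σ).re := by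
  set m : ℝ := n + 1 with hm
  have hm1 : 1 ≤ m := by rw [hm]; linarith [Nat.cast_nonneg (α := ℝ) n]
  have e : tm n σ = (((σ - 1) * m ^ (-σ) - m ^ (1 - σ) + (m + 1) ^ (1 - σ) : ℝ) : ℂ) := by
    have a := pw_real (-σ) (x := m) (by linarith)
    have b := pw_real (1 - σ) (x := m) (by linarith)
    have c := pw_real (1 - σ) (x := m + 1) (by linarith)
    push_cast at a b c ⊢
    rw [tm, ← hm, a, b, c]
  rw [e, ofReal_re]
  have hp : 0 < m + 1 := by linarith
  have k : (1 + -(m + 1)⁻¹) ^ (1 - σ) ≤ 1 + (1 - σ) * -(m + 1)⁻¹ :=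
    rpow_one_add_le_one_add_mul_self
      (by rw [neg_le_neg_iff]; exact inv_le_one_of_one_le₀ (by linarith)) (by linarith)
      (by linarith)
  have e1 : (1 + -(m + 1)⁻¹) = m / (m + 1) := by field_simp; ring
  rw [e1, Real.div_rpow (by linarith) hp.le, div_le_iff₀ (Real.rpow_pos_of_pos hp _)] at k
  have e2 : (m + 1) ^ (1 - σ) = (m + 1) * (m + 1) ^ (-σ) := by
    rw [sub_eq_add_neg, Real.rpow_add hp, Real.rpow_one]
  have e3 : (1 + (1 - σ) * -(m + 1)⁻¹) * (m + 1) ^ (1 - σ) =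
      (m + 1) ^ (1 - σ) - (1 - σ) * (m + 1) ^ (-σ) := by
    rw [e2]; field_simp; ring
  rw [e3] at k
  nlinarith

lemma nz_mid {σ : ℝ} (h0 : 1 / 4 < σ) (h1 : σ ≤ 1) : riemannZeta₁ σ ≠ 0 := by
  have hs : 1 / 4 < (σ : ℂ).re := by simpa using h0
  have hsum : Summable fun n => tm n σ :=
    Summable.of_norm_bounded (summable_Z'.mul_left _) fun n => norm_tm_le n _ hs.le
  have h2 := hsum.hasSum
  rw [tsum_tm _ hs] at h2
  have h3 := (Complex.hasSum_re h2).tendsto_sum_nat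
  have h4 : σ - 1 ≤ (riemannZeta₁ σ - 1).re := by
    refine ge_of_tendsto' h3 fun N => ?_
    refine le_trans ?_ (Finset.sum_le_sum fun n _ => tm_re n (by linarith) h1)
    have t := Finset.sum_range_sub' (fun n : ℕ => ((n : ℝ) + 1) ^ (-σ)) N
    push_cast at t
    rw [← Finset.mul_sum, t]
    have : 0 ≤ ((N : ℝ) + 1) ^ (-σ) := by positivity
    simp only [zero_add, Real.one_rpow]
    nlinarith
  intro h
  rw [h] at h4
  simp at h4
  linarith

lemma nz_right {σ : ℝ} (h0 : 1 / 4 < σ) : riemannZeta₁ σ ≠ 0 := by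
  rcases le_or_gt σ 1 with h1 | h1
  · exact nz_mid h0 h1
  · intro h
    have hs : (σ : ℂ) ≠ 1 := by exact_mod_cast h1.ne'
    refine riemannZeta_ne_zero_of_one_lt_re (s := σ) (by simpa using h1) ?_
    rw [riemannZeta_eq_inv_sub_mul hs, h, mul_zero]

lemma left_pos {x : ℝ} (hx : 0 < x) : (1 + x) ^ 2 * √(1 + x) ≤
    6 * (Z + 1) / (2 * (2 * Real.pi) ^ (-2 : ℝ)) * ‖z1 (x + (3 / 2 : ℝ) * I)‖ := by
  have hZ := Z_nonneg
  set k : ℝ := 2 * (2 * Real.pi) ^ (-2 : ℝ) with hk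
  have hk0 : 0 < k := by positivity
  have e : (1 / 2 + I * (x + (3 / 2 : ℝ) * I) : ℂ) = 1 - (2 - x * I) := by
    push_cast
    linear_combination (3 / 2 : ℂ) * I_mul_I
  have hne : (1 / 2 + I * (x + (3 / 2 : ℝ) * I) : ℂ) ≠ 1 := fun h => by
    have := congrArg Complex.im h
    rw [im_arg] at this
    exact hx.ne' (by simpa using this)
  rw [z1_eq hne, norm_mul, e, norm_zeta_one_sub _ (by simp; exact hx.ne'),
    show -(2 - x * I : ℂ).re = (-2 : ℝ) by simp, ← hk]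
  have g := gamma_cos x hx
  set A := ‖Gamma (2 - x * I) * cos (Real.pi * (2 - x * I) / 2)‖ with hA
  have hA0 : 0 ≤ A := norm_nonneg _
  set y := Real.pi * x / 2 with hy
  have hy1 : x ≤ y := by rw [hy]; nlinarith [Real.pi_gt_three]
  have hs : 0 < Real.sinh y := Real.sinh_pos_iff.2 (by linarith)
  have hc1 : Real.sinh y ≤ Real.cosh y := (Real.sinh_lt_cosh y).le
  have hc2 : Real.sinh y ≤ 2 * y * Real.cosh y := by
    rw [Real.cosh_eq, Real.sinh_eq]
    have a := Real.add_one_le_exp (-(2 * y))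
    have b : Real.exp (-y) = Real.exp y * Real.exp (-(2 * y)) := by
      rw [← Real.exp_add]; congr 1; ring
    have c := Real.exp_pos y
    have d := Real.exp_pos (-y)
    nlinarith
  have l0 : (1 + x) * Real.sinh y ≤ 4 * (y * Real.cosh y) := by nlinarith
  have l1 : (1 + x ^ 2) * (1 + x) ≤ 4 * A ^ 2 := by
    refine le_of_mul_le_mul_right ?_ hs
    rw [mul_assoc 4, g, mul_assoc]
    nlinarith [mul_le_mul_of_nonneg_left l0 (show 0 ≤ 1 + x ^ 2 by positivity)]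
  have b1 : (1 + x) * √(1 + x) ≤ 3 * A := by
    refine (pow_le_pow_iff_left₀ (by positivity) (by positivity) two_ne_zero).1 ?_
    rw [mul_pow, Real.sq_sqrt (by linarith)]
    nlinarith [mul_nonneg (show 0 ≤ 1 + x by linarith) (sq_nonneg (1 - x)), sq_nonneg A]
  have b2 : 1 + x ≤ 2 * ‖(I * (x + (3 / 2 : ℝ) * I) - 1 / 2 : ℂ)‖ := by
    have r := Complex.abs_re_le_norm (I * (x + (3 / 2 : ℝ) * I) - 1 / 2 : ℂ)
    have i := Complex.abs_im_le_norm (I * (x + (3 / 2 : ℝ) * I) - 1 / 2 : ℂ)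
    have r' : (I * (x + (3 / 2 : ℝ) * I) - 1 / 2 : ℂ).re = -2 := by simp; norm_num
    have i' : (I * (x + (3 / 2 : ℝ) * I) - 1 / 2 : ℂ).im = x := by simp
    rw [r', abs_neg, abs_two] at r
    rw [i', abs_of_pos hx] at i
    linarith
  obtain ⟨q1, -, q3⟩ := zeta_right (2 - x * I) (by simp; norm_num)
  have q0 : 0 < ‖riemannZeta (2 - x * I)‖ := norm_pos_iff.2 q1
  have q4 : 1 ≤ (Z + 1) * ‖riemannZeta (2 - x * I)‖ := by
    rw [norm_inv, inv_le_iff_one_le_mul₀ q0] at q3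
    nlinarith
  set B := ‖(I * (x + (3 / 2 : ℝ) * I) - 1 / 2 : ℂ)‖
  set D := ‖riemannZeta (2 - x * I)‖
  calc (1 + x) ^ 2 * √(1 + x) = (1 + x) * ((1 + x) * √(1 + x)) * 1 := by ring
    _ ≤ (2 * B) * (3 * A) * ((Z + 1) * D) := by gcongr
    _ = _ := by field_simp; ring

lemma norm_z1_neg (x y : ℝ) : ‖z1 ((-x : ℝ) + y * I)‖ = ‖z1 (x + y * I)‖ := by
  rw [← norm_conj (z1 (x + y * I)), ← z1_conj]
  congr 2
  simp [add_comm]

end FE

open FE

theorem nz : NZ := by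
  intro σ h0 h1
  rcases lt_or_ge (1 / 4) σ with h2 | h2
  · exact nz_right h2
  have hs : (σ : ℂ) ≠ 1 := by
    have : σ ≠ 1 := by linarith
    exact_mod_cast this
  intro h
  have hz : riemannZeta σ = 0 := by rw [riemannZeta_eq_inv_sub_mul hs, h, mul_zero]
  rcases eq_or_ne σ 0 with rfl | h3
  · simp [riemannZeta_zero] at hz
  have ht : ((1 - σ : ℝ) : ℂ) ≠ 1 := by
    have : 1 - σ ≠ 1 := fun e => h3 (by linarith)
    exact_mod_cast this
  have hn : ∀ n : ℕ, ((1 - σ : ℝ) : ℂ) ≠ -n := fun n e => by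
    have := congrArg Complex.re e
    simp at this
    linarith [Nat.cast_nonneg (α := ℝ) n]
  have e := riemannZeta_one_sub hn ht
  rw [show (1 - ((1 - σ : ℝ) : ℂ)) = σ by push_cast; ring, hz] at e
  refine mul_ne_zero (mul_ne_zero (mul_ne_zero (mul_ne_zero two_ne_zero ?_) ?_) ?_) ?_ e.symm
  · exact Complex.cpow_ne_zero_iff.2 (Or.inl (by simp))
  · exact Complex.Gamma_ne_zero hn
  · rw [Ne, Complex.cos_eq_zero_iff]
    rintro ⟨k, hk⟩
    have hpi : (Real.pi : ℂ) ≠ 0 := by simp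
    have h4 : ((1 - σ : ℝ) : ℂ) = 2 * k + 1 := by
      apply mul_left_cancel₀ hpi
      linear_combination 2 * hk
    have h5 : 1 - σ = 2 * k + 1 := by exact_mod_cast h4
    have h6 : (-1 : ℝ) < k := by linarith
    have h7 : (k : ℝ) < 1 := by linarith
    have h8 : k = 0 := by
      have a : (-1 : ℤ) < k := by exact_mod_cast h6
      have b : k < (1 : ℤ) := by exact_mod_cast h7
      omega
    rw [h8] at h5
    exact h3 (by simpa using h5)
  · rw [riemannZeta_eq_inv_sub_mul ht]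
    exact mul_ne_zero (inv_ne_zero (sub_ne_zero.2 ht)) (nz_right (by linarith))

theorem left : LEFT := by
  have hZ := Z_nonneg
  refine ⟨6 * (Z + 1) / (2 * (2 * Real.pi) ^ (-2 : ℝ)), by positivity, fun x => ?_⟩
  set C := 6 * (Z + 1) / (2 * (2 * Real.pi) ^ (-2 : ℝ)) with hC
  have hcl : IsClosed {t : ℝ | (1 + t) ^ 2 * √(1 + t) ≤ C * ‖z1 (t + (3 / 2 : ℝ) * I)‖} := by
    have := z1_diff.continuous
    exact isClosed_le (by fun_prop) (by fun_prop)
  have h1 := hcl.closure_subset_iff.2 (fun t ht => left_pos ht : Set.Ioi (0 : ℝ) ⊆ _)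
  rw [closure_Ioi] at h1
  have h2 : (1 + |x|) ^ 2 * √(1 + |x|) ≤ C * ‖z1 ((|x| : ℝ) + (3 / 2 : ℝ) * I)‖ :=
    h1 (abs_nonneg x)
  rcases abs_choice x with h | h
  · rwa [show ((|x| : ℝ) : ℂ) = x by rw [h]] at h2
  · rwa [show ((|x| : ℝ) : ℂ) = (-x : ℝ) by rw [h], norm_z1_neg] at h2

theorem feq : FEQ := by
  set G : ℝ := 2 * Real.exp (6 * 3 * Real.log 3) with hG
  have hG0 : 0 < G := by positivity
  refine ⟨16 * G + 2, by positivity, fun x y hx hy0 hy1 => ?_⟩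
  have hx0 : x ≠ 0 := fun h => by rw [h] at hx; norm_num at hx
  rw [← norm_z1_neg x y]
  set t : ℂ := 1 / 2 + I * ((-x : ℝ) + y * I) with ht
  have hre : t.re = 1 / 2 - y := by rw [ht, re_arg]; simp
  have him : t.im = -x := by rw [ht, im_arg]; simp
  have e : (1 / 2 + I * (x - y * I) : ℂ) = 1 - t := by
    rw [ht]; push_cast; ring
  have hne : (1 / 2 + I * (x - y * I) : ℂ) ≠ 1 := fun h => by
    have := congrArg Complex.im h
    rw [im_arg] at this
    exact hx0 (by simpa using this)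
  have hne' : t ≠ 1 := fun h => by
    have := congrArg Complex.im h
    rw [him] at this
    exact hx0 (by simpa using this)
  rw [z1_eq hne, z1_eq hne', norm_mul, norm_mul, e, ← ht,
    norm_zeta_one_sub t (by rw [him]; exact neg_ne_zero.2 hx0), norm_mul]
  have a0 : ‖(I * (x - y * I) - 1 / 2 : ℂ)‖ ≤ ‖(I * ((-x : ℝ) + y * I) - 1 / 2 : ℂ)‖ := by
    refine (pow_le_pow_iff_left₀ (norm_nonneg _) (norm_nonneg _) two_ne_zero).1 ?_
    rw [Complex.sq_norm, Complex.sq_norm, Complex.normSq_apply, Complex.normSq_apply]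
    simp
    nlinarith
  have a1 : (2 * Real.pi) ^ (-t.re) ≤ 8 := by
    calc (2 * Real.pi) ^ (-t.re) ≤ (2 * Real.pi) ^ (1 : ℝ) :=
          Real.rpow_le_rpow_of_exponent_le (by linarith [Real.pi_gt_three]) (by linarith)
      _ ≤ 8 := by rw [Real.rpow_one]; linarith [Real.pi_le_four]
  have n1 : 1 ≤ ‖t‖ := le_trans (by rw [him, abs_neg]; exact hx) (Complex.abs_im_le_norm t)
  have n2 : 1 ≤ ‖t + 1‖ :=
    le_trans (by simp [him, hx]) (Complex.abs_im_le_norm (t + 1))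
  have a2 : ‖Gamma t‖ ≤ G := by
    have g : Gamma (t + 1 + 1) = (t + 1) * (t * Gamma t) := by
      rw [Complex.Gamma_add_one _ (norm_pos_iff.1 (by linarith)),
        Complex.Gamma_add_one _ (norm_pos_iff.1 (by linarith))]
    have r : (t + 1 + 1).re = 5 / 2 - y := by simp [hre]; ring
    have b := (norm_Gamma_le (t + 1 + 1) (by linarith)).trans
      (Gamma_le 3 _ le_rfl (by linarith) (by linarith))
    rw [g, norm_mul, norm_mul, ← hG] at b
    refine le_trans ?_ b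
    calc ‖Gamma t‖ = 1 * (1 * ‖Gamma t‖) := by ring
      _ ≤ _ := by gcongr
  have a3 : ‖cos (Real.pi * t / 2)‖ ≤ Real.exp (2 * |x|) := by
    refine (norm_cos_le _).trans (Real.exp_le_exp.2 ?_)
    have : (Real.pi * t / 2 : ℂ).im = Real.pi / 2 * t.im := by simp; ring
    rw [this, abs_mul, him, abs_neg, abs_of_pos (by positivity)]
    nlinarith [Real.pi_le_four, Real.pi_pos]
  have a4 : 16 * G ≤ Real.exp (16 * G * |x|) :=
    le_trans (by nlinarith) (Real.add_one_le_exp _)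
  set B := ‖(I * ((-x : ℝ) + y * I) - 1 / 2 : ℂ)‖
  calc _ ≤ B * (2 * 8 * (G * Real.exp (2 * |x|)) * ‖riemannZeta t‖) := by gcongr
    _ = 16 * G * Real.exp (2 * |x|) * (B * ‖riemannZeta t‖) := by ring
    _ ≤ Real.exp (16 * G * |x|) * Real.exp (2 * |x|) * (B * ‖riemannZeta t‖) := by gcongr
    _ = _ := by rw [← Real.exp_add]; congr 2; ring

end Pool.Agent.MP_a550d9_nt.H28
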