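import Pool.Agent.MP_a550d9_nt.H28.FORMB

/-! Explicit formula for the smoothed increments of the Mertens function. -/

open Complex MeasureTheory

namespace Pool.Agent.MP_a550d9_nt.H28

namespace FORMA

theorem exp_sub_le (z : ℂ) {B : ℝ} (hB : 0 ≤ B) (h : z.re ≤ B) :
    ‖exp z - 1‖ ≤ Real.exp B * ‖z‖ := by
  have := (convex_halfSpace_re_le B).norm_image_sub_le_of_norm_deriv_le (𝕜 := ℂ) (f := exp)
    (C := Real.exp B) (fun _ _ => differentiableAt_exp) (fun x hx => by
      rw [Complex.deriv_exp, norm_exp]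
      exact Real.exp_le_exp.2 hx) (x := 0) (y := z) (by simpa using hB) h
  simpa using this

/-- `(exp (η s) - 1) / s`. -/
noncomputable def dq (η : ℝ) (s : ℂ) : ℂ := dslope (fun s : ℂ => exp (η * s)) 0 s

theorem dq_diff (η : ℝ) : Differentiable ℂ (dq η) :=
  differentiableOn_univ.1 ((differentiableOn_dslope Filter.univ_mem).2 (by fun_prop))

theorem dq_eq (η : ℝ) {s : ℂ} (h : s ≠ 0) : dq η s = (exp (η * s) - 1) / s := by
  rw [dq, dslope_of_ne _ h, slope_def_field]
  simp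

theorem dq_le {η : ℝ} (h0 : 0 < η) (h1 : η ≤ 1) {s : ℂ} (h : s ≠ 0) (hs : s.re ≤ 2) :
    ‖dq η s‖ ≤ Real.exp 2 * η := by
  have := exp_sub_le (η * s) (B := 2) (by norm_num) (by
    rw [re_ofReal_mul]
    nlinarith)
  rw [dq_eq η h, norm_div, div_le_iff₀ (norm_pos_iff.2 h)]
  rwa [norm_mul, norm_real, Real.norm_of_nonneg h0.le, ← mul_assoc] at this

theorem lin_le (x y : ℝ) (hy : |y| ≤ 3 / 2) : ‖(I * (x + y * I) - 1 / 2 : ℂ)‖ ≤ 2 * (1 + |x|) := by
  have e : (I * (x + y * I) - 1 / 2 : ℂ) = ((-y - 1 / 2 : ℝ) : ℂ) + I * x := by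
    rw [mul_add, mul_left_comm, I_mul_I]
    push_cast
    ring
  have h1 := norm_add_le ((-y - 1 / 2 : ℝ) : ℂ) (I * x)
  rw [norm_real, norm_mul, norm_I, one_mul, norm_real, Real.norm_eq_abs, Real.norm_eq_abs] at h1
  have h2 : |-y - 1 / 2| ≤ 2 := abs_le.2 ⟨by linarith [(abs_le.1 hy).2], by
    linarith [(abs_le.1 hy).1]⟩
  rw [e]
  linarith [abs_nonneg x]

theorem tail {C η T u X X' : ℝ} (h : ZD C) (hη : η ≤ 1) (hT : 1 ≤ T) (hX : 0 ≤ X) (hXX : X ≤ X') :
    ‖∑ v ∈ ZS X', cz v * (exp (η * (1 / 2 + I * v)) - 1) * Ew T u v -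
      ∑ v ∈ ZS X, cz v * (exp (η * (1 / 2 + I * v)) - 1) * Ew T u v‖ ≤
      3 * 13824 * C ^ 2 * (T ^ 6 * Real.exp (-(X ^ 2 / (4 * T ^ 2)))) := by
  have hs : ZS X ⊆ ZS X' := fun v hv => mem_ZS.2 ⟨(mem_ZS.1 hv).1, (mem_ZS.1 hv).2.trans hXX⟩
  have hT0 : 0 < T := by linarith
  have hC := h.pos
  rw [← Finset.sum_sdiff hs, add_sub_cancel_right]
  refine (norm_sum_le _ _).trans ((Finset.sum_le_sum (g := fun v => 3 *
    (C * (13824 * T ^ 6 * Real.exp (-(X ^ 2 / (4 * T ^ 2)))) * (1 / (1 + |v|) ^ 3)))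
    fun v hv => ?_).trans ?_)
  · have h1 : ‖exp (η * (1 / 2 + I * v)) - 1‖ ≤ 3 := by
      refine (norm_sub_le _ _).trans ?_
      rw [norm_exp, norm_one]
      have : Real.exp (η * (1 / 2 + I * v : ℂ)).re ≤ Real.exp (Real.log 2) := by
        refine Real.exp_le_exp.2 ?_
        simp
        linarith [Real.log_two_gt_d9]
      rw [Real.exp_log two_pos] at this
      linarith
    rw [mul_right_comm, norm_mul, mul_comm]
    refine mul_le_mul h1 (FORMB.term h hT hX (mem_ZS.1 (Finset.mem_sdiff.1 hv).1).1 ?_)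
      (norm_nonneg _) (by norm_num)
    by_contra e
    exact (Finset.mem_sdiff.1 hv).2
      (mem_ZS.2 ⟨(mem_ZS.1 (Finset.mem_sdiff.1 hv).1).1, (not_le.1 e).le⟩)
  · rw [← Finset.mul_sum, ← Finset.mul_sum]
    refine (mul_le_mul_of_nonneg_left (mul_le_mul_of_nonneg_left (h.sum _ fun v hv =>
      (mem_ZS.1 (Finset.mem_sdiff.1 hv).1).1) (by positivity)) (by norm_num)).trans (le_of_eq ?_)
    ring

theorem int_b : Integrable fun x : ℝ => (1 + ‖x‖) ^ (-(3 / 2) : ℝ) :=
  integrable_one_add_norm (by simp; norm_num)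

end FORMA

open FORMA in
theorem forma : FORMA := by
  rintro lap ⟨L, hL, left⟩ ex C h
  have hC := h.pos
  set J := ∫ x : ℝ, (1 + ‖x‖) ^ (-(3 / 2) : ℝ) with hJ
  have J0 : 0 ≤ J := integral_nonneg fun x => by positivity
  refine ⟨1 + Real.exp 3 * (2 * Real.exp 2 * L * J) + 3 * 13824 * C ^ 2, by positivity,
    fun η T u X h0 h1 hT hu hX => ?_⟩
  have hT0 : 0 < T := by linarith
  have hlap : ∀ s : ℂ, 1 < s.re →
      Integrable (fun y : ℝ => ((Me (y + η) - Me y : ℝ) : ℂ) * exp (-s * y)) ∧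
        ∫ y : ℝ, ((Me (y + η) - Me y : ℝ) : ℂ) * exp (-s * y) =
          (exp (η * s) - 1) * ((s - 1) / (s * riemannZeta₁ s)) := fun s hs => by
    obtain ⟨a1, a2⟩ := lap s hs
    have e : ∀ y : ℝ, (Me (y + η) : ℂ) * exp (-s * y) =
        exp (η * s) * ((Me (y + η) : ℂ) * exp (-s * (y + η : ℝ))) := fun y => by
      rw [mul_left_comm, ← Complex.exp_add]
      congr 2
      push_cast
      ring
    have b1 : Integrable fun y : ℝ => (Me (y + η) : ℂ) * exp (-s * y) := by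
      simp_rw [e]
      exact (a1.comp_add_right η).const_mul _
    simp_rw [ofReal_sub, sub_mul]
    refine ⟨b1.sub a1, ?_⟩
    rw [integral_sub b1 a1, a2]
    simp_rw [e]
    rw [integral_const_mul, integral_add_right_eq_self
      (fun y : ℝ => (Me y : ℂ) * exp (-s * y)) η, a2, one_mul]
  obtain ⟨X', hX', key⟩ := ex C h (fun w => (I * w - 1 / 2) * dq η (1 / 2 + I * w))
    (2 * Real.exp 2) T u (fun y => Me (y + η) - Me y)
    (fun x => 2 * Real.exp 2 * L * η * (1 + ‖x‖) ^ (-(3 / 2) : ℝ))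
    (by have := dq_diff η; fun_prop) hT0
    (fun x y hx hy => by
      have a1 : 1 ≤ ‖(1 / 2 + I * (x + y * I) : ℂ)‖ :=
        le_trans (by simpa using hx) (abs_im_le_norm _)
      have a2 := dq_le h0 h1 (norm_pos_iff.1 (one_pos.trans_le a1)) (by
        simp
        linarith [(abs_le.1 hy).1])
      have a3 := mul_le_mul (lin_le x y hy) (a2.trans (mul_le_of_le_one_right (Real.exp_pos _).le h1))
        (norm_nonneg _) (by positivity)
      rw [norm_mul]
      refine a3.trans (le_trans (le_of_eq (by ring)) (le_mul_of_one_le_right (by positivity) ?_))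
      linarith [norm_nonneg (z1 (x + y * I))])
    (by
      have a1 := (hlap 2 (by norm_num)).1.re
      refine a1.congr (Filter.Eventually.of_forall fun y => ?_)
      have e : exp (-2 * (y : ℂ)) = ((Real.exp (-2 * y) : ℝ) : ℂ) := by push_cast; rfl
      simp only [e, ← ofReal_mul, RCLike.re_to_complex, ofReal_re])
    (fun x => by
      have e : (1 / 2 + I * (x - (3 / 2 : ℝ) * I) : ℂ) = 2 + I * x := by
        rw [mul_sub, mul_left_comm, I_mul_I]
        push_cast
        ring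
      have hs : 1 < (2 + I * x : ℂ).re := by simp
      have a0 : (2 + I * x : ℂ) ≠ 0 := fun e => by rw [e] at hs; norm_num at hs
      rw [(hlap _ hs).2,
        show I * (x - (3 / 2 : ℝ) * I) - 1 / 2 = 1 / 2 + I * (x - (3 / 2 : ℝ) * I) - 1 by ring,
        z1, e, dq_eq η a0, ← div_div]
      ring)
    (int_b.const_mul _)
    (fun x => by
      have a1 : 1 ≤ ‖(1 / 2 + I * (x + (3 / 2 : ℝ) * I) : ℂ)‖ :=
        le_trans (by simp; norm_num) (abs_re_le_norm _)
      have a2 := dq_le h0 h1 (norm_pos_iff.1 (one_pos.trans_le a1)) (by simp; norm_num)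
      have a3 := mul_le_mul (lin_le x (3 / 2) (by rw [abs_of_pos] <;> norm_num)) a2
        (norm_nonneg _) (by positivity)
      have a4 := left x
      have p1 : 0 < 1 + |x| := by positivity
      have p2 : 0 < √(1 + |x|) := Real.sqrt_pos.2 p1
      have a6 : 0 < ‖z1 (x + (3 / 2 : ℝ) * I)‖ :=
        (mul_pos_iff_of_pos_left hL).1 (lt_of_lt_of_le (by positivity) a4)
      have a7 : (1 + |x|) ^ (-(3 / 2) : ℝ) = ((1 + |x|) * √(1 + |x|))⁻¹ := by
        rw [Real.rpow_neg p1.le, show (3 / 2 : ℝ) = 1 + 1 / 2 by norm_num, Real.rpow_add p1,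
          Real.rpow_one, Real.sqrt_eq_rpow]
      refine (mul_le_of_le_one_right (norm_nonneg _)
        (Real.exp_le_one_iff.2 (neg_nonpos.2 (by positivity)))).trans ?_
      rw [norm_div, div_le_iff₀ a6, norm_mul, Real.norm_eq_abs, a7]
      refine a3.trans ?_
      rw [← div_eq_mul_inv, div_mul_eq_mul_div, le_div_iff₀ (by positivity)]
      have a8 := mul_le_mul_of_nonneg_left a4 (show 0 ≤ 2 * Real.exp 2 * η by positivity)
      linarith)
    η X h0
  have e1 : ∑ v ∈ ZS X', I * ((I * v - 1 / 2) * dq η (1 / 2 + I * v)) / deriv z1 v * Ew T u v =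
      ∑ v ∈ ZS X', cz v * (exp (η * (1 / 2 + I * v)) - 1) * Ew T u v := by
    refine Finset.sum_congr rfl fun v hv => ?_
    have a0 : (1 / 2 + I * v : ℂ) ≠ 0 := fun e => by
      have := congrArg Complex.re e
      norm_num at this
    rw [dq_eq η a0, cz, ← div_div]
    ring
  rw [e1, integral_const_mul, ← hJ] at key
  have h2 : Real.exp (-(3 / 2) * u + 9 / (8 * T ^ 2)) ≤ Real.exp 3 := by
    rw [Real.exp_le_exp]
    have : 9 / (8 * T ^ 2) ≤ 3 / 2 := by
      rw [div_le_iff₀ (by positivity)]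
      nlinarith
    linarith
  have h3 := mul_le_mul_of_nonneg_right h2
    (show 0 ≤ 2 * Real.exp 2 * L * η * J by positivity)
  have h5 := tail (u := u) h h1 hT hX hX'
  have h6 := norm_sub_le_norm_sub_add_norm_sub (IA η T u : ℂ)
    (∑ v ∈ ZS X', cz v * (exp (η * (1 / 2 + I * v)) - 1) * Ew T u v)
    (∑ v ∈ ZS X, cz v * (exp (η * (1 / 2 + I * v)) - 1) * Ew T u v)
  have p1 : 0 ≤ T ^ 6 * Real.exp (-(X ^ 2 / (4 * T ^ 2))) := by positivity
  have p2 : 0 ≤ Real.exp 3 * (2 * Real.exp 2 * L * J) := by positivity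
  have p3 : 0 ≤ 3 * 13824 * C ^ 2 := by positivity
  unfold IA at h6 ⊢
  nlinarith [mul_nonneg p2 p1, mul_nonneg p3 h0.le]

end Pool.Agent.MP_a550d9_nt.H28
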