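import Pool.Agent.MP_a550d9_nt.H28.Spec

/-! Explicit formula for the smoothed values of the Mertens function. -/

open Complex MeasureTheory

namespace Pool.Agent.MP_a550d9_nt.H28

namespace FORMB

theorem kt_eq {T : ℝ} (hT : 0 < T) (a u y : ℝ) : Real.exp (a * y) * Kt T (y - u) =
    T / √(2 * Real.pi) * Real.exp (a * u + a ^ 2 / (2 * T ^ 2)) *
      Real.exp (-(T ^ 2 / 2) * (y - (u + a / T ^ 2)) ^ 2) := by
  unfold Kt
  rw [mul_left_comm, mul_assoc, ← Real.exp_add, ← Real.exp_add]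
  congr 2
  field_simp
  ring

theorem kt_int {T : ℝ} (hT : 0 < T) (a u : ℝ) :
    Integrable fun y => Real.exp (a * y) * Kt T (y - u) := by
  simp_rw [kt_eq hT]
  exact ((integrable_exp_neg_mul_sq (b := T ^ 2 / 2) (by positivity)).comp_sub_right _).const_mul _

theorem kt_val {T : ℝ} (hT : 0 < T) (a u : ℝ) :
    ∫ y, Real.exp (a * y) * Kt T (y - u) = Real.exp (a * u + a ^ 2 / (2 * T ^ 2)) := by
  simp_rw [kt_eq hT]
  rw [integral_const_mul, integral_sub_right_eq_self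
    (fun y : ℝ => Real.exp (-(T ^ 2 / 2) * y ^ 2)), integral_gaussian]
  have h : √(Real.pi / (T ^ 2 / 2)) = √(2 * Real.pi) / T := by
    rw [show Real.pi / (T ^ 2 / 2) = 2 * Real.pi / T ^ 2 by field_simp,
      Real.sqrt_div (by positivity), Real.sqrt_sq hT.le]
  have h2 : 0 < √(2 * Real.pi) := Real.sqrt_pos.2 (by positivity)
  rw [h]
  field_simp

theorem kt_nonneg {T : ℝ} (hT : 0 < T) (v : ℝ) : 0 ≤ Kt T v := by
  unfold Kt
  positivity

theorem kt_meas (T u : ℝ) : Measurable fun y => Kt T (y - u) := by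
  unfold Kt
  fun_prop

theorem six {T : ℝ} (hT : 1 ≤ T) (v : ℝ) :
    (1 + |v|) ^ 6 ≤ 13824 * T ^ 6 * Real.exp (v ^ 2 / (4 * T ^ 2)) := by
  have hT0 : 0 < T := by linarith
  have h1 : 1 + v ^ 2 / (12 * T ^ 2) ≤ Real.exp (v ^ 2 / (12 * T ^ 2)) := by
    linarith [Real.add_one_le_exp (v ^ 2 / (12 * T ^ 2))]
  have h2 : (1 + |v|) ^ 2 ≤ 24 * T ^ 2 * Real.exp (v ^ 2 / (12 * T ^ 2)) := by
    refine le_trans ?_ (mul_le_mul_of_nonneg_left h1 (by positivity))
    rw [show 24 * T ^ 2 * (1 + v ^ 2 / (12 * T ^ 2)) = 24 * T ^ 2 + 2 * v ^ 2 by field_simp; ring,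
      ← sq_abs v]
    nlinarith [sq_nonneg (|v| - 1)]
  have h3 := pow_le_pow_left₀ (by positivity) h2 3
  rw [← pow_mul, mul_pow, ← Real.exp_nat_mul,
    show ((3 : ℕ) : ℝ) * (v ^ 2 / (12 * T ^ 2)) = v ^ 2 / (4 * T ^ 2) by push_cast; ring] at h3
  refine h3.trans (le_of_eq ?_)
  ring

theorem term {C T u X v : ℝ} (h : ZD C) (hT : 1 ≤ T) (hX : 0 ≤ X) (hv : z1 v = 0)
    (hXv : X ≤ |v|) : ‖cz v * Ew T u v‖ ≤
      C * (13824 * T ^ 6 * Real.exp (-(X ^ 2 / (4 * T ^ 2)))) * (1 / (1 + |v|) ^ 3) := by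
  have hT0 : 0 < T := by linarith
  have hC := h.pos
  have h1 := h.res v hv
  have hd : 0 < ‖deriv z1 v‖ := by
    rcases (norm_nonneg (deriv z1 v)).eq_or_lt with e | e
    · rw [← e, mul_zero] at h1
      linarith
    · exact e
  have h2 : ‖deriv z1 v‖⁻¹ ≤ C * (1 + |v|) ^ 2 := by
    rw [inv_le_iff_one_le_mul₀ hd]
    exact h1
  have h3 : X ^ 2 ≤ v ^ 2 := by
    rw [← sq_abs v]
    exact pow_le_pow_left₀ hX hXv 2
  have h4 : Real.exp (-(v ^ 2 / (2 * T ^ 2))) * Real.exp (v ^ 2 / (4 * T ^ 2)) ≤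
      Real.exp (-(X ^ 2 / (4 * T ^ 2))) := by
    rw [← Real.exp_add, Real.exp_le_exp,
      show -(v ^ 2 / (2 * T ^ 2)) + v ^ 2 / (4 * T ^ 2) = -(v ^ 2 / (4 * T ^ 2)) by ring,
      neg_le_neg_iff]
    exact div_le_div_of_nonneg_right h3 (by positivity)
  have h5 : (1 + |v|) ^ 5 ≤ (1 + |v|) ^ 6 :=
    pow_le_pow_right₀ (by linarith [abs_nonneg v]) (by norm_num)
  have h6 := mul_le_mul_of_nonneg_left (h5.trans (six hT v))
    (Real.exp_pos (-(v ^ 2 / (2 * T ^ 2)))).le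
  have h7 := mul_le_mul_of_nonneg_left h4 (show 0 ≤ 13824 * T ^ 6 by positivity)
  rw [norm_mul, norm_cz, norm_Ew_real, mul_one_div, le_div_iff₀ (by positivity)]
  calc _ ≤ C * (1 + |v|) ^ 2 * Real.exp (-(v ^ 2 / (2 * T ^ 2))) * (1 + |v|) ^ 3 := by gcongr
    _ = C * (Real.exp (-(v ^ 2 / (2 * T ^ 2))) * (1 + |v|) ^ 5) := by ring
    _ ≤ _ := by
      refine mul_le_mul_of_nonneg_left (h6.trans (le_trans (le_of_eq ?_) h7)) hC.le
      ring

theorem tail {C T u X X' : ℝ} (h : ZD C) (hT : 1 ≤ T) (hX : 0 ≤ X) (hXX : X ≤ X') :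
    ‖∑ v ∈ ZS X', cz v * Ew T u v - ∑ v ∈ ZS X, cz v * Ew T u v‖ ≤
      13824 * C ^ 2 * (T ^ 6 * Real.exp (-(X ^ 2 / (4 * T ^ 2)))) := by
  have hs : ZS X ⊆ ZS X' := fun v hv => mem_ZS.2 ⟨(mem_ZS.1 hv).1, (mem_ZS.1 hv).2.trans hXX⟩
  have hT0 : 0 < T := by linarith
  have hC := h.pos
  rw [← Finset.sum_sdiff hs, add_sub_cancel_right]
  refine (norm_sum_le _ _).trans ((Finset.sum_le_sum fun v hv => term h hT hX
    (mem_ZS.1 (Finset.mem_sdiff.1 hv).1).1 ?_).trans ?_)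
  · by_contra e
    exact (Finset.mem_sdiff.1 hv).2
      (mem_ZS.2 ⟨(mem_ZS.1 (Finset.mem_sdiff.1 hv).1).1, (not_le.1 e).le⟩)
  · rw [← Finset.mul_sum]
    refine (mul_le_mul_of_nonneg_left (h.sum _ fun v hv =>
      (mem_ZS.1 (Finset.mem_sdiff.1 hv).1).1) (by positivity)).trans (le_of_eq ?_)
    ring

/-- The numerator `((s - 1) + 2 ζ₁ s) / s`. -/
noncomputable def NN (w : ℂ) : ℂ := -I * dslope (fun w => I * w - 1 / 2 + 2 * z1 w) (I / 2) w

theorem NN_diff : Differentiable ℂ NN := by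
  have h : Differentiable ℂ (fun w => I * w - 1 / 2 + 2 * z1 w) := by
    have := z1_diff
    fun_prop
  have h2 : Differentiable ℂ (dslope (fun w => I * w - 1 / 2 + 2 * z1 w) (I / 2)) :=
    differentiableOn_univ.1 ((differentiableOn_dslope Filter.univ_mem).2 h.differentiableOn)
  exact h2.const_mul _

theorem NN_eq {w : ℂ} (h : 1 / 2 + I * w ≠ 0) :
    NN w = (I * w - 1 / 2 + 2 * z1 w) / (1 / 2 + I * w) := by
  have e0 : (1 / 2 + I * (I / 2) : ℂ) = 0 := by
    rw [← mul_div_assoc, I_mul_I]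
    ring
  have hw : w ≠ I / 2 := fun e => h (by rw [e, e0])
  have h0 : I * (I / 2) - 1 / 2 + 2 * z1 (I / 2) = 0 := by
    rw [z1_eq (by rw [e0]; norm_num), e0, riemannZeta_zero, ← mul_div_assoc, I_mul_I]
    ring
  have e1 : w - I / 2 = -I * (1 / 2 + I * w) := by
    rw [mul_add, ← mul_assoc, neg_mul I I, I_mul_I]
    ring
  rw [NN, dslope_of_ne _ hw, slope_def_field, h0, sub_zero, e1]
  field_simp

theorem NN_le (x y : ℝ) (hx : 1 ≤ ‖(1 / 2 + I * (x + y * I) : ℂ)‖) (hy : |y| ≤ 3 / 2) :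
    ‖NN (x + y * I)‖ ≤ 2 + |x| + 2 * ‖z1 (x + y * I)‖ := by
  have h0 : (1 / 2 + I * (x + y * I) : ℂ) ≠ 0 := norm_pos_iff.1 (by linarith)
  rw [NN_eq h0, norm_div]
  refine (div_le_self (norm_nonneg _) hx).trans ((norm_add_le _ _).trans ?_)
  have e : (I * (x + y * I) - 1 / 2 : ℂ) = ((-y - 1 / 2 : ℝ) : ℂ) + I * x := by
    rw [mul_add, mul_left_comm, I_mul_I]
    push_cast
    ring
  have h1 := norm_add_le ((-y - 1 / 2 : ℝ) : ℂ) (I * x)
  rw [norm_real, norm_mul, norm_I, one_mul, norm_real, Real.norm_eq_abs, Real.norm_eq_abs] at h1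
  have h2 : |-y - 1 / 2| ≤ 2 := abs_le.2 ⟨by linarith [(abs_le.1 hy).2], by
    linarith [(abs_le.1 hy).1]⟩
  rw [e, norm_mul, Complex.norm_ofNat]
  linarith

/-- The correction term. -/
noncomputable def ind (y : ℝ) : ℝ := (Set.Ioi (0 : ℝ)).indicator (fun _ => (2 : ℝ)) y

theorem ind_mul (s : ℂ) : (fun y : ℝ => (ind y : ℂ) * exp (-s * y)) =
    (Set.Ioi (0 : ℝ)).indicator fun y : ℝ => 2 * exp (-s * y) := by
  funext y
  unfold ind
  by_cases h : y ∈ Set.Ioi (0 : ℝ)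
  · simp [Set.indicator_of_mem h]
  · simp [Set.indicator_of_notMem h]

theorem ind_lap {s : ℂ} (hs : 0 < s.re) : Integrable (fun y : ℝ => (ind y : ℂ) * exp (-s * y)) ∧
    ∫ y : ℝ, (ind y : ℂ) * exp (-s * y) = 2 / s := by
  have h : (-s).re < 0 := by simpa using hs
  rw [ind_mul]
  refine ⟨(integrable_indicator_iff measurableSet_Ioi).2
    ((integrableOn_exp_mul_complex_Ioi h 0).const_mul 2), ?_⟩
  rw [integral_indicator measurableSet_Ioi, integral_const_mul, integral_exp_mul_complex_Ioi h]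
  simp [div_eq_mul_inv]

theorem ind_bd (y : ℝ) : 0 ≤ ind y ∧ ind y ≤ 2 := by
  unfold ind
  by_cases h : y ∈ Set.Ioi (0 : ℝ)
  · simp [Set.indicator_of_mem h]
  · simp [Set.indicator_of_notMem h]

theorem ind_meas : Measurable ind := measurable_const.indicator measurableSet_Ioi

theorem split {T : ℝ} (hT : 1 ≤ T) (u : ℝ) :
    |(∫ y, (Me y + ind y) * Real.exp (-y / 2) * Kt T (y - u)) - IB T u| ≤
      2 * Real.exp 1 * Real.exp (-u / 2) := by
  have hT0 : 0 < T := by linarith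
  have hk := kt_meas T u
  have hm := measurable_Me
  have hi := ind_meas
  have h1 : Integrable fun y => Me y * Real.exp (-y / 2) * Kt T (y - u) := by
    refine (kt_int hT0 (1 / 2) u).mono' (Measurable.aestronglyMeasurable (by fun_prop))
      (Filter.Eventually.of_forall fun y => ?_)
    rw [Real.norm_eq_abs, abs_mul, abs_mul, abs_of_nonneg (kt_nonneg hT0 _),
      abs_of_pos (Real.exp_pos _)]
    refine mul_le_mul_of_nonneg_right ?_ (kt_nonneg hT0 _)
    refine (mul_le_mul_of_nonneg_right (abs_Me_le y) (Real.exp_pos _).le).trans (le_of_eq ?_)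
    rw [← Real.exp_add]
    congr 1
    ring
  have hb : ∀ y, ‖ind y * Real.exp (-y / 2) * Kt T (y - u)‖ ≤
      2 * (Real.exp (-(1 / 2) * y) * Kt T (y - u)) := fun y => by
    have := kt_nonneg hT0 (y - u)
    have := (ind_bd y).1
    rw [Real.norm_eq_abs, abs_of_nonneg (by positivity), mul_assoc,
      show -y / 2 = -(1 / 2) * y by ring]
    exact mul_le_mul_of_nonneg_right (ind_bd y).2 (by positivity)
  have hg := (kt_int hT0 (-(1 / 2)) u).const_mul 2
  have h2 : Integrable fun y => ind y * Real.exp (-y / 2) * Kt T (y - u) :=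
    hg.mono' (Measurable.aestronglyMeasurable (by fun_prop)) (Filter.Eventually.of_forall hb)
  simp_rw [add_mul]
  rw [integral_add h1 h2, IB, add_sub_cancel_left, ← Real.norm_eq_abs]
  refine (norm_integral_le_of_norm_le hg (Filter.Eventually.of_forall hb)).trans ?_
  rw [integral_const_mul, kt_val hT0, mul_assoc, ← Real.exp_add]
  refine mul_le_mul_of_nonneg_left (Real.exp_le_exp.2 ?_) (by norm_num)
  have : (-(1 / 2) : ℝ) ^ 2 / (2 * T ^ 2) ≤ 1 := by
    rw [div_le_one (by positivity)]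
    nlinarith
  linarith

end FORMB

open FORMB in
theorem formb : FORMB := by
  rintro lap ⟨L, hL, left⟩ ex C h
  have hC := h.pos
  refine ⟨1 + 2 * Real.exp 1 + Real.exp 2 * ((2 * L + 2) * 3) + 13824 * C ^ 2, by positivity,
    fun T u X hT hu hX => ?_⟩
  have hT0 : 0 < T := by linarith
  have hb : ∀ x : ℝ, -(x ^ 2 / (2 * T ^ 2)) = -(1 / (2 * T ^ 2)) * x ^ 2 := fun x => by ring
  have hlap : ∀ s : ℂ, 1 < s.re →
      Integrable (fun y : ℝ => ((Me y + ind y : ℝ) : ℂ) * exp (-s * y)) ∧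
        ∫ y : ℝ, ((Me y + ind y : ℝ) : ℂ) * exp (-s * y) =
          (s - 1) / (s * riemannZeta₁ s) + 2 / s := fun s hs => by
    obtain ⟨a1, a2⟩ := lap s hs
    obtain ⟨b1, b2⟩ := ind_lap (s := s) (by linarith)
    simp_rw [ofReal_add, add_mul]
    exact ⟨a1.add b1, by rw [integral_add a1 b1, a2, b2]⟩
  obtain ⟨X', hX', key⟩ := ex C h NN 2 T u (fun y => Me y + ind y)
    (fun x => (2 * L + 2) * Real.exp (-(1 / (2 * T ^ 2)) * x ^ 2)) NN_diff hT0
    (fun x y hx hy => by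
      have h1 : 1 ≤ ‖(1 / 2 + I * (x + y * I) : ℂ)‖ :=
        le_trans (by simpa using hx) (abs_im_le_norm _)
      have := NN_le x y h1 hy
      nlinarith [norm_nonneg (z1 (x + y * I)), abs_nonneg x])
    (by
      have h1 := (hlap 2 (by norm_num)).1.re
      refine h1.congr (Filter.Eventually.of_forall fun y => ?_)
      have e : exp (-2 * (y : ℂ)) = ((Real.exp (-2 * y) : ℝ) : ℂ) := by push_cast; rfl
      simp only [e, ← ofReal_mul, RCLike.re_to_complex, ofReal_re])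
    (fun x => by
      have e : (1 / 2 + I * (x - (3 / 2 : ℝ) * I) : ℂ) = 2 + I * x := by
        rw [mul_sub, mul_left_comm, I_mul_I]
        push_cast
        ring
      have hs : 1 < (2 + I * x : ℂ).re := by simp
      have h0 : (2 + I * x : ℂ) ≠ 0 := fun e => by rw [e] at hs; norm_num at hs
      have h1 : (2 + I * x : ℂ) ≠ 1 := fun e => by rw [e] at hs; norm_num at hs
      have hz : riemannZeta₁ (2 + I * x) ≠ 0 := fun e =>
        riemannZeta_ne_zero_of_one_lt_re hs (by rw [riemannZeta_eq_inv_sub_mul h1, e, mul_zero])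
      rw [(hlap _ hs).2, NN_eq (by rw [e]; exact h0),
        show I * (x - (3 / 2 : ℝ) * I) - 1 / 2 = 1 / 2 + I * (x - (3 / 2 : ℝ) * I) - 1 by ring,
        z1, e]
      field_simp)
    ((integrable_exp_neg_mul_sq (by positivity)).const_mul _)
    (fun x => by
      rw [hb]
      refine mul_le_mul_of_nonneg_right ?_ (Real.exp_pos _).le
      have h1 : 1 ≤ ‖(1 / 2 + I * (x + (3 / 2 : ℝ) * I) : ℂ)‖ :=
        le_trans (by simp; norm_num) (abs_re_le_norm _)
      have h2 := NN_le x (3 / 2) h1 (by rw [abs_of_pos] <;> norm_num)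
      have h3 := left x
      have h4 : 1 ≤ √(1 + |x|) := Real.one_le_sqrt.2 (by linarith [abs_nonneg x])
      have h5 : 1 + |x| ≤ (1 + |x|) ^ 2 * √(1 + |x|) := by
        nlinarith [abs_nonneg x, mul_le_mul_of_nonneg_left h4 (sq_nonneg (1 + |x|))]
      have h6 : 0 < ‖z1 (x + (3 / 2 : ℝ) * I)‖ := by
        refine (mul_pos_iff_of_pos_left hL).1 (by linarith [abs_nonneg x])
      rw [norm_div, div_le_iff₀ h6]
      nlinarith [abs_nonneg x])
    (T * Real.exp (-u / 2)) X (by positivity)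
  have e1 : ∑ v ∈ ZS X', I * NN v / deriv z1 v * Ew T u v = ∑ v ∈ ZS X', cz v * Ew T u v := by
    refine Finset.sum_congr rfl fun v hv => ?_
    have h0 : (1 / 2 + I * v : ℂ) ≠ 0 := fun e => by
      have := congrArg Complex.re e
      norm_num at this
    rw [NN_eq h0, (mem_ZS.1 hv).1, cz, mul_zero, add_zero, ← mul_div_assoc, div_div]
  rw [e1, integral_const_mul, integral_gaussian] at key
  have h1 : √(Real.pi / (1 / (2 * T ^ 2))) ≤ 3 * T := by
    rw [Real.sqrt_le_left (by positivity), div_div_eq_mul_div, div_one]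
    nlinarith [Real.pi_lt_d2, sq_nonneg T]
  have h2 : Real.exp (-(3 / 2) * u + 9 / (8 * T ^ 2)) ≤ Real.exp 2 * Real.exp (-u / 2) := by
    rw [← Real.exp_add, Real.exp_le_exp]
    have : 9 / (8 * T ^ 2) ≤ 2 := by
      rw [div_le_iff₀ (by positivity)]
      nlinarith
    linarith
  have h3 := mul_le_mul h2 (mul_le_mul_of_nonneg_left h1 (show 0 ≤ 2 * L + 2 by positivity))
    (by positivity) (by positivity)
  have h4 := split hT u
  rw [← Real.norm_eq_abs, ← norm_real, ofReal_sub, norm_sub_rev] at h4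
  have h5 := tail (u := u) h hT hX hX'
  have h6 := (norm_sub_le_norm_sub_add_norm_sub _ _ _).trans (add_le_add
    ((norm_sub_le_norm_sub_add_norm_sub _ _ _).trans (add_le_add h4 key)) h5)
  refine h6.trans ?_
  have p1 : 0 < Real.exp (-u / 2) := Real.exp_pos _
  have p2 : 0 < T ^ 6 * Real.exp (-(X ^ 2 / (4 * T ^ 2))) := by positivity
  have p3 : Real.exp (-u / 2) ≤ T * Real.exp (-u / 2) := le_mul_of_one_le_left p1.le hT
  have p4 := mul_le_mul_of_nonneg_left p3 (show 0 ≤ 2 * Real.exp 1 by positivity)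
  have p5 : 0 ≤ (1 + 2 * Real.exp 1 + Real.exp 2 * ((2 * L + 2) * 3)) *
      (T ^ 6 * Real.exp (-(X ^ 2 / (4 * T ^ 2)))) := by positivity
  have p6 : 0 ≤ 13824 * C ^ 2 * (T * Real.exp (-u / 2)) := by positivity
  nlinarith

end Pool.Agent.MP_a550d9_nt.H28
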