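import Pool.Agent.MP_a550d9_nt.H28.Spec

/-! Large increments of the Mertens function over short intervals: the final assembly. -/

open Complex MeasureTheory Filter

namespace Pool.Agent.MP_a550d9_nt.H28

namespace FinA

theorem ev_log (A : ℝ) : ∀ᶠ N : ℕ in atTop, A ≤ Real.log N :=
  (Real.tendsto_log_atTop.comp tendsto_natCast_atTop_atTop).eventually_ge_atTop A

theorem ev_ll (A : ℝ) : ∀ᶠ N : ℕ in atTop, A ≤ Real.log (Real.log N) :=
  (Real.tendsto_log_atTop.comp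
    (Real.tendsto_log_atTop.comp tendsto_natCast_atTop_atTop)).eventually_ge_atTop A

theorem one_le_log {t : ℝ} (h : 3 ≤ t) : 1 ≤ Real.log t := by
  rw [Real.le_log_iff_exp_le (by linarith)]
  linarith [Real.exp_one_lt_d9]

theorem log_le_half {x : ℝ} (h : 0 < x) : Real.log x ≤ x / 2 := by
  have h1 := Real.log_le_sub_one_of_pos (show 0 < x / 2 by linarith)
  rw [Real.log_div h.ne' two_ne_zero] at h1
  linarith [Real.log_two_lt_d9]

theorem e_le {e : ℝ} (he : e = 1 ∨ e = -1) (x : ℝ) : e * x ≤ |x| := by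
  rcases he with rfl | rfl
  · simpa using le_abs_self x
  · simpa using neg_le_abs x

/-- The allowed length of the interval. -/
noncomputable def Hl (N : ℕ) : ℝ :=
  N * Real.log (Real.log (Real.log N)) ^ 3 / Real.log (Real.log N)

theorem step : ∃ N₁ : ℕ, ∀ N₀ N : ℕ, 2 * N₀ + N₁ ≤ N → ∃ n h : ℕ, N = n + h ∧ N₀ ≤ n ∧ 0 < h ∧
    (h : ℝ) ≤ Hl n ∧ (N : ℝ) ≤ √(1 + Real.log N) * h := by
  obtain ⟨N₂, h2⟩ := eventually_atTop.1 ((ev_ll 3).and (ev_log (16 ^ 4)))
  refine ⟨2 * N₂ + 2, fun N₀ N hN => ?_⟩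
  obtain ⟨-, hl⟩ := h2 N (by omega)
  have hN0 : (0 : ℝ) < N := by exact_mod_cast (by omega : 0 < N)
  set l := Real.log N with hl'
  set r := √(√l) with hr
  have hr2 : r ^ 2 = √l := Real.sq_sqrt (Real.sqrt_nonneg _)
  have hr4 : (r ^ 2) ^ 2 = l := by rw [hr2, Real.sq_sqrt (by linarith)]
  have hr0 : 0 ≤ r := Real.sqrt_nonneg _
  have hr16 : 16 ≤ r := by
    by_contra hc
    have : r ^ 4 < 16 ^ 4 := pow_lt_pow_left₀ (not_le.1 hc) hr0 (by norm_num)
    nlinarith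
  have hll : Real.log l ≤ 4 * r := by
    rw [← hr4, ← pow_mul, Real.log_pow]
    have := Real.log_le_sub_one_of_pos (show 0 < r by linarith)
    push_cast
    linarith
  have hs0 : 0 < r ^ 2 := by positivity
  have hlN : r ^ 2 ≤ N := by
    have := log_le_half hN0
    nlinarith
  set h := ⌈(N : ℝ) / r ^ 2⌉₊ with hh
  have g1 : (N : ℝ) / r ^ 2 ≤ h := Nat.le_ceil _
  have g0 : 1 ≤ (N : ℝ) / r ^ 2 := (one_le_div hs0).2 hlN
  have g2 : (h : ℝ) ≤ 2 * (N / r ^ 2) := by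
    have := Nat.ceil_lt_add_one (show 0 ≤ (N : ℝ) / r ^ 2 by linarith)
    linarith
  have g3 : (h : ℝ) * r ^ 2 ≤ 2 * N := by
    have := mul_le_mul_of_nonneg_right g2 hs0.le
    rwa [mul_assoc, div_mul_cancel₀ _ hs0.ne'] at this
  have hh0 : (0 : ℝ) ≤ h := Nat.cast_nonneg _
  have g4 : 2 * h ≤ N := by
    have : (2 : ℝ) * h ≤ N := by nlinarith
    exact_mod_cast this
  have g5 : ((N - h : ℕ) : ℝ) = N - h := Nat.cast_sub (by omega)
  have g6 : (2 : ℝ) * h ≤ N := by exact_mod_cast g4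
  obtain ⟨k1, k2⟩ := h2 (N - h) (by omega)
  refine ⟨N - h, h, by omega, by omega, by exact_mod_cast (by linarith : (0 : ℝ) < h), ?_, ?_⟩
  · unfold Hl
    rw [le_div_iff₀ (by linarith)]
    have k3 : Real.log (Real.log ((N - h : ℕ) : ℝ)) ≤ 4 * r := by
      refine le_trans (Real.log_le_log (by linarith) (Real.log_le_log ?_ ?_)) hll
      · rw [g5]; linarith
      · rw [g5]; linarith
    have k4 : 1 ≤ Real.log (Real.log (Real.log ((N - h : ℕ) : ℝ))) ^ 3 :=
      one_le_pow₀ (one_le_log k1)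
    have k5 : (h : ℝ) * (4 * r) ≤ N / 2 := by nlinarith [mul_nonneg hh0 hr0]
    have k6 : (N : ℝ) / 2 ≤ ((N - h : ℕ) : ℝ) := by rw [g5]; linarith
    calc _ ≤ (h : ℝ) * (4 * r) := mul_le_mul_of_nonneg_left k3 hh0
      _ ≤ ((N - h : ℕ) : ℝ) * 1 := by linarith
      _ ≤ _ := mul_le_mul_of_nonneg_left k4 (Nat.cast_nonneg _)
  · rw [div_le_iff₀ hs0, hr2, mul_comm] at g1
    exact g1.trans (mul_le_mul_of_nonneg_right (Real.sqrt_le_sqrt (by linarith)) hh0)

theorem oneSide {e : ℝ} (he : e = 1 ∨ e = -1) {N₀ : ℕ}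
    (H : ∀ N h : ℕ, N₀ ≤ N → (h : ℝ) ≤ Hl N → e * (Mer (N + h) - Mer N) < √N / 2) : OneSide := by
  obtain ⟨N₁, h1⟩ := step
  refine ⟨e, (2 * N₀ + N₁ : ℕ) + 1, he, fun N => ?_⟩
  set C : ℝ := (2 * N₀ + N₁ : ℕ) + 1 with hC
  have C1 : 1 ≤ C := by rw [hC]; linarith [Nat.cast_nonneg (α := ℝ) (2 * N₀ + N₁)]
  induction N using Nat.strong_induction_on with
  | _ N ih =>
  have l0 := Real.log_natCast_nonneg N
  have hb : √(N : ℝ) ^ 2 = N := Real.sq_sqrt (Nat.cast_nonneg _)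
  have hb0 := Real.sqrt_nonneg (N : ℝ)
  have hl1 : 1 ≤ √(1 + Real.log N) := Real.one_le_sqrt.2 (by linarith)
  rw [Real.sqrt_mul (Nat.cast_nonneg _)]
  rcases lt_or_ge N (2 * N₀ + N₁) with hN | hN
  · have h2 : (N : ℝ) ≤ C := by
      have : (N : ℝ) ≤ (2 * N₀ + N₁ : ℕ) := by exact_mod_cast hN.le
      linarith
    have h3 : √(N : ℝ) ≤ C := Real.sqrt_le_iff.2 ⟨by linarith, by nlinarith⟩
    have h4 := (e_le he (Mer N)).trans (abs_Mer_le N)
    nlinarith [mul_le_mul h3 (le_mul_of_one_le_right hb0 hl1) hb0 (by linarith)]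
  obtain ⟨n, h, rfl, h2, h3, h4, h5⟩ := h1 N₀ N hN
  have h6 := H n h h2 h4
  have h7 := ih n (by omega)
  rw [Real.sqrt_mul (Nat.cast_nonneg _)] at h7
  have ha : √(n : ℝ) ^ 2 = n := Real.sq_sqrt (Nat.cast_nonneg _)
  have ha0 := Real.sqrt_nonneg (n : ℝ)
  have hab : √(n : ℝ) ≤ √((n + h : ℕ) : ℝ) := Real.sqrt_le_sqrt (by exact_mod_cast Nat.le_add_right n h)
  have hm : √(1 + Real.log n) ≤ √(1 + Real.log (n + h : ℕ)) := by
    refine Real.sqrt_le_sqrt (add_le_add_right ?_ _)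
    rcases Nat.eq_zero_or_pos n with rfl | hn
    · simpa using l0
    · exact Real.log_le_log (by exact_mod_cast hn) (by exact_mod_cast Nat.le_add_right n h)
  set a := √(n : ℝ)
  set b := √((n + h : ℕ) : ℝ)
  set m := √(1 + Real.log (n + h : ℕ))
  have hbp : 0 < b := Real.sqrt_pos.2 (by exact_mod_cast (by omega : 0 < n + h))
  have hd : (h : ℝ) = b ^ 2 - a ^ 2 := by rw [ha, hb]; push_cast; ring
  have k1 : b / 2 ≤ m * (b - a) := by
    refine le_of_mul_le_mul_right ?_ (show 0 < 2 * b by linarith)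
    rw [← hb, hd] at h5
    nlinarith [mul_nonneg (show 0 ≤ m by linarith) (sq_nonneg (b - a))]
  have k2 : C * (a * √(1 + Real.log n)) ≤ C * (a * m) :=
    mul_le_mul_of_nonneg_left (mul_le_mul_of_nonneg_left hm ha0) (by linarith)
  nlinarith [mul_le_mul_of_nonneg_right C1 (show 0 ≤ m * (b - a) by linarith)]

theorem window : ∃ N₂ : ℕ, ∀ (T D y : ℝ), 4096 ≤ T → 512 * D ≤ √(Real.log T) →
    N₂ ≤ ⌊Real.exp y⌋₊ → Real.log y ≤ D * T * Real.log T ^ 2 * √(Real.log T) →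
    ∃ h : ℕ, ⌊Real.exp (y + 8 / T)⌋₊ = ⌊Real.exp y⌋₊ + h ∧ (h : ℝ) ≤ Hl ⌊Real.exp y⌋₊ := by
  obtain ⟨N₂, h2⟩ := eventually_atTop.1 ((ev_ll 3).and ((ev_log 1).and (eventually_ge_atTop 1)))
  refine ⟨N₂, fun T D y hT hD hN hy => ?_⟩
  obtain ⟨k1, k2, k3⟩ := h2 _ hN
  have hη : 0 < 8 / T := by positivity
  have hη1 : 8 / T ≤ 1 := (div_le_one (by linarith)).2 (by linarith)
  obtain ⟨h, hh⟩ := Nat.exists_eq_add_of_le (Nat.floor_le_floor
    (Real.exp_le_exp.2 (show y ≤ y + 8 / T by linarith)))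
  refine ⟨h, hh, ?_⟩
  have a1 := Nat.floor_le (Real.exp_pos (y + 8 / T)).le
  have a2 := Nat.lt_floor_add_one (Real.exp y)
  have a3 := Nat.floor_le (Real.exp_pos y).le
  rw [hh, Real.exp_add] at a1
  set N := ⌊Real.exp y⌋₊
  have N1 : (1 : ℝ) ≤ N := by exact_mod_cast k3
  have a4 : Real.exp (8 / T) ≤ 1 + 2 * (8 / T) := by
    have := Real.abs_exp_sub_one_le (x := 8 / T) (by rwa [abs_of_pos hη])
    rw [abs_of_pos hη] at this
    linarith [le_abs_self (Real.exp (8 / T) - 1)]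
  have a5 : (h : ℝ) ≤ 4 * (8 / T) * N + 1 := by
    push_cast at a1
    nlinarith [Real.exp_pos y, mul_le_mul_of_nonneg_left a4 (Real.exp_pos y).le,
      mul_le_mul_of_nonneg_left (show Real.exp y ≤ 2 * N by linarith) hη.le]
  have b1 : Real.log N ≤ y := by
    rw [Real.log_le_iff_le_exp (by linarith)]; exact a3
  unfold Hl
  set t := Real.log (Real.log N) with ht
  have b2 : t ≤ D * T * Real.log T ^ 2 * √(Real.log T) :=
    (Real.log_le_log (by linarith) b1).trans hy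
  have b3 : 1 ≤ Real.log t ^ 3 := one_le_pow₀ (one_le_log k1)
  have b4 : 2 * t ≤ N := by
    have := Real.log_le_sub_one_of_pos (show 0 < Real.log N by linarith)
    linarith [log_le_half (show (0 : ℝ) < N by linarith)]
  have b5 : 64 * t ≤ T * Real.log t ^ 3 := by
    rcases le_total (64 * t) T with c | c
    · nlinarith
    have L1 := one_le_log (show 3 ≤ T by linarith)
    have c1 : Real.log T ≤ 2 * Real.log t := by
      rw [show 2 * Real.log t = Real.log (t ^ 2) by simp]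
      exact Real.log_le_log (by linarith) (by nlinarith)
    have c2 : (Real.log T / 2) ^ 3 ≤ Real.log t ^ 3 := pow_le_pow_left₀ (by linarith) (by linarith) 3
    have c3 : √(Real.log T) * √(Real.log T) = Real.log T := Real.mul_self_sqrt (by linarith)
    have c4 : 512 * D * √(Real.log T) ≤ Real.log T :=
      (mul_le_mul_of_nonneg_right hD (Real.sqrt_nonneg _)).trans c3.le
    have c5 := mul_le_mul_of_nonneg_left c4 (show 0 ≤ T * Real.log T ^ 2 by positivity)
    have c6 := mul_le_mul_of_nonneg_left c2 (show 0 ≤ T by linarith)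
    nlinarith
  rw [le_div_iff₀ (by linarith)]
  have d1 : 4 * (8 / T) * t ≤ Real.log t ^ 3 / 2 := by
    rw [show 4 * (8 / T) * t = 32 * t / T by ring, div_le_iff₀ (by linarith)]
    linarith
  nlinarith [mul_le_mul_of_nonneg_right a5 (show 0 ≤ t by linarith),
    mul_le_mul_of_nonneg_left d1 (show (0 : ℝ) ≤ N by linarith),
    mul_le_mul_of_nonneg_left b3 (show (0 : ℝ) ≤ N by linarith)]

theorem norm_cz_le {C : ℝ} (Z : ZD C) {v : ℝ} (hv : z1 v = 0) : ‖cz v‖ ≤ C * (1 + |v|) ^ 2 := by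
  have h := Z.res v hv
  have h0 : 0 < ‖deriv z1 v‖ := by
    rcases (norm_nonneg (deriv z1 v)).lt_or_eq with h1 | h1
    · exact h1
    · rw [← h1] at h
      norm_num at h
  rwa [norm_cz, inv_le_iff_one_le_mul₀ h0]

theorem sum_cz_le {C : ℝ} (Z : ZD C) {X : ℝ} (hX : 0 ≤ X) :
    ∑ v ∈ ZS X, ‖cz v‖ ≤ C * C * (1 + X) ^ 5 := by
  have hC := Z.pos
  calc ∑ v ∈ ZS X, ‖cz v‖ ≤ ∑ v ∈ ZS X, C * (1 + X) ^ 5 * (1 / (1 + |v|) ^ 3) := by
        refine Finset.sum_le_sum fun v hv => ?_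
        obtain ⟨h1, h2⟩ := mem_ZS.1 hv
        refine (norm_cz_le Z h1).trans ?_
        rw [mul_one_div, le_div_iff₀ (by positivity), mul_assoc, ← pow_add]
        gcongr
    _ ≤ C * (1 + X) ^ 5 * C := by
        rw [← Finset.mul_sum]
        exact mul_le_mul_of_nonneg_left (Z.sum _ fun v hv => (mem_ZS.1 hv).1) (by positivity)
    _ = _ := by ring

theorem shift {C : ℝ} (Z : ZD C) {X η δ : ℝ} (T u w : ℝ) (hX : 0 ≤ X) (hη : η ≤ 1) (hδ : 0 ≤ δ)
    (h : ∀ v ∈ ZS X, ‖exp (I * v * w) - 1‖ ≤ δ) :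
    ‖∑ v ∈ ZS X, cz v * (exp (η * (1 / 2 + I * v)) - 1) * Ew T (u + w) v -
      ∑ v ∈ ZS X, cz v * (exp (η * (1 / 2 + I * v)) - 1) * Ew T u v‖ ≤
        3 * δ * (C * C * (1 + X) ^ 5) := by
  rw [← Finset.sum_sub_distrib]
  refine (norm_sum_le _ _).trans (le_trans ?_
    (mul_le_mul_of_nonneg_left (sum_cz_le Z hX) (by positivity)))
  rw [Finset.mul_sum]
  refine Finset.sum_le_sum fun v hv => ?_
  have e : Ew T (u + w) v = Ew T u v * exp (I * v * w) := by
    rw [Ew, Ew, ← Complex.exp_add]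
    congr 1
    push_cast
    ring
  have h1 : ‖exp (η * (1 / 2 + I * v)) - 1‖ ≤ 3 := by
    refine (norm_sub_le _ _).trans ?_
    rw [norm_exp, norm_one]
    have : Real.exp (η * (1 / 2 + I * v : ℂ)).re ≤ Real.exp (Real.log 2) := by
      refine Real.exp_le_exp.2 ?_
      simp
      linarith [Real.log_two_gt_d9]
    rw [Real.exp_log two_pos] at this
    linarith
  have h2 : ‖Ew T u v‖ ≤ 1 := by
    rw [norm_Ew_real, Real.exp_le_one_iff, neg_nonpos]
    positivity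
  rw [e, ← mul_assoc, ← mul_sub_one, norm_mul, norm_mul, norm_mul]
  calc _ ≤ ‖cz v‖ * 3 * 1 * δ := by
        gcongr
        exact h v hv
    _ = _ := by ring

theorem e_sub {e : ℝ} (he : e = 1 ∨ e = -1) {a b x y z : ℝ} {A B : ℂ} (h1 : ‖(a : ℂ) - A‖ ≤ x)
    (h2 : ‖(b : ℂ) - B‖ ≤ y) (h3 : ‖B - A‖ ≤ z) : e * a ≤ e * b + (x + y + z) := by
  have h4 : ‖((a - b : ℝ) : ℂ)‖ ≤ x + y + z := by
    rw [show ((a - b : ℝ) : ℂ) = (a - A) - (b - B) - (B - A) by push_cast; ring]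
    exact (norm_sub_le _ _).trans (add_le_add ((norm_sub_le _ _).trans (add_le_add h1 h2)) h3)
  rw [norm_real, Real.norm_eq_abs] at h4
  have := e_le he (a - b)
  linarith

theorem log_u {C : ℝ} (hC : 0 < C) {n k m : ℕ} (hn : 4096 ≤ n) (hk1 : 1 ≤ k) (hk : k ≤ (n ^ 11) ^ m)
    (hm : (m : ℝ) ≤ C * (n * √(40 * Real.log n)) * (2 * Real.log n)) :
    Real.log (3 * (k * n)) ≤ (154 * C + 2) * n * Real.log n ^ 2 * √(Real.log n) := by
  have hT : (4096 : ℝ) ≤ n := by exact_mod_cast hn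
  have L1 := one_le_log (show (3 : ℝ) ≤ n by linarith)
  have k0 : (0 : ℝ) < k := by exact_mod_cast hk1
  have a1 : Real.log k ≤ m * (11 * Real.log n) := by
    have : (k : ℝ) ≤ ((n : ℝ) ^ 11) ^ m := by exact_mod_cast hk
    have := Real.log_le_log k0 this
    rwa [Real.log_pow, Real.log_pow, Nat.cast_ofNat] at this
  have a2 : Real.log 3 ≤ Real.log n := Real.log_le_log (by norm_num) (by linarith)
  have s1 : 1 ≤ √(Real.log n) := Real.one_le_sqrt.2 L1
  have a3 : √(40 * Real.log n) ≤ 7 * √(Real.log n) := by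
    rw [Real.sqrt_mul (by norm_num)]
    exact mul_le_mul_of_nonneg_right (Real.sqrt_le_iff.2 ⟨by norm_num, by norm_num⟩) (by linarith)
  rw [Real.log_mul (by norm_num) (by positivity), Real.log_mul k0.ne' (by linarith)]
  set L := Real.log n
  set s := √L
  have a4 : (m : ℝ) ≤ C * (n * (7 * s)) * (2 * L) := hm.trans (by gcongr)
  have a5 := mul_le_mul_of_nonneg_right a4 (show 0 ≤ 11 * L by linarith)
  have a6 : L ≤ n * L ^ 2 * s := by
    calc L = 1 * (L * 1) * 1 := by ring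
      _ ≤ n * (L * L) * s := by gcongr; linarith
      _ = _ := by ring
  nlinarith

end FinA

open FinA

theorem finA (hz : OneSide → ∃ C C' : ℝ, ZD C ∧ 0 < C' ∧ FA C') (gau : GAU) (base : BASE)
    (dir : DIR) {e : ℝ} (he : e = 1 ∨ e = -1) (N₀ : ℕ) :
    ∃ N h : ℕ, N₀ ≤ N ∧ (h : ℝ) ≤ Hl N ∧ √N / 2 ≤ e * (Mer (N + h) - Mer N) := by
  by_contra hc
  have H : ∀ N h : ℕ, N₀ ≤ N → (h : ℝ) ≤ Hl N → e * (Mer (N + h) - Mer N) < √N / 2 :=
    fun N h h1 h2 => not_le.1 fun h3 => hc ⟨N, h, h1, h2, h3⟩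
  obtain ⟨C, C', Z, hC', F⟩ := hz (oneSide he H)
  have hC := Z.pos
  obtain ⟨T₀, hb⟩ := base
  obtain ⟨N₂, hw⟩ := window
  obtain ⟨n, n1, n2, n3, n4, n5⟩ := ((eventually_ge_atTop 4096).and
    ((tendsto_natCast_atTop_atTop.eventually_ge_atTop T₀).and
    ((ev_log ((512 * (154 * C + 2)) ^ 2)).and ((eventually_ge_atTop (2 * (N₀ + N₂) + 3)).and
    (tendsto_natCast_atTop_atTop.eventually_ge_atTop
      (7 * (32 + 18 * C' + 672 * (C * C)))))))).exists
  have hT : (4096 : ℝ) ≤ n := by exact_mod_cast n1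
  have T0 : (0 : ℝ) < n := by linarith
  have L1 := one_le_log (show (3 : ℝ) ≤ n by linarith)
  have L2 := log_le_half T0
  set X : ℝ := n * √(40 * Real.log n) with hX
  have s1 : 1 ≤ √(40 * Real.log n) := Real.one_le_sqrt.2 (by linarith)
  have s2 : √(40 * Real.log n) ≤ n := Real.sqrt_le_iff.2 ⟨T0.le, by nlinarith⟩
  have X1 : (n : ℝ) ≤ X := le_mul_of_one_le_right T0.le s1
  have X2 : X ≤ (n : ℝ) ^ 2 := by rw [sq]; exact mul_le_mul_of_nonneg_left s2 T0.le
  have X3 : Real.log X ≤ 2 * Real.log n := by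
    rw [show 2 * Real.log n = Real.log ((n : ℝ) ^ 2) by simp]
    exact Real.log_le_log (by linarith) X2
  have X4 : (n : ℝ) ^ 6 * Real.exp (-(X ^ 2 / (4 * (n : ℝ) ^ 2))) ≤ 1 / n := by
    have : X ^ 2 / (4 * (n : ℝ) ^ 2) = (10 : ℕ) * Real.log n := by
      rw [hX, mul_pow, Real.sq_sqrt (by linarith)]
      field_simp
      norm_num
    rw [this, Real.exp_neg, Real.exp_nat_mul, Real.exp_log T0, ← div_eq_mul_inv,
      div_le_div_iff₀ (by positivity) T0, one_mul, ← pow_succ]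
    exact pow_le_pow_right₀ (by linarith) (by norm_num)
  obtain ⟨k, k1, k2, k3⟩ := dir (ZS X) (n ^ 11) n (by positivity)
  have hη : (0 : ℝ) < 8 / n := by positivity
  have hη1 : (8 : ℝ) / n ≤ 1 := (div_le_one T0).2 (by linarith)
  obtain ⟨u, u1, u2, u3⟩ : ∃ u : ℝ, -1 ≤ u ∧ u ≤ 1 ∧ 13 / 20 ≤ e * IA (8 / n) n u := by
    have g : (4 : ℝ) / n ≤ 1 := (div_le_one T0).2 (by linarith)
    have g0 : (0 : ℝ) < 4 / n := by positivity
    rcases he with rfl | rfl
    · exact ⟨-4 / n, by rw [neg_div]; linarith, by rw [neg_div]; linarith, by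
        simpa using (hb n n2).1⟩
    · exact ⟨Real.log 2 - 4 / n, by linarith [Real.log_two_gt_d9], by
        linarith [Real.log_two_lt_d9], by linarith [(hb n n2).2]⟩
  have k0 : (1 : ℝ) ≤ k := by exact_mod_cast k1
  have w1 : (n : ℝ) ≤ k * n := le_mul_of_one_le_left T0.le k0
  have F1 := F (8 / n) n u X hη hη1 (by linarith) u1 (by linarith)
  have F2 := F (8 / n) n (u + k * n) X hη hη1 (by linarith) (by linarith) (by linarith)
  have F3 := shift Z n u (k * n) (by linarith) hη1 (by positivity) k3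
  have F4 := e_sub he F1 F2 (by exact_mod_cast F3)
  have G := gau (fun y => e * (Me (y + 8 / n) - Me y)) n (u + k * n) (1 / 2) 4
    ((measurable_Me.comp (measurable_add_const _)).sub measurable_Me |>.const_mul e)
    (by linarith) (by linarith) (by norm_num) (fun y => by
      have a1 := abs_Me_le (y + 8 / n)
      have a2 := abs_Me_le y
      have a3 : Real.exp (8 / n) ≤ 3 := (Real.exp_le_exp.2 hη1).trans
        (by linarith [Real.exp_one_lt_d9])
      have a4 := abs_sub (Me (y + 8 / n)) (Me y)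
      rw [Real.exp_add] at a1
      have a5 : |e| = 1 := by rcases he with rfl | rfl <;> simp
      rw [abs_mul, a5, one_mul]
      nlinarith [Real.exp_pos y]) (fun y y1 y2 => by
      have b1 : N₀ + N₂ ≤ ⌊Real.exp y⌋₊ := by
        refine Nat.le_floor ?_
        have : ((2 * (N₀ + N₂) + 3 : ℕ) : ℝ) ≤ n := by exact_mod_cast n4
        have := Real.add_one_le_exp y
        push_cast at *
        linarith
      have b2 : Real.log y ≤ (154 * C + 2) * n * Real.log n ^ 2 * √(Real.log n) := by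
        refine (Real.log_le_log (by linarith) (by linarith)).trans (log_u hC n1 k1 k2 ?_)
        exact (Z.card X (by linarith)).trans (mul_le_mul_of_nonneg_left X3 (by positivity))
      obtain ⟨h, h1, h2⟩ := hw n _ y hT (Real.le_sqrt_of_sq_le n3) (by omega) b2
      have b3 := H _ h (by omega) h2
      have b4 : √(⌊Real.exp y⌋₊ : ℝ) ≤ Real.exp (y / 2) := by
        rw [Real.exp_half]
        exact Real.sqrt_le_sqrt (Nat.floor_le (Real.exp_pos y).le)
      simp only [Me, h1]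
      linarith)
  have G2 : e * IA (8 / n) n (u + k * n) = ∫ y, e * (Me (y + 8 / n) - Me y) * Real.exp (-y / 2) *
      Kt n (y - (u + k * n)) := by
    rw [IA, ← integral_const_mul]
    simp only [mul_assoc]
  have G3 : Real.exp (-(u + k * n) / 2) ≤ 4 / n := by
    rw [neg_div, Real.exp_neg, inv_eq_one_div, div_le_div_iff₀ (Real.exp_pos _) T0]
    linarith [Real.add_one_le_exp ((u + k * n) / 2)]
  have G4 : 3 * (7 / ((n ^ 11 : ℕ) : ℝ)) * (C * C * (1 + X) ^ 5) ≤ 672 * (C * C) / n := by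
    have : (1 + X) ^ 5 ≤ (2 * (n : ℝ) ^ 2) ^ 5 :=
      pow_le_pow_left₀ (by linarith) (by nlinarith) 5
    refine (mul_le_mul_of_nonneg_left (mul_le_mul_of_nonneg_left this (by positivity))
      (by positivity)).trans (le_of_eq ?_)
    push_cast
    field_simp
    norm_num
  have G5 : C' * (8 / n + (n : ℝ) ^ 6 * Real.exp (-(X ^ 2 / (4 * (n : ℝ) ^ 2)))) ≤ 9 * C' / n := by
    refine (mul_le_mul_of_nonneg_left (add_le_add_right X4 _) hC'.le).trans (le_of_eq ?_)
    ring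
  have G6 : (32 + 18 * C' + 672 * (C * C)) / n ≤ 1 / 7 := by
    rw [div_le_div_iff₀ T0 (by norm_num)]
    linarith
  have G7 : (32 + 18 * C' + 672 * (C * C)) / n =
      8 * (4 / n) + 2 * (9 * C' / n) + 672 * (C * C) / n := by ring
  rw [← G2] at G
  linarith

end Pool.Agent.MP_a550d9_nt.H28
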