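import Pool.Agent.MP_a550d9_nt.H28.FinA

/-! Large values of the Mertens function from the absence of near-relations: final assembly. -/

open Complex MeasureTheory Filter Topology

namespace Pool.Agent.MP_a550d9_nt.H28

open FinA

/-- No near-relation of size below `Δ` at height `T`. -/
def Ind (T Δ : ℝ) : Prop := ∀ P₁ P₂ : Finset ℝ,
  (∀ p ∈ P₁ ∪ P₂, z1 p = 0 ∧ T ^ (1 / 10 : ℝ) ≤ p ∧ p ≤ T) → Disjoint P₁ P₂ →
    (P₁ ∪ P₂).Nonempty → ∀ g : ℝ, (g = 0 ∨ z1 g = 0 ∧ 0 < g ∧ g ≤ T) → ¬ (P₁ = {g} ∧ P₂ = ∅) →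
      Δ ≤ |∑ p ∈ P₁, p - ∑ p ∈ P₂, p - g|

namespace FinB

theorem oneSide {e κ : ℝ} (he : e = 1 ∨ e = -1) (hκ : 1 ≤ κ) {X : ℕ}
    (H : ∀ N : ℕ, X ≤ N → e * Mer N < 1 * √N * Real.log (Real.log (Real.log N)) ^ (1 / κ)) :
    OneSide := by
  obtain ⟨N₂, h2⟩ := eventually_atTop.1 ((ev_ll 3).and (ev_log 1))
  refine ⟨e, (X + N₂ : ℕ) + 2, he, fun N => ?_⟩
  set C : ℝ := (X + N₂ : ℕ) + 2 with hC
  have C1 : 2 ≤ C := by rw [hC]; linarith [Nat.cast_nonneg (α := ℝ) (X + N₂)]
  have l0 := Real.log_natCast_nonneg N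
  have hb : √(N : ℝ) ^ 2 = N := Real.sq_sqrt (Nat.cast_nonneg _)
  have hb0 := Real.sqrt_nonneg (N : ℝ)
  have hl1 : 1 ≤ √(1 + Real.log N) := Real.one_le_sqrt.2 (by linarith)
  rw [Real.sqrt_mul (Nat.cast_nonneg _)]
  rcases lt_or_ge N (X + N₂) with hN | hN
  · have h2 : (N : ℝ) ≤ C := by
      have : (N : ℝ) ≤ (X + N₂ : ℕ) := by exact_mod_cast hN.le
      linarith
    have h3 : √(N : ℝ) ≤ C := Real.sqrt_le_iff.2 ⟨by linarith, by nlinarith⟩
    have h4 := (e_le he (Mer N)).trans (abs_Mer_le N)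
    nlinarith [mul_le_mul h3 (le_mul_of_one_le_right hb0 hl1) hb0 (by linarith)]
  obtain ⟨k1, k2⟩ := h2 N (by omega)
  have a1 : Real.log (Real.log (Real.log N)) ^ (1 / κ) ≤ Real.log (Real.log (Real.log N)) := by
    conv_rhs => rw [← Real.rpow_one (Real.log (Real.log (Real.log N)))]
    exact Real.rpow_le_rpow_of_exponent_le (one_le_log k1) ((div_le_one (by linarith)).2 hκ)
  have a2 := Real.log_le_sub_one_of_pos (show 0 < Real.log (Real.log N) by linarith)
  have a3 : Real.log (Real.log N) ≤ 2 * √(1 + Real.log N) := by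
    have b1 := Real.log_le_sub_one_of_pos (show 0 < √(1 + Real.log N) by linarith)
    rw [Real.log_sqrt (by linarith)] at b1
    linarith [Real.log_le_log (show 0 < Real.log N by linarith)
      (show Real.log N ≤ 1 + Real.log N by linarith)]
  have a4 := H N (by omega)
  have a5 := mul_le_mul_of_nonneg_left (show Real.log (Real.log (Real.log N)) ^ (1 / κ) ≤
    2 * √(1 + Real.log N) by linarith) hb0
  nlinarith [mul_nonneg hb0 (show 0 ≤ √(1 + Real.log N) by linarith)]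

theorem sum_sym (nz : NZ) (X : ℝ) (F : ℝ → ℝ) (hF : ∀ v, F (-v) = F v) :
    ∑ v ∈ ZS X, F v = ∑ v ∈ (ZS X).filter (fun v => 0 < v), 2 * F v := by
  have h0 : z1 (0 : ℝ) ≠ 0 := by
    have := nz (1 / 2) (by norm_num) (by norm_num)
    simpa [z1] using this
  rw [← Finset.sum_filter_add_sum_filter_not (ZS X) (fun v => 0 < v), ← Finset.mul_sum, two_mul]
  congr 1
  refine Finset.sum_nbij' (fun v => -v) (fun v => -v) (fun v hv => ?_) (fun v hv => ?_)
    (by simp) (by simp) fun v _ => (hF v).symm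
  · simp only [Finset.mem_filter, mem_ZS, abs_neg, z1_neg, not_lt] at hv ⊢
    refine ⟨⟨by simp [hv.1.1], hv.1.2⟩, neg_pos.2 (lt_of_le_of_ne hv.2 fun h => h0 ?_)⟩
    rw [← h]
    exact hv.1.1
  · simp only [Finset.mem_filter, mem_ZS, abs_neg, z1_neg, not_lt] at hv ⊢
    exact ⟨⟨by simp [hv.1.1], hv.1.2⟩, by linarith [hv.2]⟩

theorem gap : ∃ g₀ : ℝ, 0 < g₀ ∧ ∀ g : ℝ, z1 g = 0 → 0 < g → g₀ ≤ g := by
  obtain ⟨g₀, h1, h2⟩ := Finset.exists_min_image (insert 1 ((ZS 1).filter fun v => 0 < v)) id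
    (Finset.insert_nonempty _ _)
  refine ⟨g₀, ?_, fun g hg h0 => ?_⟩
  · rcases Finset.mem_insert.1 h1 with rfl | h
    · exact one_pos
    · exact (Finset.mem_filter.1 h).2
  · rcases le_total g 1 with h | h
    · exact h2 g (Finset.mem_insert_of_mem (Finset.mem_filter.2
        ⟨mem_ZS.2 ⟨hg, by rwa [abs_of_pos h0]⟩, h0⟩))
    · exact (h2 1 (Finset.mem_insert_self _ _)).trans h

theorem re_sym (nz : NZ) (e T u X : ℝ) :
    e * (∑ v ∈ ZS X, cz v * Ew T u v).re = ∑ g ∈ (ZS X).filter (fun v => 0 < v),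
      2 * (e * cz g * (Real.exp (-(g ^ 2 / (2 * T ^ 2))) : ℝ) * exp (I * g * u)).re := by
  rw [← sum_sym nz X (fun g => (e * cz g * (Real.exp (-(g ^ 2 / (2 * T ^ 2))) : ℝ) *
    exp (I * g * u)).re), Complex.re_sum, Finset.mul_sum]
  · refine Finset.sum_congr rfl fun v _ => ?_
    rw [← re_ofReal_mul, Ew, sub_eq_add_neg, Complex.exp_add]
    congr 1
    push_cast
    ring
  · intro v
    rw [← conj_re, cz_neg, neg_sq]
    simp only [map_mul, conj_ofReal, ← exp_conj, conj_I, conj_conj]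
    congr 3
    push_cast
    ring

theorem small (C' : ℝ) : ∀ᶠ Y : ℝ in atTop,
    4 / Y + C' * (2 / Y + (Y ^ 9) ^ 6 * Real.exp (-(Y ^ 2 / 4))) ≤ 1 := by
  have h1 : Tendsto (fun Y : ℝ => (Y ^ 9) ^ 6 * Real.exp (-(Y ^ 2 / 4))) atTop (𝓝 0) := by
    have h := ((Real.tendsto_pow_mul_exp_neg_atTop_nhds_zero 27).comp
      ((tendsto_pow_atTop (n := 2) two_ne_zero).atTop_div_const (r := (4 : ℝ))
        (by norm_num))).const_mul (4 ^ 27)
    rw [mul_zero] at h
    refine h.congr fun Y => ?_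
    simp only [Function.comp_apply]
    ring
  have h2 : ∀ c : ℝ, Tendsto (fun Y : ℝ => c / Y) atTop (𝓝 0) := fun c =>
    tendsto_const_nhds.div_atTop tendsto_id
  have h3 := (h2 4).add (((h2 2).add h1).const_mul C')
  exact h3.eventually_le_const (by norm_num)

theorem log_U {C A κ T : ℝ} {n : ℕ} (hC : 0 < C) (hA : 1 ≤ A) (hκ : 1 ≤ κ) (hT : 3 ≤ T)
    (h1 : C * Real.log T + 8 ≤ T) (hn : (n : ℝ) ≤ C * T * Real.log T) :
    Real.log (3 * (2 ^ n * 2 * T ^ 6 / Real.exp (-Real.exp (A * Real.log T ^ κ)))) ≤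
      Real.exp ((A + 3) * Real.log T ^ κ) := by
  have L1 := one_le_log hT
  have L2 := log_le_half (show 0 < T by linarith)
  have a1 : Real.log T ≤ Real.log T ^ κ := by
    conv_lhs => rw [← Real.rpow_one (Real.log T)]
    exact Real.rpow_le_rpow_of_exponent_le L1 hκ
  rw [Real.log_mul (by norm_num) (by positivity), Real.log_div (by positivity) (by positivity),
    Real.log_mul (by positivity) (by positivity), Real.log_mul (by positivity) (by positivity),
    Real.log_exp, Real.log_pow, Real.log_pow]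
  have a2 : Real.log 3 ≤ Real.log T := Real.log_le_log (by norm_num) hT
  have a3 : T ^ 2 ≤ Real.exp ((A + 2) * Real.log T ^ κ) := by
    calc T ^ 2 = Real.exp ((2 : ℕ) * Real.log T) := by
          rw [Real.exp_nat_mul, Real.exp_log (by linarith)]
      _ ≤ _ := Real.exp_le_exp.2 (by push_cast; nlinarith)
  have a4 : Real.exp (A * Real.log T ^ κ) ≤ Real.exp ((A + 2) * Real.log T ^ κ) :=
    Real.exp_le_exp.2 (by nlinarith)
  have a5 : Real.exp ((A + 3) * Real.log T ^ κ) =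
      Real.exp ((A + 2) * Real.log T ^ κ) * Real.exp (Real.log T ^ κ) := by
    rw [← Real.exp_add]
    congr 1
    ring
  have a6 := Real.add_one_le_exp (Real.log T ^ κ)
  have a7 : (n : ℝ) * Real.log 2 ≤ n * 1 :=
    mul_le_mul_of_nonneg_left (by linarith [Real.log_two_lt_d9]) (Nat.cast_nonneg _)
  have a8 := mul_le_mul_of_nonneg_right h1 (show 0 ≤ T by linarith)
  rw [a5]
  push_cast
  nlinarith [Real.exp_pos ((A + 2) * Real.log T ^ κ), Real.log_two_lt_d9]

end FinB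

open FinB

theorem finB (hz : OneSide → ∃ C C' : ℝ, ZD C ∧ 0 < C' ∧ FB C' ∧ Mass) (nz : NZ) (gau : GAU)
    (riesz : RIESZ) {e κ A : ℝ} (he : e = 1 ∨ e = -1) (hκ : 1 ≤ κ) (hA : 1 ≤ A)
    (hI : ∀ T₀ : ℝ, ∃ T : ℝ, T₀ ≤ T ∧ Ind T (Real.exp (-Real.exp (A * Real.log T ^ κ)))) :
    ∃ c : ℝ, 0 < c ∧ ∀ X : ℕ, ∃ N : ℕ, X ≤ N ∧
      c * √N * Real.log (Real.log (Real.log N)) ^ (1 / κ) ≤ e * Mer N := by
  by_contra hc
  have H : ∀ c : ℝ, 0 < c → ∃ X : ℕ, ∀ N : ℕ, X ≤ N →
      e * Mer N < c * √N * Real.log (Real.log (Real.log N)) ^ (1 / κ) := fun c h0 => by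
    by_contra h
    refine hc ⟨c, h0, fun X => ?_⟩
    by_contra h'
    exact h ⟨X, fun N hN => not_le.1 fun h'' => h' ⟨N, hN, h''⟩⟩
  obtain ⟨C, C', Z, hC', F, c₀, Y₀, hc₀, hM⟩ := hz (by
    obtain ⟨X, hX⟩ := H 1 one_pos
    exact oneSide he hκ hX)
  have hC := Z.pos
  obtain ⟨X, hX⟩ := H (c₀ / (40 * (A + 3))) (by positivity)
  obtain ⟨g₀, g0, hg⟩ := gap
  obtain ⟨N₂, h2⟩ := eventually_atTop.1 ((ev_ll 3).and ((ev_log 1).and (eventually_ge_atTop 1)))
  have hY := tendsto_rpow_atTop (show (0 : ℝ) < 1 / 10 by norm_num)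
  have hl : ∀ᶠ T : ℝ in atTop, C * Real.log T + 8 ≤ T := by
    filter_upwards [Real.isLittleO_log_id_atTop.bound (show 0 < 1 / (2 * C) by positivity),
      eventually_ge_atTop 16] with T h1 h2
    rw [id, Real.norm_of_nonneg (Real.log_nonneg (by linarith)),
      Real.norm_of_nonneg (by linarith), div_mul_eq_mul_div, le_div_iff₀ (by positivity)] at h1
    linarith
  obtain ⟨T₀, hT₀⟩ := eventually_atTop.1 ((hY.eventually ((small C').and
    ((eventually_ge_atTop Y₀).and (eventually_ge_atTop 1)))).and (hl.and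
    ((eventually_ge_atTop (16 + 64 * (C * C) + 1 / g₀ + 2 * (X + N₂ : ℕ))).and
    (Real.tendsto_log_atTop.eventually_gt_atTop (60 / c₀)))))
  obtain ⟨T, hT, hInd⟩ := hI T₀
  obtain ⟨⟨y1, y2, y3⟩, t1, t2, t3⟩ := hT₀ T hT
  have p1 : 0 < 64 * (C * C) := by positivity
  have p2 : 0 < 1 / g₀ := by positivity
  have p3 : (0 : ℝ) ≤ (X + N₂ : ℕ) := Nat.cast_nonneg _
  have T0 : 0 < T := by linarith
  have L1 := one_le_log (show 3 ≤ T by linarith)
  have hYT : (T ^ (1 / 10 : ℝ)) ^ 10 = T := by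
    rw [← Real.rpow_natCast, ← Real.rpow_mul T0.le]
    norm_num
  have hYl : Real.log (T ^ (1 / 10 : ℝ)) = Real.log T / 10 := by
    rw [Real.log_rpow T0]
    ring
  have M := hM _ y2
  rw [hYT, hYl] at M
  unfold Ind at hInd
  set Y := T ^ (1 / 10 : ℝ)
  have YT : Y ≤ T := by
    rw [← hYT]
    exact le_self_pow₀ y3 (by norm_num)
  set Δ := Real.exp (-Real.exp (A * Real.log T ^ κ)) with hΔ
  have Δ0 : 0 < Δ := Real.exp_pos _
  have a1 : Real.log T ≤ Real.log T ^ κ := by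
    conv_lhs => rw [← Real.rpow_one (Real.log T)]
    exact Real.rpow_le_rpow_of_exponent_le L1 hκ
  have Δ1 : Δ ≤ 1 / T := by
    have : T ≤ Real.exp (A * Real.log T ^ κ) := by
      rw [← Real.log_le_iff_le_exp T0]
      nlinarith
    rw [hΔ, Real.exp_neg, inv_eq_one_div]
    exact one_div_le_one_div_of_le T0
      (by linarith [Real.add_one_le_exp (Real.exp (A * Real.log T ^ κ))])
  have Δ2 : Δ ≤ 1 := Δ1.trans ((div_le_one T0).2 (by linarith))
  set P := (ZS T).filter fun v => Y ≤ v with hP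
  set U := 2 ^ P.card * 2 * T ^ 6 / Δ with hU
  have U1 : T ≤ U := by
    rw [hU, le_div_iff₀ Δ0]
    have b1 : (1 : ℝ) ≤ 2 ^ P.card := one_le_pow₀ one_le_two
    have b2 : T ≤ T ^ 6 := le_self_pow₀ (by linarith) (by norm_num)
    nlinarith
  have U2 := log_U (n := P.card) hC hA hκ (by linarith) t1
    ((Nat.cast_le.2 (Finset.card_filter_le _ _)).trans (Z.card T (by linarith)))
  rw [← hΔ, ← hU] at U2
  have e1 : |e| = 1 := by rcases he with rfl | rfl <;> simp
  have na : ∀ g : ℝ, ‖e * cz g * (Real.exp (-(g ^ 2 / (2 * (Y ^ 9) ^ 2))) : ℝ)‖ =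
      ‖cz g‖ * Real.exp (-(g ^ 2 / (2 * (Y ^ 9) ^ 2))) := fun g => by
    rw [norm_mul, norm_mul, norm_real, norm_real, Real.norm_eq_abs, e1, one_mul,
      Real.norm_of_nonneg (Real.exp_pos _).le]
  have R := riesz P ((ZS T).filter fun v => 0 < v)
    (fun g => e * cz g * (Real.exp (-(g ^ 2 / (2 * (Y ^ 9) ^ 2))) : ℝ)) Δ U
    (c₀ / 40 * Real.log T + 1)
    (fun v hv => Finset.mem_filter.2 ⟨(Finset.mem_filter.1 hv).1, by
      linarith [(Finset.mem_filter.1 hv).2]⟩) Δ0 (by linarith) (by positivity)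
    (fun g h => by
      obtain ⟨b1, b2⟩ := Finset.mem_filter.1 h
      exact Δ1.trans (le_trans ((one_div_le T0 g0).2 (by linarith)) (hg g (mem_ZS.1 b1).1 b2)))
    (fun P₁ P₂ b1 b2 b3 b4 g b5 b6 => hInd P₁ P₂ (fun p hp => by
      obtain ⟨d1, d2⟩ := Finset.mem_filter.1 (Finset.union_subset b1 b2 hp)
      exact ⟨(mem_ZS.1 d1).1, d2, (le_abs_self p).trans (mem_ZS.1 d1).2⟩) b3 b4 g
      (b5.imp_right fun h => by
        obtain ⟨d1, d2⟩ := Finset.mem_filter.1 h
        exact ⟨(mem_ZS.1 d1).1, d2, (le_abs_self g).trans (mem_ZS.1 d1).2⟩) b6)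
    (fun u u1 u2 => by
      rw [← re_sym nz]
      have Y9 : 1 ≤ Y ^ 9 := one_le_pow₀ y3
      have F1 := F (Y ^ 9) u T Y9 (by linarith) T0.le
      have G := gau (fun y => e * Me y) (Y ^ 9) u (c₀ / 40 * Real.log T) 1
        (measurable_Me.const_mul e) Y9 (by linarith) (by positivity) (fun y => by
          rw [abs_mul, e1, one_mul, one_mul]
          exact abs_Me_le y) (fun y v1 v2 => by
          have b1 : X + N₂ ≤ ⌊Real.exp y⌋₊ :=
            Nat.le_floor (by linarith [Real.add_one_le_exp y])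
          obtain ⟨k1, k2, k3⟩ := h2 ⌊Real.exp y⌋₊ (by omega)
          have b3 := hX ⌊Real.exp y⌋₊ (by omega)
          have b4 : √(⌊Real.exp y⌋₊ : ℝ) ≤ Real.exp (y / 2) := by
            rw [Real.exp_half]
            exact Real.sqrt_le_sqrt (Nat.floor_le (Real.exp_pos y).le)
          have b5 : Real.log ⌊Real.exp y⌋₊ ≤ 3 * U := by
            have : Real.log ⌊Real.exp y⌋₊ ≤ y := by
              rw [Real.log_le_iff_le_exp (by exact_mod_cast k3)]
              exact Nat.floor_le (Real.exp_pos y).le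
            linarith
          have b6 : Real.log (Real.log (Real.log ⌊Real.exp y⌋₊)) ≤
              ((A + 3) * Real.log T) ^ κ := by
            refine ((Real.log_le_iff_le_exp (by linarith)).2
              ((Real.log_le_log (by linarith) b5).trans U2)).trans ?_
            rw [Real.mul_rpow (by linarith) (by linarith)]
            refine mul_le_mul_of_nonneg_right ?_ (by linarith)
            conv_lhs => rw [← Real.rpow_one (A + 3)]
            exact Real.rpow_le_rpow_of_exponent_le (by linarith) hκ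
          have b7 := Real.rpow_le_rpow (by linarith [one_le_log k1]) b6
            (show 0 ≤ 1 / κ by positivity)
          rw [← Real.rpow_mul (by positivity), mul_one_div_cancel (by linarith),
            Real.rpow_one] at b7
          refine b3.le.trans (le_trans (mul_le_mul (mul_le_mul_of_nonneg_left b4 (by positivity))
            b7 (Real.rpow_nonneg (by linarith [one_le_log k1]) _) (by positivity)) (le_of_eq ?_))
          field_simp)
      have G2 : e * IB (Y ^ 9) u = ∫ y, e * Me y * Real.exp (-y / 2) * Kt (Y ^ 9) (y - u) := by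
        rw [IB, ← integral_const_mul]
        simp only [mul_assoc]
      have G3 : Real.exp (-u / 2) ≤ 2 / T := by
        rw [neg_div, Real.exp_neg, inv_eq_one_div, div_le_div_iff₀ (Real.exp_pos _) T0]
        linarith [Real.add_one_le_exp (u / 2)]
      have G4 : 2 / T ≤ 2 / Y := div_le_div_of_nonneg_left (by norm_num) (by linarith) YT
      have G5 : Y ^ 9 * Real.exp (-u / 2) ≤ 2 / Y := by
        refine (mul_le_mul_of_nonneg_left G3 (by linarith)).trans (le_of_eq ?_)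
        rw [← hYT]
        field_simp
      have G6 : T ^ 2 / (4 * (Y ^ 9) ^ 2) = Y ^ 2 / 4 := by
        rw [← hYT]
        field_simp
      rw [G6] at F1
      have G7 := (e_le he _).trans ((abs_re_le_norm _).trans ((norm_sub_rev _ _).le.trans F1))
      rw [sub_re, ofReal_re, mul_sub] at G7
      rw [← G2] at G
      have G8 := mul_le_mul_of_nonneg_left (add_le_add_left G5
        ((Y ^ 9) ^ 6 * Real.exp (-(Y ^ 2 / 4)))) hC'.le
      have G9 : 4 / Y = 2 * (2 / Y) := by ring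
      linarith)
  simp only [na] at R
  have S1 : ∑ g ∈ (ZS T).filter (fun v => 0 < v),
      ‖cz g‖ * Real.exp (-(g ^ 2 / (2 * (Y ^ 9) ^ 2))) ≤ C * C * (2 * T) ^ 5 := by
    refine le_trans (Finset.sum_le_sum fun g _ => mul_le_of_le_one_right (norm_nonneg _)
      (Real.exp_le_one_iff.2 (neg_nonpos.2 (by positivity)))) ((Finset.sum_le_sum_of_subset_of_nonneg
      (Finset.filter_subset _ _) fun _ _ _ => norm_nonneg _).trans ((sum_cz_le Z T0.le).trans ?_))
    gcongr
    linarith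
  set S := ∑ g ∈ (ZS T).filter (fun v => 0 < v),
      ‖cz g‖ * Real.exp (-(g ^ 2 / (2 * (Y ^ 9) ^ 2)))
  have S2 : (c₀ / 40 * Real.log T + 1 + 2 * S) * 2 ^ P.card * 2 / (U * Δ) =
      (c₀ / 40 * Real.log T + 1) / T ^ 6 + 2 * S / T ^ 6 := by
    rw [hU]
    field_simp
  have S3 : (c₀ / 40 * Real.log T + 1) / T ^ 6 ≤ c₀ / 40 * Real.log T + 1 :=
    div_le_self (by positivity) (one_le_pow₀ (by linarith))
  have S4 : 2 * S / T ^ 6 ≤ 1 := by
    rw [div_le_one (by positivity)]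
    have := mul_le_mul_of_nonneg_right (show 64 * (C * C) ≤ T by linarith)
      (show 0 ≤ T ^ 5 by positivity)
    nlinarith
  rw [div_lt_iff₀ hc₀] at t3
  nlinarith

end Pool.Agent.MP_a550d9_nt.H28
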