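import Pool.Agent.MP_a550d9_nt.H28.Spec

/-!
Gaussian tail bounds: the steps `GAU` and `BASE`.
-/

open MeasureTheory

namespace Pool.Agent.MP_a550d9_nt.H28

namespace Gau

theorem sq_eq {c : ℝ} (hc : 0 < c) (b v : ℝ) :
    Real.exp (-c * v ^ 2 + b * v) =
      Real.exp (b ^ 2 / (4 * c)) * Real.exp (-c * (v - b / (2 * c)) ^ 2) := by
  rw [← Real.exp_add]
  congr 1
  field_simp
  ring

theorem g_int {c : ℝ} (hc : 0 < c) (b : ℝ) :
    Integrable fun v : ℝ => Real.exp (-c * v ^ 2 + b * v) := by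
  simp_rw [sq_eq hc]
  exact ((integrable_exp_neg_mul_sq hc).comp_sub_right (b / (2 * c))).const_mul _

theorem g_val {c : ℝ} (hc : 0 < c) (b : ℝ) :
    ∫ v : ℝ, Real.exp (-c * v ^ 2 + b * v) = Real.exp (b ^ 2 / (4 * c)) * √(Real.pi / c) := by
  simp_rw [sq_eq hc]
  rw [integral_const_mul,
    integral_sub_right_eq_self (fun v : ℝ => Real.exp (-c * v ^ 2)) (b / (2 * c)),
    integral_gaussian]

theorem Kt_nonneg {T : ℝ} (hT : 0 < T) (v : ℝ) : 0 ≤ Kt T v := by
  unfold Kt
  positivity

theorem Kt_eq (T b v : ℝ) : Real.exp (b * v) * Kt T v =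
    T / √(2 * Real.pi) * Real.exp (-(T ^ 2 / 2) * v ^ 2 + b * v) := by
  rw [Kt, Real.exp_add, show -(T ^ 2 * v ^ 2 / 2) = -(T ^ 2 / 2) * v ^ 2 by ring]
  ring

theorem eK_int {T : ℝ} (hT : 0 < T) (b : ℝ) :
    Integrable fun v : ℝ => Real.exp (b * v) * Kt T v := by
  simp_rw [Kt_eq]
  exact (g_int (by positivity) b).const_mul _

theorem K_int {T : ℝ} (hT : 0 < T) : Integrable (Kt T) := by
  simpa using eK_int hT 0

theorem K_val {T : ℝ} (hT : 0 < T) : ∫ v, Kt T v = 1 := by
  have h : ∀ v, Kt T v = T / √(2 * Real.pi) * Real.exp (-(T ^ 2 / 2) * v ^ 2 + 0 * v) :=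
    fun v => by simpa using Kt_eq T 0 v
  simp_rw [h]
  rw [integral_const_mul, g_val (by positivity),
    show Real.pi / (T ^ 2 / 2) = 2 * Real.pi / T ^ 2 by field_simp,
    Real.sqrt_div' _ (by positivity), Real.sqrt_sq hT.le]
  have : 0 < √(2 * Real.pi) := by positivity
  simp only [ne_eq, OfNat.ofNat_ne_zero, not_false_eq_true, zero_pow, zero_div, Real.exp_zero]
  field_simp

/-- The majorant of the tail. -/
noncomputable def H (T a b v : ℝ) : ℝ :=
  T / √(2 * Real.pi) * Real.exp (-(T ^ 2 * a ^ 2 / 4)) * Real.exp (-(T ^ 2 / 4) * v ^ 2 + b * v)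

theorem H_nonneg {T : ℝ} (hT : 0 < T) (a b v : ℝ) : 0 ≤ H T a b v := by
  unfold H
  positivity

theorem H_int {T : ℝ} (hT : 0 < T) (a b : ℝ) : Integrable (H T a b) :=
  (g_int (by positivity) b).const_mul _

theorem H_val {T : ℝ} (hT : 0 < T) (a b : ℝ) :
    ∫ v, H T a b v = √2 * Real.exp (b ^ 2 / T ^ 2) * Real.exp (-(T ^ 2 * a ^ 2 / 4)) := by
  unfold H
  rw [integral_const_mul, g_val (by positivity),
    show Real.pi / (T ^ 2 / 4) = 2 * (2 * Real.pi) / T ^ 2 by field_simp; ring,
    Real.sqrt_div' _ (by positivity), Real.sqrt_sq hT.le, Real.sqrt_mul (x := 2) (by norm_num)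
      (2 * Real.pi), show 4 * (T ^ 2 / 4) = T ^ 2 by ring]
  have : 0 < √(2 * Real.pi) := by positivity
  field_simp

theorem le_H {T a : ℝ} (hT : 0 < T) (ha : 0 ≤ a) (b : ℝ) {v : ℝ} (hv : a ≤ |v|) :
    Real.exp (b * v) * Kt T v ≤ H T a b v := by
  rw [Kt_eq, H, mul_assoc, ← Real.exp_add]
  refine mul_le_mul_of_nonneg_left (Real.exp_le_exp.2 ?_) (by positivity)
  have h : a ^ 2 ≤ v ^ 2 := by
    rw [← sq_abs v]
    exact pow_le_pow_left₀ ha hv 2
  nlinarith [mul_le_mul_of_nonneg_left h (sq_nonneg T)]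

theorem sqrt_two_le : √2 ≤ 3 / 2 := Real.sqrt_le_iff.2 ⟨by norm_num, by norm_num⟩

theorem const_le {T : ℝ} (hT : 1 ≤ T) : √2 * Real.exp ((1 / 2) ^ 2 / T ^ 2) ≤ 2 := by
  have h1 : ((1 / 2 : ℝ)) ^ 2 / T ^ 2 ≤ 1 / 4 := by
    rw [div_le_iff₀ (by positivity)]
    nlinarith
  have h2 : Real.exp (1 / 4) ≤ 4 / 3 := by
    have := Real.add_one_le_exp (-(1 / 4) : ℝ)
    have h3 : Real.exp (1 / 4) * Real.exp (-(1 / 4)) = 1 := by
      rw [← Real.exp_add]
      simp
    nlinarith [Real.exp_pos (1 / 4 : ℝ)]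
  calc _ ≤ 3 / 2 * (4 / 3) :=
        mul_le_mul sqrt_two_le ((Real.exp_le_exp.2 h1).trans h2) (by positivity) (by norm_num)
    _ = 2 := by norm_num

theorem half_eq (y u : ℝ) :
    Real.exp y * Real.exp (-y / 2) = Real.exp (u / 2) * Real.exp (1 / 2 * (y - u)) := by
  rw [← Real.exp_add, ← Real.exp_add]
  congr 1
  ring

/-- The far part of the integrand. -/
theorem far {T a K u y z : ℝ} (hT : 0 < T) (ha : 0 ≤ a) (hK : 0 ≤ K) (hz : z ≤ K * Real.exp y)
    (hv : a ≤ |y - u|) :
    z * Real.exp (-y / 2) * Kt T (y - u) ≤ K * Real.exp (u / 2) * H T a (1 / 2) (y - u) := by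
  calc _ ≤ K * Real.exp y * Real.exp (-y / 2) * Kt T (y - u) :=
        mul_le_mul_of_nonneg_right (mul_le_mul_of_nonneg_right hz (Real.exp_pos _).le)
          (Kt_nonneg hT _)
    _ = K * Real.exp (u / 2) * (Real.exp (1 / 2 * (y - u)) * Kt T (y - u)) := by
        rw [mul_assoc K, half_eq y u]
        ring
    _ ≤ _ := mul_le_mul_of_nonneg_left (le_H hT ha _ hv) (by positivity)

/-- A lower bound for a function concentrated near `u`. -/
theorem low {F : ℝ → ℝ} {T u : ℝ} (hF : Measurable F) (hT : 200 ≤ T) (hu : u ≤ 1)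
    (h4 : ∀ y, |F y| ≤ 4 * Real.exp y)
    (hin : ∀ y, |y - u| < 4 / T → 7 / 10 ≤ F y * Real.exp (-y / 2))
    (hmid : ∀ y, |y - u| ≤ 1 / 4 → 0 ≤ F y) :
    13 / 20 ≤ ∫ y, F y * Real.exp (-y / 2) * Kt T (y - u) := by
  have hT0 : 0 < T := by linarith
  have i1 := (K_int hT0).comp_sub_right u
  have i2 := (H_int hT0 (4 / T) 0).comp_sub_right u
  have i3 := (H_int hT0 (1 / 4) (1 / 2)).comp_sub_right u
  have i4 : Integrable fun y => F y * Real.exp (-y / 2) * Kt T (y - u) := by
    refine (((eK_int hT0 (1 / 2)).comp_sub_right u).const_mul (4 * Real.exp (u / 2))).mono'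
      ?_ (Filter.Eventually.of_forall fun y => ?_)
    · refine Measurable.aestronglyMeasurable ?_
      unfold Kt
      fun_prop
    · rw [Real.norm_eq_abs, abs_mul, abs_mul, abs_of_pos (Real.exp_pos _),
        abs_of_nonneg (Kt_nonneg hT0 _), ← mul_assoc, mul_assoc 4, ← half_eq y u, ← mul_assoc]
      exact mul_le_mul_of_nonneg_right (mul_le_mul_of_nonneg_right (h4 y) (Real.exp_pos _).le)
        (Kt_nonneg hT0 _)
  have hp : ∀ y, 7 / 10 * Kt T (y - u) - 7 / 10 * H T (4 / T) 0 (y - u) -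
      4 * Real.exp (u / 2) * H T (1 / 4) (1 / 2) (y - u) ≤
        F y * Real.exp (-y / 2) * Kt T (y - u) := fun y => by
    have p1 := H_nonneg hT0 (4 / T) 0 (y - u)
    have p2 : 0 ≤ 4 * Real.exp (u / 2) * H T (1 / 4) (1 / 2) (y - u) :=
      mul_nonneg (by positivity) (H_nonneg hT0 _ _ _)
    rcases lt_or_ge |y - u| (4 / T) with h | h
    · have := mul_le_mul_of_nonneg_right (hin y h) (Kt_nonneg hT0 (y - u))
      linarith
    have p3 : Kt T (y - u) ≤ H T (4 / T) 0 (y - u) := by
      simpa using le_H hT0 (by positivity) 0 h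
    rcases le_total |y - u| (1 / 4) with h' | h'
    · have := mul_nonneg (mul_nonneg (hmid y h') (Real.exp_pos (-y / 2)).le)
        (Kt_nonneg hT0 (y - u))
      linarith
    · have := far (z := -F y) hT0 (by norm_num) (by norm_num) ((neg_le_abs _).trans (h4 y)) h'
      linarith
  have j1 : Integrable fun y => 7 / 10 * Kt T (y - u) - 7 / 10 * H T (4 / T) 0 (y - u) :=
    (i1.const_mul _).sub (i2.const_mul _)
  have j2 : Integrable fun y => 7 / 10 * Kt T (y - u) - 7 / 10 * H T (4 / T) 0 (y - u) -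
      4 * Real.exp (u / 2) * H T (1 / 4) (1 / 2) (y - u) := j1.sub (i3.const_mul _)
  refine le_trans ?_ (integral_mono j2 i4 hp)
  rw [integral_sub j1 (i3.const_mul _),
    integral_sub (i1.const_mul _) (i2.const_mul _), integral_const_mul, integral_const_mul,
    integral_const_mul, integral_sub_right_eq_self (Kt T) u,
    integral_sub_right_eq_self (H T (4 / T) 0) u,
    integral_sub_right_eq_self (H T (1 / 4) (1 / 2)) u, K_val hT0, H_val hT0, H_val hT0,
    show T ^ 2 * (4 / T) ^ 2 / 4 = 4 by field_simp]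
  have e1 : Real.exp (-4) ≤ 1 / 50 := by
    have h1 : (50 : ℝ) ≤ Real.exp 4 := by
      have h2 : Real.exp 4 = Real.exp 1 ^ 4 := by
        rw [← Real.exp_nat_mul]
        norm_num
      rw [h2]
      exact le_trans (by norm_num)
        (pow_le_pow_left₀ (by norm_num) Real.exp_one_gt_d9.le 4)
    rw [Real.exp_neg, one_div]
    exact inv_anti₀ (by norm_num) h1
  have e2 : Real.exp (-(T ^ 2 * (1 / 4) ^ 2 / 4)) ≤ 1 / 600 := by
    rw [Real.exp_neg, one_div (600 : ℝ)]
    refine inv_anti₀ (by norm_num) (le_trans ?_ (Real.add_one_le_exp _))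
    nlinarith
  have e3 : Real.exp (u / 2) ≤ 2 := by
    have h1 : Real.exp (u / 2) * Real.exp (u / 2) ≤ Real.exp 1 := by
      rw [← Real.exp_add]
      exact Real.exp_le_exp.2 (by linarith)
    nlinarith [Real.exp_one_lt_d9, Real.exp_pos (u / 2)]
  have e4 : √2 * Real.exp (-4) ≤ 3 / 2 * (1 / 50) :=
    mul_le_mul sqrt_two_le e1 (by positivity) (by norm_num)
  have e5 := mul_le_mul (const_le (T := T) (by linarith)) e2 (by positivity) (by norm_num)
  have e6 := mul_le_mul e3 e5 (by positivity) (by norm_num)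
  simp only [ne_eq, OfNat.ofNat_ne_zero, not_false_eq_true, zero_pow, zero_div, Real.exp_zero,
    mul_one]
  linarith

theorem Me_one {y : ℝ} (h0 : 0 ≤ y) (h : y < Real.log 2) : Me y = 1 := by
  have h1 : ⌊Real.exp y⌋₊ = 1 := by
    rw [Nat.floor_eq_iff (Real.exp_pos y).le]
    refine ⟨by simpa using h0, ?_⟩
    have := Real.exp_lt_exp.2 h
    rw [Real.exp_log (by norm_num)] at this
    norm_num
    exact this
  rw [Me, h1]
  simp [Mer]

theorem Me_two {y : ℝ} (h0 : Real.log 2 ≤ y) (h : y ≤ Real.log 2 + 3 / 10) : Me y = 0 := by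
  have h1 : ⌊Real.exp y⌋₊ = 2 := by
    rw [Nat.floor_eq_iff (Real.exp_pos y).le]
    have h2 := Real.exp_le_exp.2 h0
    have h3 := Real.exp_le_exp.2 h
    rw [Real.exp_add] at h3
    rw [Real.exp_log (by norm_num)] at h2 h3
    have h4 := Real.add_one_le_exp (-(3 / 10) : ℝ)
    have h5 : Real.exp (3 / 10) * Real.exp (-(3 / 10)) = 1 := by
      rw [← Real.exp_add]
      simp
    refine ⟨by simpa using h2, ?_⟩
    push_cast
    nlinarith [Real.exp_pos (3 / 10 : ℝ)]
  rw [Me, h1, Mer, show Finset.Icc 1 2 = {1, 2} from rfl, Finset.sum_pair (by norm_num),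
    ArithmeticFunction.moebius_apply_prime Nat.prime_two]
  simp

theorem diff_le {η : ℝ} (h : η ≤ 1) (y : ℝ) : |Me (y + η) - Me y| ≤ 4 * Real.exp y := by
  have h1 := abs_Me_le (y + η)
  have h2 := abs_Me_le y
  have h3 := abs_sub (Me (y + η)) (Me y)
  rw [Real.exp_add] at h1
  have h4 : Real.exp η ≤ 3 := (Real.exp_le_exp.2 h).trans (by linarith [Real.exp_one_lt_d9])
  nlinarith [Real.exp_pos y]

theorem exp_half {y : ℝ} (h : y ≤ Real.log 2) : 7 / 10 ≤ Real.exp (-y / 2) := by
  have h1 : Real.exp (-y / 2) * Real.exp (-y / 2) * Real.exp y = 1 := by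
    rw [← Real.exp_add, ← Real.exp_add, ← Real.exp_zero]
    congr 1
    ring
  have h2 := Real.exp_le_exp.2 h
  rw [Real.exp_log (by norm_num)] at h2
  by_contra h3
  have h4 := Real.exp_pos (-y / 2)
  have h5 : Real.exp (-y / 2) * Real.exp (-y / 2) ≤ 7 / 10 * (7 / 10) :=
    mul_le_mul (not_le.1 h3).le (not_le.1 h3).le h4.le (by norm_num)
  nlinarith [Real.exp_pos y]

end Gau

open Gau

theorem gau : GAU := by
  intro f T u a K _ hT hu ha hK hf
  have hT0 : 0 < T := by linarith
  have hK0 : 0 ≤ K := nonneg_of_mul_nonneg_left ((abs_nonneg _).trans (hK 0)) (Real.exp_pos 0)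
  by_cases hi : Integrable fun y => f y * Real.exp (-y / 2) * Kt T (y - u)
  swap
  · rw [integral_undef hi]
    positivity
  have i1 := (K_int hT0).comp_sub_right u
  have i2 := (H_int hT0 (u / 2) (1 / 2)).comp_sub_right u
  have hp : ∀ y, f y * Real.exp (-y / 2) * Kt T (y - u) ≤
      a * Kt T (y - u) + K * Real.exp (u / 2) * H T (u / 2) (1 / 2) (y - u) := fun y => by
    have p1 := mul_nonneg ha (Kt_nonneg hT0 (y - u))
    have p2 : 0 ≤ K * Real.exp (u / 2) * H T (u / 2) (1 / 2) (y - u) :=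
      mul_nonneg (by positivity) (H_nonneg hT0 _ _ _)
    rcases le_total |y - u| (u / 2) with h | h
    · have h1 := abs_le.1 h
      have h2 := mul_le_mul_of_nonneg_right (hf y (by linarith) (by linarith))
        (Real.exp_pos (-y / 2)).le
      rw [mul_assoc, ← Real.exp_add, show y / 2 + -y / 2 = 0 by ring, Real.exp_zero,
        mul_one] at h2
      have := mul_le_mul_of_nonneg_right h2 (Kt_nonneg hT0 (y - u))
      linarith
    · have := far hT0 (by linarith) hK0 ((le_abs_self _).trans (hK y)) h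
      linarith
  have j1 : Integrable fun y =>
      a * Kt T (y - u) + K * Real.exp (u / 2) * H T (u / 2) (1 / 2) (y - u) :=
    (i1.const_mul _).add (i2.const_mul _)
  refine (integral_mono hi j1 hp).trans ?_
  rw [integral_add (i1.const_mul _) (i2.const_mul _), integral_const_mul, integral_const_mul,
    integral_sub_right_eq_self (Kt T) u, integral_sub_right_eq_self (H T (u / 2) (1 / 2)) u,
    K_val hT0, H_val hT0, mul_one]
  have e1 : Real.exp (u / 2) * Real.exp (-(T ^ 2 * (u / 2) ^ 2 / 4)) ≤ Real.exp (-u / 2) := by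
    rw [← Real.exp_add]
    refine Real.exp_le_exp.2 ?_
    have h1 : 1 ≤ T ^ 2 := by nlinarith
    nlinarith [mul_le_mul_of_nonneg_right h1 (sq_nonneg u)]
  have e2 := mul_le_mul (const_le hT) e1 (by positivity) (by norm_num)
  have e3 := mul_le_mul_of_nonneg_left e2 hK0
  nlinarith

theorem base : BASE := by
  refine ⟨200, fun T hT => ?_⟩
  have hT0 : 0 < T := by linarith
  have t0 : 0 < 4 / T := by positivity
  have t1 : 4 / T ≤ 1 / 50 := by
    rw [div_le_iff₀ hT0]
    linarith
  have t2 : 8 / T = 2 * (4 / T) := by ring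
  have t3 : -4 / T = -(4 / T) := by ring
  have l1 := Real.log_two_gt_d9
  have l2 := Real.log_two_lt_d9
  have hm : Measurable fun y => Me (y + 8 / T) - Me y :=
    (measurable_Me.comp (measurable_add_const _)).sub measurable_Me
  have hd := diff_le (η := 8 / T) (by linarith)
  constructor
  · refine low hm hT (by linarith) hd (fun y hy => ?_) fun y hy => ?_
    · have h := abs_lt.1 hy
      rw [Me_one (by linarith) (by linarith), Me_neg (by linarith), sub_zero, one_mul]
      exact exp_half (by linarith)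
    · have h := abs_le.1 hy
      rcases lt_or_ge y 0 with h1 | h1
      · rw [Me_neg h1]
        rcases lt_or_ge (y + 8 / T) 0 with h2 | h2
        · rw [Me_neg h2]
          norm_num
        · rw [Me_one h2 (by linarith)]
          norm_num
      · rw [Me_one h1 (by linarith), Me_one (by linarith) (by linarith)]
        norm_num
  · have hn : Measurable fun y => -(Me (y + 8 / T) - Me y) := hm.neg
    have := low (u := Real.log 2 - 4 / T) hn hT (by linarith)
      (fun y => by simpa only [abs_neg] using hd y) (fun y hy => ?_) fun y hy => ?_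
    · simp only [neg_mul] at this
      rw [integral_neg] at this
      unfold IA
      linarith
    · have h := abs_lt.1 hy
      rw [Me_two (by linarith) (by linarith), Me_one (by linarith) (by linarith), zero_sub,
        neg_neg, one_mul]
      exact exp_half (by linarith)
    · have h := abs_le.1 hy
      rcases lt_or_ge y (Real.log 2) with h1 | h1
      · rw [Me_one (y := y) (by linarith) h1]
        rcases lt_or_ge (y + 8 / T) (Real.log 2) with h2 | h2
        · rw [Me_one (by linarith) h2]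
          norm_num
        · rw [Me_two h2 (by linarith)]
          norm_num
      · rw [Me_two h1 (by linarith), Me_two (by linarith) (by linarith)]
        norm_num

end Pool.Agent.MP_a550d9_nt.H28
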