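import Pool.Agent.MP_a550d9_nt.H28.Spec

/-!
Landau's lemma for Laplace transforms of nonnegative functions.
-/

open Complex MeasureTheory ProbabilityTheory

namespace Pool.Agent.MP_a550d9_nt.H28

namespace Lan

theorem int_of_sum {u : ℕ → ℝ → ℝ} {g : ℝ → ℝ} (hu : ∀ n, Integrable (u n))
    (h0 : ∀ n y, 0 ≤ u n y) (hs : Summable fun n => ∫ y, u n y)
    (hg : ∀ y, HasSum (fun n => u n y) (g y)) (hm : Measurable g) : Integrable g := by
  refine ⟨hm.aestronglyMeasurable, ?_⟩
  have g0 : ∀ y, 0 ≤ g y := fun y => (hg y).nonneg fun n => h0 n y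
  rw [hasFiniteIntegral_iff_ofReal (Filter.Eventually.of_forall g0)]
  have e : ∀ y, ENNReal.ofReal (g y) = ∑' n, ENNReal.ofReal (u n y) := fun y => by
    rw [← (hg y).tsum_eq, ENNReal.ofReal_tsum_of_nonneg (fun n => h0 n y) (hg y).summable]
  simp_rw [e]
  rw [lintegral_tsum fun n => (hu n).1.aemeasurable.ennreal_ofReal]
  have e2 : ∀ n, ∫⁻ y, ENNReal.ofReal (u n y) = ENNReal.ofReal (∫ y, u n y) := fun n =>
    (ofReal_integral_eq_lintegral_ofReal (hu n) (Filter.Eventually.of_forall (h0 n))).symm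
  simp_rw [e2]
  rw [← ENNReal.ofReal_tsum_of_nonneg (fun n => integral_nonneg (h0 n)) hs]
  exact ENNReal.ofReal_lt_top

end Lan

theorem lan : LAN := by
  intro f a r G hf f0 fz hr hi hG hE
  set μ : Measure ℝ := volume.withDensity fun y => ENNReal.ofReal (f y) with hμ
  have top : ∀ᵐ y : ℝ, ENNReal.ofReal (f y) < ⊤ :=
    Filter.Eventually.of_forall fun _ => ENNReal.ofReal_lt_top
  have hI : ∀ g : ℝ → ℝ, Integrable g μ ↔ Integrable fun y => f y * g y := fun g => by
    rw [hμ, integrable_withDensity_iff_integrable_smul' hf.ennreal_ofReal top]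
    simp only [ENNReal.toReal_ofReal (f0 _), smul_eq_mul]
  have hJ : ∀ g : ℝ → ℂ, ∫ y, g y ∂μ = ∫ y, (f y : ℂ) * g y := fun g => by
    rw [hμ, integral_withDensity_eq_integral_toReal_smul₀ hf.ennreal_ofReal.aemeasurable top]
    simp only [ENNReal.toReal_ofReal (f0 _), real_smul]
  set X : ℝ → ℝ := fun y => -y with hX
  set p : ℝ := a + r / 4 with hp
  have hc : p ∈ interior (integrableExpSet X μ) := by
    refine interior_maximal (t := Set.Ioi a) (fun σ hσ => ?_) isOpen_Ioi (by
      show a < p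
      linarith)
    show Integrable (fun y => Real.exp (σ * X y)) μ
    rw [hI]
    simpa [hX] using hi σ hσ
  have hb : Metric.ball (p : ℂ) (3 * r / 4) ⊆ Metric.ball (a : ℂ) r := by
    refine Metric.ball_subset_ball' ?_
    rw [dist_eq, ← ofReal_sub, norm_real, hp, add_sub_cancel_left, Real.norm_eq_abs,
      abs_of_pos (by positivity)]
    linarith
  have hev : G =ᶠ[nhds (p : ℂ)] complexMGF X μ := by
    have o : IsOpen (Metric.ball (a : ℂ) r ∩ {s : ℂ | a < s.re}) :=
      Metric.isOpen_ball.inter (isOpen_lt continuous_const continuous_re)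
    refine Filter.eventually_of_mem (o.mem_nhds ⟨hb (Metric.mem_ball_self (by positivity)), ?_⟩)
      fun s hs => ?_
    · show a < (p : ℂ).re
      rw [ofReal_re]
      linarith
    · rw [hE s hs.1 hs.2, complexMGF, hJ]
      simp [hX]
  have hz : ((a - r / 4 : ℝ) : ℂ) ∈ Metric.ball (p : ℂ) (3 * r / 4) := by
    rw [Metric.mem_ball, dist_eq, ← ofReal_sub, norm_real, Real.norm_eq_abs, abs_lt]
    constructor <;> linarith
  have hT := (hasSum_taylorSeries_on_ball (hG.mono hb) hz).summable
  set u : ℕ → ℝ → ℝ := fun n y =>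
    ((n.factorial : ℝ)⁻¹ * (-(r / 2)) ^ n) * (f y * ((-y) ^ n * Real.exp (p * -y))) with hu
  have hu' : ∀ n y, u n y = (r / 2 * y) ^ n / n.factorial * (f y * Real.exp (p * -y)) := by
    intro n y
    rw [show r / 2 * y = -(r / 2) * -y by ring, mul_pow]
    ring
  have ui : ∀ n, Integrable (u n) := fun n =>
    ((hI _).1 (integrable_pow_mul_exp_of_mem_interior_integrableExpSet hc n)).const_mul _
  have hs : Summable fun n => ∫ y, u n y := by
    refine summable_ofReal.1 (hT.congr fun n => ?_)
    rw [hev.iteratedDeriv_eq, iteratedDeriv_complexMGF (by simpa using hc), hJ, hu,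
      integral_const_mul, ofReal_mul, ← integral_complex_ofReal, smul_eq_mul, smul_eq_mul,
      ← ofReal_sub, show a - r / 4 - p = -(r / 2) by linarith, ← mul_assoc]
    simp [hX]
  refine Lan.int_of_sum ui (fun n y => ?_) hs (fun y => ?_) (by fun_prop)
  · rw [hu']
    rcases lt_or_ge y 0 with h | h
    · simp [fz y h]
    · have := f0 y
      positivity
  · simp_rw [hu']
    have := (NormedSpace.expSeries_div_hasSum_exp (r / 2 * y)).mul_right
      (f y * Real.exp (p * -y))
    rw [← Real.exp_eq_exp_ℝ] at this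
    rwa [mul_left_comm, ← Real.exp_add,
      show r / 2 * y + p * -y = -(a - r / 4) * y by rw [hp]; ring] at this

end Pool.Agent.MP_a550d9_nt.H28
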