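import Pool.Agent.MP_a550d9_nt.H28.Spec

/-! The Laplace transform of `y ↦ M (e ^ y)`. -/

open Complex MeasureTheory Pool.Agent.MP_ca0a54_nt.L0.ZetaA

namespace Pool.Agent.MP_a550d9_nt.H28

namespace Lap

theorem ind (s : ℂ) : (fun y : ℝ => (Me y : ℂ) * exp (-s * y)) =
    (Set.Ici (0 : ℝ)).indicator fun y : ℝ => (Me y : ℂ) * exp (-s * y) := by
  funext y
  by_cases h : y ∈ Set.Ici (0 : ℝ)
  · rw [Set.indicator_of_mem h]
  · rw [Set.indicator_of_notMem h, Me_neg (by simpa using h)]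
    simp

theorem integ (s : ℂ) (hs : 1 < s.re) :
    Integrable fun y : ℝ => (Me y : ℂ) * exp (-s * y) := by
  rw [ind s, integrable_indicator_iff measurableSet_Ici, integrableOn_Ici_iff_integrableOn_Ioi]
  have h1 : IntegrableOn (fun y : ℝ => Real.exp ((1 - s.re) * y)) (Set.Ioi 0) :=
    integrableOn_exp_mul_Ioi (by linarith) 0
  refine Integrable.mono' h1 ?_ (Filter.Eventually.of_forall fun y => ?_)
  · refine Measurable.aestronglyMeasurable ?_
    exact (Complex.measurable_ofReal.comp measurable_Me).mul (by fun_prop)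
  · rw [norm_mul, norm_exp, norm_real, Real.norm_eq_abs, sub_mul, sub_eq_add_neg, Real.exp_add,
      one_mul]
    have e : (-s * y).re = -(s.re * y) := by simp
    rw [e]
    exact mul_le_mul_of_nonneg_right (abs_Me_le y) (Real.exp_pos _).le

theorem bigO : (fun n : ℕ => ∑ k ∈ Finset.Icc 1 n, ((ArithmeticFunction.moebius k : ℤ) : ℂ))
    =O[Filter.atTop] fun n : ℕ => (n : ℝ) ^ (1 : ℝ) := by
  refine Asymptotics.isBigO_of_le _ fun n => ?_
  have h : (∑ k ∈ Finset.Icc 1 n, ((ArithmeticFunction.moebius k : ℤ) : ℂ)) = (Mer n : ℂ) := by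
    simp [Mer]
  rw [h, norm_real, Real.norm_eq_abs, Real.rpow_one, Real.norm_eq_abs, Nat.abs_cast]
  exact abs_Mer_le n

end Lap

theorem lap : LAP := fun s hs => by
  refine ⟨Lap.integ s hs, ?_⟩
  have h0 : s ≠ 0 := fun e => by
    rw [e] at hs
    norm_num at hs
  have h1 : s ≠ 1 := fun e => by
    rw [e] at hs
    norm_num at hs
  have hL := LSeries_eq_mul_integral (fun k => ((ArithmeticFunction.moebius k : ℤ) : ℂ))
    zero_le_one hs (ArithmeticFunction.LSeriesSummable_moebius_iff.2 hs) Lap.bigO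
  rw [← inv_zeta_eq s hs, ← Real.exp_zero, ← integral_comp_exp_Ioi] at hL
  have h2 : ∫ y : ℝ, (Me y : ℂ) * exp (-s * y) = ∫ y in Set.Ioi (0 : ℝ), Real.exp y •
      ((∑ k ∈ Finset.Icc 1 ⌊Real.exp y⌋₊, ((ArithmeticFunction.moebius k : ℤ) : ℂ)) *
        ((Real.exp y : ℝ) : ℂ) ^ (-(s + 1))) := by
    rw [Lap.ind s, integral_indicator measurableSet_Ici, integral_Ici_eq_integral_Ioi]
    refine setIntegral_congr_fun measurableSet_Ioi fun y _ => ?_
    have h3 : (∑ k ∈ Finset.Icc 1 ⌊Real.exp y⌋₊, ((ArithmeticFunction.moebius k : ℤ) : ℂ)) =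
        (Me y : ℂ) := by simp [Me, Mer]
    have h4 : ((Real.exp y : ℝ) : ℂ) ^ (-(s + 1)) = exp (-(s + 1) * y) := by
      rw [cpow_def_of_ne_zero (ofReal_ne_zero.2 (Real.exp_pos y).ne'),
        ← ofReal_log (Real.exp_pos y).le, Real.log_exp, mul_comm]
    simp only [h3, h4, real_smul]
    rw [ofReal_exp, mul_left_comm, ← exp_add]
    congr 2
    ring
  have hz := riemannZeta_ne_zero_of_one_lt_re hs
  rw [riemannZeta_eq_inv_sub_mul h1] at hL hz
  have hz1 : riemannZeta₁ s ≠ 0 := right_ne_zero_of_mul hz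
  rw [h2, eq_div_iff (mul_ne_zero h0 hz1), ← mul_assoc, mul_comm _ s, ← hL, mul_inv, inv_inv,
    mul_assoc, inv_mul_cancel₀ hz1, mul_one]

end Pool.Agent.MP_a550d9_nt.H28
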