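import Pool.Agent.MP_a550d9_nt.H28.Spec

/-!
A one-sided bound for the Mertens function gives a lower bound for `(s - 1) ζ(s)` to the right of
the critical line.
-/

open Complex MeasureTheory

namespace Pool.Agent.MP_a550d9_nt.H28

namespace LowAux

/-- Laplace transform. -/
noncomputable def lp (f : ℝ → ℝ) (s : ℂ) : ℂ := ∫ y : ℝ, (f y : ℂ) * exp (-s * y)

theorem norm_term {f : ℝ → ℝ} (h0 : ∀ y, 0 ≤ f y) (s : ℂ) (y : ℝ) :
    ‖(f y : ℂ) * exp (-s * y)‖ = f y * Real.exp (-s.re * y) := by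
  rw [norm_mul, norm_exp, norm_real, Real.norm_of_nonneg (h0 y)]
  simp

theorem lp_int {f : ℝ → ℝ} (hm : Measurable f) (h0 : ∀ y, 0 ≤ f y) {s : ℂ}
    (hi : Integrable fun y : ℝ => f y * Real.exp (-s.re * y)) :
    Integrable fun y : ℝ => (f y : ℂ) * exp (-s * y) := by
  refine hi.mono' (Measurable.aestronglyMeasurable (by fun_prop)) ?_
  exact Filter.Eventually.of_forall fun y => (norm_term h0 s y).le

theorem lp_norm {f : ℝ → ℝ} (h0 : ∀ y, 0 ≤ f y) (s : ℂ) :
    ‖lp f s‖ ≤ ∫ y : ℝ, f y * Real.exp (-s.re * y) := by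
  refine (norm_integral_le_integral_norm _).trans (le_of_eq ?_)
  exact integral_congr_ae (Filter.Eventually.of_forall fun y => norm_term h0 s y)

theorem lp_real (f : ℝ → ℝ) (σ : ℝ) :
    lp f σ = ((∫ y : ℝ, f y * Real.exp (-σ * y) : ℝ) : ℂ) := by
  rw [← integral_complex_ofReal, lp]
  refine integral_congr_ae (Filter.Eventually.of_forall fun y => ?_)
  push_cast
  rfl

theorem lp_diff {f : ℝ → ℝ} (hm : Measurable f) (h0 : ∀ y, 0 ≤ f y) {a : ℝ}
    (hi : ∀ σ : ℝ, a < σ → Integrable fun y : ℝ => f y * Real.exp (-σ * y)) :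
    DifferentiableOn ℂ (lp f) {s : ℂ | a < s.re} := by
  have hn : Measurable fun y => (f y).toNNReal := hm.real_toNNReal
  have e : lp f = ProbabilityTheory.complexMGF (fun y : ℝ => -y)
      (volume.withDensity fun y => ((f y).toNNReal : ENNReal)) := by
    funext s
    rw [ProbabilityTheory.complexMGF, integral_withDensity_eq_integral_smul hn, lp]
    refine integral_congr_ae (Filter.Eventually.of_forall fun y => ?_)
    simp only [NNReal.smul_def, Real.coe_toNNReal _ (h0 y), real_smul, ofReal_neg, mul_neg,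
      neg_mul]
  rw [e]
  refine ProbabilityTheory.differentiableOn_complexMGF.mono fun s hs => ?_
  refine interior_maximal (t := Set.Ioi a) (fun σ hσ => ?_) isOpen_Ioi hs
  show Integrable _ _
  rw [integrable_withDensity_iff_integrable_coe_smul hn]
  refine (hi σ hσ).congr (Filter.Eventually.of_forall fun y => ?_)
  simp only [Real.coe_toNNReal _ (h0 y), smul_eq_mul, mul_neg, neg_mul]

/-- The majorant. -/
noncomputable def hh (K y : ℝ) : ℝ :=
  (Set.Ici (0 : ℝ)).indicator (fun y => K * (Real.exp (y / 2) * √(1 + y))) y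

theorem hh_meas (K : ℝ) : Measurable (hh K) :=
  Measurable.indicator (by fun_prop) measurableSet_Ici

theorem hh_nonneg {K : ℝ} (hK : 0 ≤ K) (y : ℝ) : 0 ≤ hh K y :=
  Set.indicator_nonneg (fun _ _ => by positivity) y

theorem hh_le {K d : ℝ} (hK : 0 ≤ K) (hd : 0 < d) (y : ℝ) :
    hh K y * Real.exp (-(1 / 2 + d) * y) ≤
      (Set.Ici (0 : ℝ)).indicator (fun y => K * √(1 + 1 / d) * Real.exp (-(d / 2) * y)) y := by
  unfold hh
  by_cases hy : y ∈ Set.Ici (0 : ℝ)
  · rw [Set.indicator_of_mem hy, Set.indicator_of_mem hy]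
    have hy' : 0 ≤ y := hy
    have h1 : 1 + y ≤ (1 + 1 / d) * Real.exp (d * y) := by
      have h2 := Real.add_one_le_exp (d * y)
      have h3 : (1 + 1 / d) * (d * y + 1) = 1 + y + (d * y + 1 / d) := by field_simp; ring
      have h4 : 0 ≤ d * y + 1 / d := by positivity
      have h5 := mul_le_mul_of_nonneg_left h2 (by positivity : 0 ≤ 1 + 1 / d)
      linarith
    have h2 : √(1 + y) ≤ √(1 + 1 / d) * Real.exp (d * y / 2) := by
      rw [Real.exp_half, ← Real.sqrt_mul (by positivity)]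
      exact Real.sqrt_le_sqrt h1
    have h3 : Real.exp (y / 2) * Real.exp (d * y / 2) * Real.exp (-(1 / 2 + d) * y) =
        Real.exp (-(d / 2) * y) := by
      rw [← Real.exp_add, ← Real.exp_add]
      congr 1
      ring
    calc K * (Real.exp (y / 2) * √(1 + y)) * Real.exp (-(1 / 2 + d) * y)
        ≤ K * (Real.exp (y / 2) * (√(1 + 1 / d) * Real.exp (d * y / 2))) *
          Real.exp (-(1 / 2 + d) * y) := by gcongr
      _ = _ := by rw [← h3]; ring
  · rw [Set.indicator_of_notMem hy, Set.indicator_of_notMem hy, zero_mul]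

theorem maj_int (K : ℝ) {d : ℝ} (hd : 0 < d) : Integrable
    ((Set.Ici (0 : ℝ)).indicator fun y => K * √(1 + 1 / d) * Real.exp (-(d / 2) * y)) := by
  rw [integrable_indicator_iff measurableSet_Ici, integrableOn_Ici_iff_integrableOn_Ioi]
  exact (integrableOn_exp_mul_Ioi (by linarith) 0).const_mul _

theorem hh_int {K : ℝ} (hK : 0 ≤ K) (σ : ℝ) (hσ : 1 / 2 < σ) :
    Integrable fun y : ℝ => hh K y * Real.exp (-σ * y) := by
  have hm := hh_meas K
  refine (maj_int K (sub_pos.2 hσ)).mono' (Measurable.aestronglyMeasurable (by fun_prop))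
    (Filter.Eventually.of_forall fun y => ?_)
  rw [Real.norm_of_nonneg (mul_nonneg (hh_nonneg hK y) (Real.exp_pos _).le)]
  have := hh_le hK (sub_pos.2 hσ) y
  rwa [add_sub_cancel] at this

theorem hh_bound {K d : ℝ} (hK : 0 ≤ K) (hd : 0 < d) (hd' : d ≤ 3 / 2) :
    d * √d * ∫ y : ℝ, hh K y * Real.exp (-(1 / 2 + d) * y) ≤ 4 * K := by
  have h1 := integral_mono (hh_int hK (1 / 2 + d) (by linarith)) (maj_int K hd) (hh_le hK hd)
  rw [integral_indicator measurableSet_Ici, integral_Ici_eq_integral_Ioi, integral_const_mul,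
    integral_exp_mul_Ioi (by linarith)] at h1
  have h2 : √d * √(1 + 1 / d) ≤ 2 := by
    rw [← Real.sqrt_mul hd.le, Real.sqrt_le_left (by norm_num)]
    have : d * (1 + 1 / d) = d + 1 := by field_simp
    linarith
  refine (mul_le_mul_of_nonneg_left h1 (by positivity)).trans ?_
  have h3 : d * √d * (K * √(1 + 1 / d) * (-Real.exp (-(d / 2) * 0) / -(d / 2))) =
      2 * K * (√d * √(1 + 1 / d)) := by
    rw [mul_zero, Real.exp_zero]
    field_simp
  rw [h3]
  nlinarith

theorem le_hh {e C : ℝ} (h : ∀ N : ℕ, e * Mer N ≤ C * √(N * (1 + Real.log N))) (y : ℝ) :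
    e * Me y ≤ hh (max C 0) y := by
  unfold hh
  by_cases hy : y ∈ Set.Ici (0 : ℝ)
  · rw [Set.indicator_of_mem hy]
    have hy' : 0 ≤ y := hy
    have h1 : (⌊Real.exp y⌋₊ : ℝ) ≤ Real.exp y := Nat.floor_le (Real.exp_pos y).le
    have h2 : (1 : ℝ) ≤ ⌊Real.exp y⌋₊ := by
      exact_mod_cast Nat.le_floor (by simpa using hy')
    have h3 : Real.log ⌊Real.exp y⌋₊ ≤ y := (Real.log_le_iff_le_exp (by linarith)).2 h1
    have h4 := Real.log_nonneg h2
    refine (h _).trans ?_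
    rw [Real.exp_half, ← Real.sqrt_mul (Real.exp_pos y).le]
    exact mul_le_mul (le_max_left _ _)
      (Real.sqrt_le_sqrt (mul_le_mul h1 (by linarith) (by linarith) (Real.exp_pos y).le))
      (Real.sqrt_nonneg _) (le_max_right _ _)
  · rw [Set.indicator_of_notMem hy, Me_neg (not_le.1 hy), mul_zero]

theorem ident {f g : ℝ → ℝ} {e a : ℝ} (lap : LAP) (hf : Measurable f) (hg : Measurable g)
    (f0 : ∀ y, 0 ≤ f y) (g0 : ∀ y, 0 ≤ g y) (hfg : ∀ y, f y = g y - e * Me y) (ha : a ≤ 1)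
    (fi : ∀ σ : ℝ, a < σ → Integrable fun y : ℝ => f y * Real.exp (-σ * y))
    (gi : ∀ σ : ℝ, a < σ → Integrable fun y : ℝ => g y * Real.exp (-σ * y)) :
    ∀ s : ℂ, a < s.re → (lp g s - lp f s) * (s * riemannZeta₁ s) = e * (s - 1) := by
  have hU : IsOpen {s : ℂ | a < s.re} := isOpen_lt continuous_const continuous_re
  have h1 : AnalyticOnNhd ℂ (fun s => (lp g s - lp f s) * (s * riemannZeta₁ s))
      {s : ℂ | a < s.re} :=
    (((lp_diff hg g0 gi).sub (lp_diff hf f0 fi)).mul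
      (differentiable_id.mul differentiable_riemannZeta₁).differentiableOn).analyticOnNhd hU
  have h2 : AnalyticOnNhd ℂ (fun s : ℂ => (e : ℂ) * (s - 1)) {s : ℂ | a < s.re} :=
    (Differentiable.differentiableOn (by fun_prop)).analyticOnNhd hU
  refine h1.eqOn_of_preconnected_of_eventuallyEq h2 (convex_halfSpace_re_gt a).isPreconnected
    (z₀ := 2) (by show a < (2 : ℂ).re; norm_num; linarith) ?_
  have hV : {s : ℂ | 1 < s.re} ∈ nhds (2 : ℂ) :=
    (isOpen_lt continuous_const continuous_re).mem_nhds (by show 1 < (2 : ℂ).re; norm_num)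
  filter_upwards [hV] with s hs
  have hs1 : s ≠ 1 := fun h => by simp [h] at hs
  have hs0 : s ≠ 0 := fun h => by norm_num [h] at hs
  have hz : riemannZeta₁ s ≠ 0 := fun h => riemannZeta_ne_zero_of_one_lt_re hs (by
    rw [riemannZeta_eq_inv_sub_mul hs1, h, mul_zero])
  have h3 : lp g s - lp f s = e * ((s - 1) / (s * riemannZeta₁ s)) := by
    rw [← (lap s hs).2, ← integral_const_mul, lp, lp,
      ← integral_sub (lp_int hg g0 (gi _ (ha.trans_lt hs))) (lp_int hf f0 (fi _ (ha.trans_lt hs)))]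
    refine integral_congr_ae (Filter.Eventually.of_forall fun y => ?_)
    simp only [hfg]
    push_cast
    ring
  rw [h3, mul_assoc, div_mul_cancel₀ _ (mul_ne_zero hs0 hz)]

theorem int_up {f : ℝ → ℝ} (hf : Measurable f) (f0 : ∀ y, 0 ≤ f y) (fn : ∀ y, y < 0 → f y = 0)
    {σ t : ℝ} (h : σ ≤ t) (hi : Integrable fun y : ℝ => f y * Real.exp (-σ * y)) :
    Integrable fun y : ℝ => f y * Real.exp (-t * y) := by
  refine hi.mono' (Measurable.aestronglyMeasurable (by fun_prop))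
    (Filter.Eventually.of_forall fun y => ?_)
  rw [Real.norm_of_nonneg (mul_nonneg (f0 y) (Real.exp_pos _).le)]
  rcases lt_or_ge y 0 with hy | hy
  · simp [fn y hy]
  · exact mul_le_mul_of_nonneg_left (Real.exp_le_exp.2 (by nlinarith)) (f0 y)

theorem int_half {f g : ℝ → ℝ} {e : ℝ} (lap : LAP) (lan : LAN) (nz : NZ) (hf : Measurable f)
    (hg : Measurable g) (f0 : ∀ y, 0 ≤ f y) (g0 : ∀ y, 0 ≤ g y) (fn : ∀ y, y < 0 → f y = 0)
    (hfg : ∀ y, f y = g y - e * Me y)
    (gi : ∀ σ : ℝ, 1 / 2 < σ → Integrable fun y : ℝ => g y * Real.exp (-σ * y)) :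
    ∀ σ : ℝ, 1 / 2 < σ → Integrable fun y : ℝ => f y * Real.exp (-σ * y) := by
  set A : Set ℝ := {σ | 1 / 2 ≤ σ ∧ ∀ t : ℝ, σ < t → Integrable fun y : ℝ =>
    f y * Real.exp (-t * y)} with hA
  have h1 : (1 : ℝ) ∈ A := by
    refine ⟨by norm_num, fun t ht => ?_⟩
    have h2 := ((lap t (by simpa using ht)).1.re).const_mul e
    refine ((gi t (by linarith)).sub h2).congr (Filter.Eventually.of_forall fun y => ?_)
    have h3 : ((Me y : ℂ) * exp (-(t : ℂ) * y)) = ((Me y * Real.exp (-t * y) : ℝ) : ℂ) := by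
      push_cast; rfl
    simp only [Pi.sub_apply, RCLike.re_to_complex, h3, ofReal_re, hfg]
    ring
  have hb : BddBelow A := ⟨1 / 2, fun σ hσ => hσ.1⟩
  have ha1 : sInf A ≤ 1 := csInf_le hb h1
  have ha2 : 1 / 2 ≤ sInf A := le_csInf ⟨1, h1⟩ fun σ hσ => hσ.1
  have fi : ∀ t : ℝ, sInf A < t → Integrable fun y : ℝ => f y * Real.exp (-t * y) := fun t ht => by
    obtain ⟨σ, hσ, h⟩ := exists_lt_of_csInf_lt ⟨1, h1⟩ ht
    exact hσ.2 t h
  rcases ha2.eq_or_lt with h | h
  · rwa [← h] at fi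
  exfalso
  generalize ha : sInf A = a at *
  have hid := ident lap hf hg f0 g0 hfg ha1 fi fun σ hσ => gi σ (h.trans hσ)
  have hc : Continuous fun s : ℂ => s * riemannZeta₁ s :=
    (differentiable_id.mul differentiable_riemannZeta₁).continuous
  have hne : (a : ℂ) * riemannZeta₁ a ≠ 0 :=
    mul_ne_zero (ofReal_ne_zero.2 (by linarith)) (nz a (by linarith) (by linarith))
  obtain ⟨r₀, hr₀, hr⟩ := Metric.eventually_nhds_iff_ball.1 (hc.continuousAt.eventually_ne hne)
  have hr1 : 0 < min r₀ (a - 1 / 2) := lt_min hr₀ (by linarith)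
  have hr2 : min r₀ (a - 1 / 2) ≤ r₀ := min_le_left _ _
  have hr3 : min r₀ (a - 1 / 2) ≤ a - 1 / 2 := min_le_right _ _
  generalize min r₀ (a - 1 / 2) = r at *
  have hsub : Metric.ball (a : ℂ) r ⊆ {s : ℂ | 1 / 2 < s.re} := fun s hs => by
    have h2 := (abs_re_le_norm (s - a)).trans_lt (mem_ball_iff_norm.1 hs)
    rw [sub_re, ofReal_re, abs_lt] at h2
    show 1 / 2 < s.re
    linarith [h2.1]
  have hne' : ∀ s ∈ Metric.ball (a : ℂ) r, s * riemannZeta₁ s ≠ 0 := fun s hs =>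
    hr s (Metric.ball_subset_ball hr2 hs)
  have key := lan f a r (fun s => lp g s - e * (s - 1) / (s * riemannZeta₁ s)) hf f0 fn hr1 fi
    (((lp_diff hg g0 gi).mono hsub).sub (DifferentiableOn.div (by fun_prop)
      (differentiable_id.mul differentiable_riemannZeta₁).differentiableOn hne'))
    fun s hs hs' => by
      show lp g s - e * (s - 1) / (s * riemannZeta₁ s) = lp f s
      rw [← hid s hs', mul_div_cancel_right₀ _ (hne' s hs), sub_sub_cancel]
  have hmem : a - r / 4 ∈ A := ⟨by linarith, fun t ht => int_up hf f0 fn ht.le key⟩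
  have := csInf_le hb hmem
  linarith

theorem low_real (nz : NZ) : ∃ m : ℝ, 0 < m ∧ ∀ σ : ℝ, 1 / 2 ≤ σ → σ ≤ 2 →
    m ≤ ‖(σ : ℂ) * riemannZeta₁ σ‖ := by
  have hc : Continuous fun σ : ℝ => ‖(σ : ℂ) * riemannZeta₁ σ‖ :=
    (continuous_ofReal.mul
      (differentiable_riemannZeta₁.continuous.comp continuous_ofReal)).norm
  obtain ⟨x, hx, h⟩ := (isCompact_Icc (a := (1 / 2 : ℝ)) (b := 2)).exists_isMinOn
    ⟨1, by norm_num, by norm_num⟩ hc.continuousOn
  exact ⟨_, norm_pos_iff.2 (mul_ne_zero (ofReal_ne_zero.2 (by linarith [hx.1]))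
    (nz x (by linarith [hx.1]) hx.2)), fun σ h1 h2 => h ⟨h1, h2⟩⟩

theorem near_one : ∃ r : ℝ, 0 < r ∧ ∀ s : ℂ, ‖s - 1‖ < r → 1 / 2 ≤ ‖riemannZeta₁ s‖ := by
  have hc : ContinuousAt (fun s : ℂ => ‖riemannZeta₁ s‖) 1 :=
    differentiable_riemannZeta₁.continuous.norm.continuousAt
  have h := hc.eventually (lt_mem_nhds (a := (1 / 2 : ℝ)) (by norm_num))
  obtain ⟨r, hr, h⟩ := Metric.eventually_nhds_iff_ball.1 h
  exact ⟨r, hr, fun s hs => (h s (mem_ball_iff_norm.2 hs)).le⟩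

end LowAux

open LowAux in
theorem low : LOW := by
  rintro lap lan nz ⟨e, C, he, hC⟩
  have hK : 0 ≤ max C 0 := le_max_right _ _
  have hle := le_hh hC
  generalize max C 0 = K at hK hle
  have hg := hh_meas K
  have g0 := hh_nonneg hK
  have gi := hh_int hK
  obtain ⟨f, hfg⟩ : ∃ f : ℝ → ℝ, ∀ y, f y = hh K y - e * Me y := ⟨_, fun _ => rfl⟩
  have hf : Measurable f := by
    rw [funext hfg]
    exact hg.sub (measurable_Me.const_mul e)
  have f0 : ∀ y, 0 ≤ f y := fun y => by rw [hfg]; linarith [hle y]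
  have fn : ∀ y, y < 0 → f y = 0 := fun y hy => by
    rw [hfg, Me_neg hy, hh, Set.indicator_of_notMem (show y ∉ Set.Ici 0 from not_le.2 hy),
      mul_zero, sub_zero]
  have fi := int_half lap lan nz hf hg f0 g0 fn hfg gi
  have hid := ident lap hf hg f0 g0 hfg (by norm_num) fi gi
  have he1 : ‖(e : ℂ)‖ = 1 := by rcases he with rfl | rfl <;> simp
  obtain ⟨m, hm, hmz⟩ := low_real nz
  obtain ⟨r, hr, hrz⟩ := near_one
  refine ⟨(8 * K + 3 / m) * (1 + 1 / r) + 6, by positivity, fun w h1 h2 => ?_⟩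
  obtain ⟨d, hd⟩ : ∃ d : ℝ, d = -w.im := ⟨_, rfl⟩
  rw [← hd, z1]
  have hre : (1 / 2 + I * w : ℂ).re = 1 / 2 + d := by simp [hd]
  generalize (1 / 2 + I * w : ℂ) = s at hre
  have hd0 : 0 < d := by linarith
  have hd1 : d ≤ 3 / 2 := by linarith
  have hsq : √d ≤ 2 := by rw [Real.sqrt_le_left (by norm_num)]; linarith
  have hdd : d * √d ≤ 3 := by nlinarith [Real.sqrt_nonneg d]
  have hD : 0 ≤ 8 * K + 3 / m := by positivity
  rcases lt_or_ge ‖s - 1‖ r with hs | hs
  · have := hrz s hs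
    have h3 : 0 ≤ (8 * K + 3 / m) * (1 + 1 / r) * ‖riemannZeta₁ s‖ := by positivity
    nlinarith
  have hb := hh_bound hK hd0 hd1
  have hng := lp_norm g0 s
  have hnf := lp_norm f0 s
  rw [hre] at hng hnf
  have h3 := congrArg norm (hid ((1 / 2 + d : ℝ) : ℂ) (by rw [ofReal_re]; linarith))
  rw [norm_mul, norm_mul (e : ℂ), he1, one_mul, lp_real, lp_real, ← ofReal_sub, norm_real,
    ← ofReal_one, ← ofReal_sub, norm_real, Real.norm_eq_abs, Real.norm_eq_abs] at h3
  have h4 := hmz (1 / 2 + d) (by linarith) (by linarith)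
  generalize ∫ y : ℝ, hh K y * Real.exp (-(1 / 2 + d) * y) = G at *
  generalize ∫ y : ℝ, f y * Real.exp (-(1 / 2 + d) * y) = F at *
  have h5 : |1 / 2 + d - 1| ≤ 1 := abs_le.2 ⟨by linarith, by linarith⟩
  have h6 : |G - F| ≤ 1 / m := by
    rw [le_div_iff₀ hm]
    exact (mul_le_mul_of_nonneg_left h4 (abs_nonneg _)).trans (h3.le.trans h5)
  have h7 : ‖lp (hh K) s - lp f s‖ ≤ 2 * G + 1 / m := by
    linarith [norm_sub_le (lp (hh K) s) (lp f s), (abs_le.1 h6).1]
  have h8 : d * √d * ‖lp (hh K) s - lp f s‖ ≤ 8 * K + 3 / m := by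
    have h9 := mul_le_mul_of_nonneg_left h7 (by positivity : 0 ≤ d * √d)
    have h10 := mul_le_mul_of_nonneg_right hdd (by positivity : 0 ≤ 1 / m)
    have h11 : 3 / m = 3 * (1 / m) := by ring
    nlinarith
  have h9 := congrArg norm (hid s (by linarith))
  rw [norm_mul, norm_mul (e : ℂ), he1, one_mul, norm_mul] at h9
  have h10 : ‖s‖ ≤ (1 + 1 / r) * ‖s - 1‖ := by
    have h11 := norm_add_le (s - 1) 1
    rw [sub_add_cancel, norm_one] at h11
    have h12 : 1 ≤ 1 / r * ‖s - 1‖ := by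
      rw [one_div, ← div_eq_inv_mul, le_div_iff₀ hr, one_mul]
      exact hs
    linarith
  have h11 : d * √d * ‖s - 1‖ ≤ (8 * K + 3 / m) * (1 + 1 / r) * ‖riemannZeta₁ s‖ * ‖s - 1‖ := by
    calc d * √d * ‖s - 1‖ = d * √d * ‖lp (hh K) s - lp f s‖ * (‖s‖ * ‖riemannZeta₁ s‖) := by
          rw [← h9]; ring
      _ ≤ (8 * K + 3 / m) * ((1 + 1 / r) * ‖s - 1‖ * ‖riemannZeta₁ s‖) := by gcongr
      _ = _ := by ring
  have h12 := le_of_mul_le_mul_right h11 (hr.trans_le hs)
  nlinarith [norm_nonneg (riemannZeta₁ s)]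

end Pool.Agent.MP_a550d9_nt.H28
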