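import Pool.Agent.MP_a550d9_nt.H28.Spec

/-! The residues at the zeros between `Y` and `Y ^ 10` have total size at least `c log Y`. -/

open Complex MeasureTheory Filter Topology

namespace Pool.Agent.MP_a550d9_nt.H28

namespace MassAux

theorem exp_bound {η : ℝ} (h0 : 0 < η) (h1 : η ≤ 1) (v : ℝ) :
    ‖exp (η * (1 / 2 + I * v)) - 1‖ ≤ 2 * η * (1 + |v|) := by
  have e : exp (η * (1 / 2 + I * v)) - 1 =
      ((Real.exp (η / 2) : ℝ) : ℂ) * (exp (I * (η * v : ℝ)) - 1) +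
        ((Real.exp (η / 2) - 1 : ℝ) : ℂ) := by
    push_cast
    rw [mul_sub, ← exp_add]
    ring_nf
  have h2 : |Real.exp (η / 2) - 1| ≤ η := by
    have := Real.abs_exp_sub_one_le (x := η / 2) (by rw [abs_of_pos (by positivity)]; linarith)
    rw [abs_of_pos (show 0 < η / 2 by positivity)] at this
    linarith
  have h3 : Real.exp (η / 2) ≤ 2 := by linarith [le_abs_self (Real.exp (η / 2) - 1)]
  have h4 : ‖exp (I * (η * v : ℝ)) - 1‖ ≤ η * |v| := by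
    have := Real.norm_exp_I_mul_ofReal_sub_one_le (x := η * v)
    rwa [Real.norm_eq_abs, abs_mul, abs_of_pos h0] at this
  rw [e]
  refine (norm_add_le _ _).trans ?_
  rw [norm_mul, norm_real, norm_real, Real.norm_eq_abs, Real.norm_eq_abs,
    abs_of_pos (Real.exp_pos _)]
  have h5 : Real.exp (η / 2) * ‖exp (I * (η * v : ℝ)) - 1‖ ≤ 2 * (η * |v|) :=
    mul_le_mul h3 h4 (norm_nonneg _) (by norm_num)
  nlinarith

theorem tele_step {x : ℝ} (hx : 0 ≤ x) :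
    x * Real.exp (-(x ^ 2 / 4)) ≤ 12 * (x / (1 + x) - x / 2 / (1 + x / 2)) := by
  have h1 : Real.exp (-(x ^ 2 / 4)) ≤ 12 / ((1 + x) * (2 + x)) := by
    rw [Real.exp_neg, inv_eq_one_div, div_le_div_iff₀ (Real.exp_pos _) (by positivity)]
    nlinarith [Real.add_one_le_exp (x ^ 2 / 4), sq_nonneg (x - 1)]
  calc _ ≤ x * (12 / ((1 + x) * (2 + x))) := by gcongr
    _ = _ := by field_simp; ring

theorem tele {a : ℝ} (ha : 0 ≤ a) (K : ℕ) :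
    ∑ k ∈ Finset.range K, a / 2 ^ k * Real.exp (-((a / 2 ^ k) ^ 2 / 4)) ≤ 12 := by
  have h : ∀ K : ℕ, ∑ k ∈ Finset.range K, a / 2 ^ k * Real.exp (-((a / 2 ^ k) ^ 2 / 4)) ≤
      12 * (a / (1 + a) - a / 2 ^ K / (1 + a / 2 ^ K)) := by
    intro K
    induction K with
    | zero => simp
    | succ K ih =>
      rw [Finset.sum_range_succ]
      have h1 := tele_step (x := a / 2 ^ K) (by positivity)
      rw [show a / 2 ^ (K + 1) = a / 2 ^ K / 2 by rw [pow_succ, div_div]]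
      linarith
  have h1 : a / (1 + a) ≤ 1 := by rw [div_le_one (by positivity)]; linarith
  have h2 : 0 ≤ a / 2 ^ K / (1 + a / 2 ^ K) := by positivity
  linarith [h K]

theorem cz_le {C : ℝ} (h : ZD C) {v : ℝ} (hv : z1 v = 0) : ‖cz v‖ ≤ C * (1 + |v|) ^ 2 := by
  have h1 := h.res v hv
  have h2 : 0 < ‖deriv z1 v‖ := by
    rcases (norm_nonneg (deriv z1 v)).eq_or_lt with e | e
    · rw [← e] at h1; linarith
    · exact e
  rw [norm_cz, inv_eq_one_div, div_le_iff₀ h2]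
  exact h1

/-- the weight -/
noncomputable def wt (Y v : ℝ) : ℝ := ‖cz v‖ * Real.exp (-(v ^ 2 / (2 * (Y ^ 9) ^ 2)))

theorem wt_nonneg (Y v : ℝ) : 0 ≤ wt Y v := by unfold wt; positivity

theorem wt_neg (Y v : ℝ) : wt Y (-v) = wt Y v := by
  rw [wt, wt, cz_neg, norm_conj, neg_sq]

theorem low_part {C Y τ : ℝ} (h : ZD C) (hY : 2 ≤ Y) (h1 : Y ^ 7 ≤ τ) (u : ℝ) (hη : 8 / τ ≤ 1) :
    ∑ v ∈ (ZS (Y ^ 10)).filter (fun v => ¬ Y ≤ |v|),
      ‖cz v * (exp ((8 / τ : ℝ) * (1 / 2 + I * v)) - 1) * Ew τ u v‖ ≤ 1024 * C ^ 2 / Y := by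
  have hC := h.pos
  have hY0 : 0 < Y := by linarith
  have hτ : 0 < τ := lt_of_lt_of_le (by positivity) h1
  have hs := h.sum ((ZS (Y ^ 10)).filter (fun v => ¬ Y ≤ |v|))
    fun v hv => (mem_ZS.1 (Finset.mem_filter.1 hv).1).1
  calc _ ≤ ∑ v ∈ (ZS (Y ^ 10)).filter (fun v => ¬ Y ≤ |v|),
        (1024 * C / Y) * (1 / (1 + |v|) ^ 3) := by
        refine Finset.sum_le_sum fun v hv => ?_
        obtain ⟨hv1, hv2⟩ := Finset.mem_filter.1 hv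
        have a1 := cz_le h (mem_ZS.1 hv1).1
        have a2 := exp_bound (η := 8 / τ) (by positivity) hη v
        have a3 : ‖Ew τ u v‖ ≤ 1 := by
          rw [norm_Ew_real, Real.exp_le_one_iff, neg_nonpos]; positivity
        have a0 := abs_nonneg v
        have a4 : 1 + |v| ≤ 2 * Y := by linarith [not_le.1 hv2]
        have a5 : (1 + |v|) ^ 6 ≤ (2 * Y) ^ 6 := by gcongr
        rw [norm_mul, norm_mul]
        calc _ ≤ C * (1 + |v|) ^ 2 * (2 * (8 / τ) * (1 + |v|)) * 1 := by gcongr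
          _ ≤ C * (1 + |v|) ^ 2 * (2 * (8 / Y ^ 7) * (1 + |v|)) * 1 := by gcongr
          _ = 16 * C / Y ^ 7 * (1 + |v|) ^ 6 * (1 / (1 + |v|) ^ 3) := by field_simp; ring
          _ ≤ 16 * C / Y ^ 7 * (2 * Y) ^ 6 * (1 / (1 + |v|) ^ 3) := by gcongr
          _ = _ := by field_simp; ring
    _ = (1024 * C / Y) * ∑ v ∈ (ZS (Y ^ 10)).filter (fun v => ¬ Y ≤ |v|), 1 / (1 + |v|) ^ 3 := by
        rw [Finset.mul_sum]
    _ ≤ (1024 * C / Y) * C := by gcongr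
    _ = _ := by ring

theorem high_term {Y τ v : ℝ} (hY : 2 ≤ Y) (hτ : 0 < τ) (h2 : τ ≤ Y ^ 8) (u : ℝ) (hη : 8 / τ ≤ 1)
    (hv : Y ≤ |v|) :
    ‖cz v * (exp ((8 / τ : ℝ) * (1 / 2 + I * v)) - 1) * Ew τ u v‖ ≤
      32 * wt Y v * (|v| / τ * Real.exp (-((|v| / τ) ^ 2 / 4))) := by
  have hY0 : 0 < Y := by linarith
  have a2 := exp_bound (η := 8 / τ) (by positivity) hη v
  have a3 : 2 * (8 / τ) * (1 + |v|) ≤ 32 * (|v| / τ) := by
    calc _ ≤ 2 * (8 / τ) * (2 * |v|) := by gcongr; linarith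
      _ = _ := by ring
  have a4 : ‖Ew τ u v‖ ≤
      Real.exp (-(v ^ 2 / (2 * (Y ^ 9) ^ 2))) * Real.exp (-((|v| / τ) ^ 2 / 4)) := by
    rw [norm_Ew_real, ← Real.exp_add, Real.exp_le_exp, div_pow, sq_abs]
    have b1 : 4 * τ ^ 2 ≤ 2 * (Y ^ 9) ^ 2 := by
      have b2 : τ ^ 2 ≤ (Y ^ 8) ^ 2 := by gcongr
      have b3 : 2 ≤ Y ^ 2 := by nlinarith
      have b4 : 0 < (Y ^ 8) ^ 2 := by positivity
      calc 4 * τ ^ 2 ≤ 2 * (2 * (Y ^ 8) ^ 2) := by linarith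
        _ ≤ 2 * (Y ^ 2 * (Y ^ 8) ^ 2) := by gcongr
        _ = _ := by ring
    have b5 : v ^ 2 / (2 * (Y ^ 9) ^ 2) ≤ v ^ 2 / (4 * τ ^ 2) := by gcongr
    have b6 : v ^ 2 / (2 * τ ^ 2) = v ^ 2 / (4 * τ ^ 2) + v ^ 2 / τ ^ 2 / 4 := by
      field_simp; ring
    linarith
  rw [norm_mul, norm_mul]
  calc _ ≤ ‖cz v‖ * (32 * (|v| / τ)) *
        (Real.exp (-(v ^ 2 / (2 * (Y ^ 9) ^ 2))) * Real.exp (-((|v| / τ) ^ 2 / 4))) := by
        gcongr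
        exact a2.trans a3
    _ = _ := by rw [wt]; ring

theorem one_scale {C C' T₀ Y τ : ℝ} (h : ZD C) (hF : FA C')
    (hB : ∀ T : ℝ, T₀ ≤ T → 13 / 20 ≤ IA (8 / T) T (-4 / T))
    (hY : 2 ≤ Y) (hT : T₀ ≤ Y) (h1 : Y ^ 7 ≤ τ) (h2 : τ ≤ Y ^ 8)
    (e1 : 1024 * C ^ 2 / Y ≤ 1 / 10)
    (e2 : |C'| * (8 / Y + 4 ^ 12 * ((Y ^ 4 / 4) ^ 12 * Real.exp (-(Y ^ 4 / 4)))) ≤ 1 / 20) :
    1 / 2 ≤ ∑ v ∈ (ZS (Y ^ 10)).filter (fun v => Y ≤ |v|),
      32 * wt Y v * (|v| / τ * Real.exp (-((|v| / τ) ^ 2 / 4))) := by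
  have hY0 : 0 < Y := by linarith
  have hY7 : Y ≤ Y ^ 7 := le_self_pow₀ (by linarith) (by norm_num)
  have h8 : (8 : ℝ) ≤ τ := by
    have : (2 : ℝ) ^ 7 ≤ Y ^ 7 := by gcongr
    linarith
  have hτ : 0 < τ := by linarith
  have hη : 8 / τ ≤ 1 := by rw [div_le_one hτ]; exact h8
  have hu : -1 ≤ -4 / τ := by rw [le_div_iff₀ hτ]; linarith
  have f1 := hF (8 / τ) τ (-4 / τ) (Y ^ 10) (by positivity) hη (by linarith) hu (by positivity)
  have f2 := hB τ (by linarith)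
  have f3 : C' * (8 / τ + τ ^ 6 * Real.exp (-((Y ^ 10) ^ 2 / (4 * τ ^ 2)))) ≤ 1 / 20 := by
    refine le_trans ?_ e2
    have b1 : Y ^ 4 / 4 ≤ (Y ^ 10) ^ 2 / (4 * τ ^ 2) := by
      calc Y ^ 4 / 4 = (Y ^ 10) ^ 2 / (4 * (Y ^ 8) ^ 2) := by field_simp
        _ ≤ _ := by gcongr
    have b2 : 8 / τ ≤ 8 / Y := by gcongr; linarith
    have b3 : τ ^ 6 * Real.exp (-((Y ^ 10) ^ 2 / (4 * τ ^ 2))) ≤
        4 ^ 12 * ((Y ^ 4 / 4) ^ 12 * Real.exp (-(Y ^ 4 / 4))) := by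
      calc _ ≤ (Y ^ 8) ^ 6 * Real.exp (-(Y ^ 4 / 4)) := by gcongr
        _ = _ := by ring
    calc _ ≤ |C'| * (8 / τ + τ ^ 6 * Real.exp (-((Y ^ 10) ^ 2 / (4 * τ ^ 2)))) :=
          mul_le_mul_of_nonneg_right (le_abs_self _) (by positivity)
      _ ≤ _ := by gcongr
  set g : ℝ → ℂ := fun v => cz v * (exp ((8 / τ : ℝ) * (1 / 2 + I * v)) - 1) * Ew τ (-4 / τ) v
    with hg
  have f4 : IA (8 / τ) τ (-4 / τ) ≤ 1 / 20 + ∑ v ∈ ZS (Y ^ 10), ‖g v‖ := by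
    have b1 := norm_add_le ((IA (8 / τ) τ (-4 / τ) : ℂ) - ∑ v ∈ ZS (Y ^ 10), g v)
      (∑ v ∈ ZS (Y ^ 10), g v)
    rw [sub_add_cancel, norm_real, Real.norm_eq_abs] at b1
    have b2 := norm_sum_le (ZS (Y ^ 10)) g
    have b3 := le_abs_self (IA (8 / τ) τ (-4 / τ))
    linarith
  rw [← Finset.sum_filter_add_sum_filter_not _ (fun v => Y ≤ |v|)] at f4
  have f5 := low_part h hY h1 (-4 / τ) hη
  have f6 : ∑ v ∈ (ZS (Y ^ 10)).filter (fun v => Y ≤ |v|), ‖g v‖ ≤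
      ∑ v ∈ (ZS (Y ^ 10)).filter (fun v => Y ≤ |v|),
        32 * wt Y v * (|v| / τ * Real.exp (-((|v| / τ) ^ 2 / 4))) :=
    Finset.sum_le_sum fun v hv => high_term hY hτ h2 _ hη (Finset.mem_filter.1 hv).2
  linarith

theorem symm_sum {Y : ℝ} (hY : 0 < Y) :
    ∑ v ∈ (ZS (Y ^ 10)).filter (fun v => Y ≤ |v|), wt Y v ≤
      2 * ∑ v ∈ (ZS (Y ^ 10)).filter (fun v => Y ≤ v), wt Y v := by
  set A := (ZS (Y ^ 10)).filter (fun v => Y ≤ v) with hA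
  have hsub : (ZS (Y ^ 10)).filter (fun v => Y ≤ |v|) ⊆ A ∪ A.image (fun v => -v) := by
    intro v hv
    obtain ⟨h1, h2⟩ := Finset.mem_filter.1 hv
    obtain ⟨h3, h4⟩ := mem_ZS.1 h1
    rcases le_total 0 v with h | h
    · rw [abs_of_nonneg h] at h2
      exact Finset.mem_union_left _ (Finset.mem_filter.2 ⟨h1, h2⟩)
    · rw [abs_of_nonpos h] at h2
      refine Finset.mem_union_right _ (Finset.mem_image.2 ⟨-v, ?_, neg_neg v⟩)
      refine Finset.mem_filter.2 ⟨mem_ZS.2 ⟨?_, by rwa [abs_neg]⟩, h2⟩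
      rw [z1_neg, h3, map_zero]
  have h1 := Finset.sum_le_sum_of_subset_of_nonneg hsub (f := wt Y) fun v _ _ => wt_nonneg Y v
  have h2 := Finset.sum_union_inter (s₁ := A) (s₂ := A.image (fun v => -v)) (f := wt Y)
  have h3 : 0 ≤ ∑ v ∈ A ∩ A.image (fun v => -v), wt Y v :=
    Finset.sum_nonneg fun v _ => wt_nonneg Y v
  have h4 : ∑ v ∈ A.image (fun v => -v), wt Y v = ∑ v ∈ A, wt Y v := by
    rw [Finset.sum_image fun a _ b _ e => neg_injective e]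
    exact Finset.sum_congr rfl fun v _ => wt_neg Y v
  linarith

end MassAux

open MassAux in
theorem mass : MASS := by
  rintro ⟨T₀, hB⟩ C C' h hF
  have t1 : Tendsto (fun Y : ℝ => 1024 * C ^ 2 / Y) atTop (𝓝 0) :=
    tendsto_const_nhds.div_atTop tendsto_id
  have t2 : Tendsto (fun Y : ℝ =>
      |C'| * (8 / Y + 4 ^ 12 * ((Y ^ 4 / 4) ^ 12 * Real.exp (-(Y ^ 4 / 4))))) atTop (𝓝 0) := by
    have a1 : Tendsto (fun Y : ℝ => 8 / Y) atTop (𝓝 0) := tendsto_const_nhds.div_atTop tendsto_id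
    have a2 : Tendsto (fun Y : ℝ => Y ^ 4 / 4) atTop atTop :=
      (tendsto_pow_atTop (by norm_num)).atTop_div_const (by norm_num)
    have a3 := (Real.tendsto_pow_mul_exp_neg_atTop_nhds_zero 12).comp a2
    simpa using (a1.add (a3.const_mul (4 ^ 12))).const_mul |C'|
  obtain ⟨Y₀, hY₀⟩ := eventually_atTop.1 (((t1.eventually (ge_mem_nhds (show (0 : ℝ) < 1 / 10 by
    norm_num))).and (t2.eventually (ge_mem_nhds (show (0 : ℝ) < 1 / 20 by norm_num)))).and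
    ((eventually_ge_atTop (2 : ℝ)).and (eventually_ge_atTop T₀)))
  refine ⟨1 / 3072, Y₀, by norm_num, fun Y hY => ?_⟩
  obtain ⟨⟨e1, e2⟩, h2, hT⟩ := hY₀ Y hY
  have hY0 : 0 < Y := by linarith
  set K := Nat.log 2 ⌊Y⌋₊ with hK
  have hfl : 2 ≤ ⌊Y⌋₊ := Nat.le_floor (by exact_mod_cast h2)
  have k1 : (2 : ℝ) ^ K ≤ Y := by
    have : 2 ^ K ≤ ⌊Y⌋₊ := Nat.pow_log_le_self 2 (by omega)
    exact le_trans (by exact_mod_cast this) (Nat.floor_le hY0.le)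
  have k2 : Y ≤ 2 ^ (K + 1) := by
    have a1 : ⌊Y⌋₊ + 1 ≤ 2 ^ (K + 1) := Nat.lt_pow_succ_log_self (by norm_num) _
    have a2 : ((⌊Y⌋₊ + 1 : ℕ) : ℝ) ≤ 2 ^ (K + 1) := by exact_mod_cast a1
    push_cast at a2
    linarith [Nat.lt_floor_add_one Y]
  have k3 : 1 ≤ K := Nat.le_log_of_pow_le (by norm_num) (by simpa using hfl)
  have k4 : Real.log Y ≤ 2 * K := by
    have a1 := Real.log_le_log hY0 k2
    rw [Real.log_pow] at a1
    have a2 : Real.log 2 ≤ 1 := by linarith [Real.log_two_lt_d9]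
    have a3 : (1 : ℝ) ≤ K := by exact_mod_cast k3
    push_cast at a1
    nlinarith
  have s1 : ∀ k ∈ Finset.range K, (1 / 2 : ℝ) ≤
      ∑ v ∈ (ZS (Y ^ 10)).filter (fun v => Y ≤ |v|), 32 * wt Y v *
        (|v| / Y ^ 7 / 2 ^ k * Real.exp (-((|v| / Y ^ 7 / 2 ^ k) ^ 2 / 4))) := by
    intro k hk
    have a1 : (2 : ℝ) ^ k ≤ Y :=
      le_trans (pow_le_pow_right₀ (by norm_num) (Finset.mem_range.1 hk).le) k1
    have a2 : (1 : ℝ) ≤ 2 ^ k := one_le_pow₀ (by norm_num)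
    have := one_scale (τ := Y ^ 7 * 2 ^ k) h hF (fun T hT => (hB T hT).1) h2 hT
      (le_mul_of_one_le_right (by positivity) a2)
      (by rw [show Y ^ 8 = Y ^ 7 * Y by ring]; gcongr) e1 e2
    simpa only [div_div] using this
  have s2 := Finset.sum_le_sum s1
  rw [Finset.sum_comm, Finset.sum_const, Finset.card_range, nsmul_eq_mul] at s2
  have s3 : ∑ v ∈ (ZS (Y ^ 10)).filter (fun v => Y ≤ |v|), ∑ k ∈ Finset.range K, 32 * wt Y v *
        (|v| / Y ^ 7 / 2 ^ k * Real.exp (-((|v| / Y ^ 7 / 2 ^ k) ^ 2 / 4))) ≤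
      384 * ∑ v ∈ (ZS (Y ^ 10)).filter (fun v => Y ≤ |v|), wt Y v := by
    rw [Finset.mul_sum]
    refine Finset.sum_le_sum fun v _ => ?_
    rw [← Finset.mul_sum]
    have a1 := tele (a := |v| / Y ^ 7) (by positivity) K
    have a2 := wt_nonneg Y v
    calc _ ≤ 32 * wt Y v * 12 := by gcongr
      _ = _ := by ring
  have s4 := symm_sum hY0
  change _ ≤ ∑ v ∈ (ZS (Y ^ 10)).filter (fun v => Y ≤ v), wt Y v
  linarith

end Pool.Agent.MP_a550d9_nt.H28
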