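import Pool.Agent.MP_a550d9_nt.H28.Spec

/-!
Heights at which `z1` is not small.
-/

open Complex Metric

namespace Pool.Agent.MP_a550d9_nt.H28

namespace SIDa

theorem pigeon (V : Finset ℝ) (x r : ℝ) (hr : 0 < r) :
    ∃ k : ℕ, k ≤ V.card ∧ ∀ v ∈ V, r ≤ |v - (x + 2 * r * k)| := by
  classical
  by_contra H
  push Not at H
  choose! g hg using H
  have h1 : (Finset.range (V.card + 1)).card ≤ V.card := by
    refine Finset.card_le_card_of_injOn g (fun k hk => ?_) ?_
    · exact (hg k (Nat.lt_succ_iff.1 (Finset.mem_range.1 hk))).1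
    · intro k hk l hl e
      have a := abs_lt.1 (hg k (Nat.lt_succ_iff.1 (Finset.mem_range.1 hk))).2
      have b := abs_lt.1 (hg l (Nat.lt_succ_iff.1 (Finset.mem_range.1 hl))).2
      rw [e] at a
      have h2 : (k : ℝ) < l + 1 := by
        by_contra h
        push Not at h
        nlinarith [a.1, b.2]
      have h3 : (l : ℝ) < k + 1 := by
        by_contra h
        push Not at h
        nlinarith [a.2, b.1]
      have h4 : k < l + 1 := by exact_mod_cast h2
      have h5 : l < k + 1 := by exact_mod_cast h3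
      omega
  simp at h1

theorem harn (f : ℂ → ℂ) (c w : ℂ) (s A B : ℝ) (hs : 0 < s) (hAB : 0 < A + B)
    (hf : DifferentiableOn ℂ f (ball c (3 * s))) (hne : ∀ z ∈ ball c (3 * s), f z ≠ 0)
    (hB : ∀ z ∈ ball c (3 * s), ‖f z‖ ≤ Real.exp B) (hA : 1 ≤ Real.exp A * ‖f c‖)
    (hw : ‖w - c‖ ≤ 2 * s) : 1 ≤ Real.exp (5 * A + 4 * B) * ‖f w‖ := by
  obtain ⟨h, hd, hh⟩ := Pool.Agent.MP_ca0a54_nt.L0.Factor.exists_log f c _ hf hne
  have hc : c ∈ ball c (3 * s) := mem_ball_self (by linarith)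
  have hsub : ∀ z ∈ ball (0 : ℂ) (3 * s), c + z ∈ ball c (3 * s) := fun z hz => by
    simpa [mem_ball, dist_eq_norm] using hz
  have hre : ∀ z ∈ ball c (3 * s), ‖f z‖ = Real.exp (h z).re := fun z hz => by
    rw [hh z hz, norm_exp]
  have hA' : -A ≤ (h c).re := by
    rw [hre c hc, ← Real.exp_add, Real.one_le_exp_iff] at hA
    linarith
  have hz : w - c ∈ ball (0 : ℂ) (3 * s) := by
    rw [mem_ball_zero_iff]
    linarith
  have key := Complex.borelCaratheodory_zero (f := fun z => h (c + z) - h c) (M := A + B) hAB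
    ((hd.comp (by fun_prop) hsub).sub_const _) (fun z hz => by
      have h1 := hB _ (hsub z hz)
      rw [hre _ (hsub z hz), Real.exp_le_exp] at h1
      simp only [Set.mem_ofPred_eq, sub_re]
      linarith) (by linarith) hz (by simp)
  have hw' : w ∈ ball c (3 * s) := by simpa using hsub _ hz
  have h2 : 2 * (A + B) * ‖w - c‖ / (3 * s - ‖w - c‖) ≤ 4 * (A + B) := by
    rw [div_le_iff₀ (by linarith)]
    nlinarith
  have h3 := (abs_le.1 ((abs_re_le_norm _).trans (key.trans h2))).1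
  simp only [add_sub_cancel, sub_re] at h3
  rw [hre w hw', ← Real.exp_add, Real.one_le_exp_iff]
  linarith

theorem le_exp {a X : ℝ} (ha : 0 ≤ a) (hX : 1 ≤ X) : a ≤ Real.exp (a * X) := by
  have := Real.add_one_le_exp (a * X)
  nlinarith

end SIDa

open SIDa

theorem sid : SID := by
  rintro ⟨C₁, hC₁, hF⟩ hR C C' ⟨hC, hL⟩ ⟨hC', hN⟩
  obtain ⟨C₀, hC₀, hU⟩ := z1_le
  set a : ℝ := 320 * (C' + 1) with ha
  have ha0 : 0 < a := by positivity
  refine ⟨5 * (C + 2 * a + 2) + 4 * (C₀ + 4) + C₁, by positivity, fun X₀ => ?_⟩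
  obtain ⟨x, hx0, hx⟩ : ∃ x : ℝ, X₀ ≤ x ∧ 2 ≤ x := ⟨max X₀ 2, le_max_left _ _, le_max_right _ _⟩
  classical
  set V : Finset ℝ := (ZS (x + 1)).filter fun v => |v - x| ≤ 1 / 20 with hV
  have hn : (V.card : ℝ) ≤ C' * (x + 1) := by
    refine (hN x V fun v hv => ?_).trans (mul_le_mul_of_nonneg_left ?_ hC'.le)
    · obtain ⟨h1, h2⟩ := Finset.mem_filter.1 hv
      exact ⟨(mem_ZS.1 h1).1, h2⟩
    · have := Real.log_le_sub_one_of_pos (x := |x| + 2) (by positivity)
      rw [abs_of_pos (by linarith)] at this ⊢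
      linarith
  have hn0 : (0 : ℝ) ≤ V.card := Nat.cast_nonneg _
  obtain ⟨s, hs, hs1⟩ : ∃ s : ℝ, 0 < s ∧ s * (320 * (V.card + 1)) = 1 :=
    ⟨1 / (320 * (V.card + 1)), by positivity, by field_simp⟩
  have hs2 : s ≤ 1 / 320 := by nlinarith
  obtain ⟨k, hk, hkV⟩ := pigeon V x (4 * s) (by positivity)
  have hk' : (k : ℝ) ≤ V.card := by exact_mod_cast hk
  have hk0 : (0 : ℝ) ≤ k := Nat.cast_nonneg _
  set X : ℝ := x + 2 * (4 * s) * k with hX
  have hX1 : x ≤ X := by rw [hX]; nlinarith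
  have hX2 : X ≤ x + 1 / 40 := by rw [hX]; nlinarith
  clear_value X
  have hfar : ∀ v : ℝ, z1 v = 0 → 4 * s ≤ |v - X| := by
    intro v hv
    by_cases h : |v - x| ≤ 1 / 20
    · refine hkV v (Finset.mem_filter.2 ⟨mem_ZS.2 ⟨hv, ?_⟩, h⟩)
      have := abs_le.1 h
      rw [abs_le]
      constructor <;> linarith
    · push Not at h
      rcases lt_abs.1 h with h | h
      · exact le_abs.2 (Or.inl (by linarith))
      · exact le_abs.2 (Or.inr (by linarith))
  have hXp : 0 < X := by linarith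
  have hlow : ∀ y : ℝ, -(3 / 2) ≤ y → y ≤ -s →
      1 ≤ Real.exp ((C + 2 * a + 2) * X) * ‖z1 (X + y * I)‖ := by
    intro y h1 h2
    have him : (X + y * I : ℂ).im = y := by simp
    have h3 := hL (X + y * I) (by rw [him]; exact h1) (by rw [him]; linarith)
    rw [him] at h3
    have h4 : s ≤ √(-y) := Real.le_sqrt_of_sq_le (by nlinarith)
    have h5 : s * s ≤ -y * √(-y) := mul_le_mul (by linarith) h4 hs.le (by linarith)
    have h6 : 320 * ((V.card : ℝ) + 1) ≤ Real.exp (a * X) * Real.exp X := by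
      have e1 := le_exp ha0.le (X := X) (by linarith)
      have e2 := Real.add_one_le_exp X
      have e3 : 320 * ((V.card : ℝ) + 1) ≤ a * (X + 1) := by rw [ha]; nlinarith
      exact e3.trans (mul_le_mul e1 e2 (by linarith) (Real.exp_pos _).le)
    have h7 : 1 ≤ s * (Real.exp (a * X) * Real.exp X) := by
      rw [← hs1]
      exact mul_le_mul_of_nonneg_left h6 hs.le
    have h8 := le_exp hC.le (X := X) (by linarith)
    have e : Real.exp ((C + 2 * a + 2) * X) =
        Real.exp (C * X) * (Real.exp (a * X) * Real.exp X) ^ 2 := by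
      rw [← Real.exp_add, ← Real.exp_nat_mul, ← Real.exp_add]
      congr 1
      push_cast
      ring
    rw [e]
    set E := Real.exp (a * X) * Real.exp X
    have h9 : s * s ≤ Real.exp (C * X) * ‖z1 (X + y * I)‖ :=
      (h5.trans h3).trans (mul_le_mul_of_nonneg_right h8 (norm_nonneg _))
    have h10 := mul_le_mul_of_nonneg_right h9 (sq_nonneg E)
    nlinarith
  have mono : ∀ (t : ℝ) (z : ℂ), t ≤ 5 * (C + 2 * a + 2) + 4 * (C₀ + 4) + C₁ →
      1 ≤ Real.exp (t * X) * ‖z‖ →
      1 ≤ Real.exp ((5 * (C + 2 * a + 2) + 4 * (C₀ + 4) + C₁) * X) * ‖z‖ := fun t z h1 h2 =>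
    h2.trans (mul_le_mul_of_nonneg_right
      (Real.exp_le_exp.2 (mul_le_mul_of_nonneg_right h1 hXp.le)) (norm_nonneg _))
  have main : ∀ y : ℝ, |y| ≤ 3 / 2 →
      1 ≤ Real.exp ((5 * (C + 2 * a + 2) + 4 * (C₀ + 4) + C₁) * X) * ‖z1 (X + y * I)‖ := by
    intro y hy
    obtain ⟨hy1, hy2⟩ := abs_le.1 hy
    rcases le_total y (-s) with h | h
    · exact mono _ _ (by linarith) (hlow y hy1 h)
    rcases le_total s y with h' | h'
    · have h1 := hlow (-y) (by linarith) (by linarith)
      have h2 := hF X y (by rw [abs_of_pos hXp]; linarith) (by linarith) hy2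
      rw [abs_of_pos hXp] at h2
      rw [show (X + (-y : ℝ) * I : ℂ) = X - y * I by push_cast; ring] at h1
      refine mono (C + 2 * a + 2 + C₁) _ (by linarith) (h1.trans ?_)
      rw [add_mul _ C₁, Real.exp_add _ (C₁ * X), mul_assoc]
      exact mul_le_mul_of_nonneg_left h2 (Real.exp_pos _).le
    have hb : ∀ z ∈ ball (X + (-s : ℝ) * I : ℂ) (3 * s), |z.re - X| < 3 * s ∧ |z.im + s| < 3 * s := by
      intro z hz
      rw [mem_ball, dist_eq_norm] at hz
      have h1 := (abs_re_le_norm _).trans_lt hz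
      have h2 := (abs_im_le_norm _).trans_lt hz
      simp at h1 h2
      exact ⟨h1, h2⟩
    have h3 := harn z1 (X + (-s : ℝ) * I) (X + y * I) s ((C + 2 * a + 2) * X) ((C₀ + 4) * X) hs
      (by positivity) z1_diff.differentiableOn (fun z hz h0 => ?_) (fun z hz => ?_)
      (hlow (-s) (by linarith) le_rfl) ?_
    · refine mono (5 * (C + 2 * a + 2) + 4 * (C₀ + 4)) _ (by linarith) ?_
      rwa [show (5 * (C + 2 * a + 2) + 4 * (C₀ + 4)) * X =
        5 * ((C + 2 * a + 2) * X) + 4 * ((C₀ + 4) * X) by ring]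
    · obtain ⟨h1, h2⟩ := hb z hz
      have h2' := abs_lt.1 h2
      have h4 := hR z (by rw [abs_le]; constructor <;> linarith) h0
      have h5 : z = (z.re : ℂ) := Complex.ext (by simp) (by simp [h4])
      have h6 := hfar z.re (by rw [← h5]; exact h0)
      linarith
    · obtain ⟨h1, h2⟩ := hb z hz
      have h1' := abs_lt.1 h1
      have h2' := abs_lt.1 h2
      have h4 : ‖z‖ ≤ X + 1 := by
        refine (norm_le_abs_re_add_abs_im z).trans ?_
        have e1 : |z.re| ≤ X + 1 / 2 := by rw [abs_le]; constructor <;> linarith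
        have e2 : |z.im| ≤ 1 / 2 := by rw [abs_le]; constructor <;> linarith
        linarith
      have h5 : 1 + ‖z‖ ≤ Real.exp (2 * X) := by
        have := Real.add_one_le_exp (2 * X)
        linarith
      have h6 := le_exp hC₀.le (X := X) (by linarith)
      refine (hU z (by linarith)).trans ?_
      rw [show (C₀ + 4) * X = C₀ * X + (2 : ℕ) * (2 * X) by push_cast; ring, Real.exp_add,
        Real.exp_nat_mul]
      exact mul_le_mul h6 (pow_le_pow_left₀ (by positivity) h5 2) (by positivity)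
        (Real.exp_pos _).le
    · rw [show (X + y * I - (X + (-s : ℝ) * I) : ℂ) = ((y + s : ℝ) : ℂ) * I by push_cast; ring,
        norm_mul, norm_I, mul_one, norm_real, Real.norm_eq_abs, abs_le]
      constructor <;> linarith
  refine ⟨X, hx0.trans hX1, fun y hy => ⟨main y hy, ?_⟩⟩
  have e : (-X + y * I : ℂ) = -(starRingEnd ℂ) (X + y * I) := by
    simp only [map_add, map_mul, conj_ofReal, conj_I]
    ring
  rw [e, z1_conj, norm_conj]
  exact main y hy

end Pool.Agent.MP_a550d9_nt.H28
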