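import Pool.Agent.MP_a550d9_nt.H28.Spec

/-!
The zeros of `z1` in the strip are real, and the derivative at a real zero is not too small.
-/

open Complex MeasureTheory Pool.Agent.MP_ca0a54_nt.L0.ZetaA

namespace Pool.Agent.MP_a550d9_nt.H28

namespace Zer

theorem ne_of_low {C : ℝ} (h : Low C) {w : ℂ} (h1 : -(3 / 2) ≤ w.im) (h2 : w.im < 0) :
    z1 w ≠ 0 := by
  intro h0
  have h3 := h.2 w h1 h2
  rw [h0, norm_zero, mul_zero] at h3
  have h4 : 0 < -w.im := by linarith
  have h5 := mul_pos h4 (Real.sqrt_pos.2 h4)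
  linarith

theorem realZ (hN : NZ) {C : ℝ} (h : Low C) : RealZ := by
  intro w hw h0
  obtain ⟨hw1, hw2⟩ := abs_le.1 hw
  rcases lt_trichotomy w.im 0 with hlt | heq | hgt
  · exact absurd h0 (ne_of_low h hw1 hlt)
  · exact heq
  exfalso
  by_cases hre : w.re = 0
  · refine hN (1 / 2 - w.im) (by linarith) (by linarith) ?_
    rw [← h0, z1]
    congr 1
    apply Complex.ext <;> simp [hre, sub_eq_add_neg]
  · have hne : ∀ z : ℂ, z.re ≠ 0 → (1 / 2 + I * z : ℂ) ≠ 1 := fun z hz e => by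
      have := congrArg Complex.im e
      rw [im_arg] at this
      exact hz (by simpa using this)
    have hz : riemannZeta (1 / 2 + I * w) = 0 := by
      rw [z1_eq (hne w hre), mul_eq_zero] at h0
      refine h0.resolve_left fun e => hre ?_
      have := congrArg Complex.im e
      simpa using this
    have h1 := Pool.Agent.MP_ca0a54_nt.L0.Zeros.reflect hz (by rwa [im_arg])
    have h2 : (1 - (starRingEnd ℂ) (1 / 2 + I * w) : ℂ) = 1 / 2 + I * (starRingEnd ℂ) w := by
      simp only [map_add, map_mul, map_div₀, map_one, map_ofNat, conj_I]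
      ring
    rw [h2] at h1
    refine ne_of_low h (w := (starRingEnd ℂ) w) (by rw [conj_im]; linarith)
      (by rw [conj_im]; linarith) ?_
    rw [z1_eq (hne _ (by rwa [conj_re])), h1, mul_zero]

/-- Second order estimate at a zero of an entire function. -/
theorem second {f : ℂ → ℂ} (hf : Differentiable ℂ f) {c z : ℂ} {M : ℝ} (h0 : f c = 0)
    (hM : ∀ w ∈ Metric.ball c (1 / 5), ‖f w‖ ≤ M) (hz : z ∈ Metric.ball c (1 / 5)) :
    ‖f z‖ ≤ ‖z - c‖ * (‖deriv f c‖ + 50 * M * ‖z - c‖) := by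
  have hb : Metric.ball c (1 / 5) ∈ nhds c := Metric.ball_mem_nhds c (by norm_num)
  have h1 : ∀ w ∈ Metric.ball c (1 / 5), ‖dslope f c w‖ ≤ M / (1 / 5) := fun w hw =>
    norm_dslope_le_div_of_mapsTo_ball hf.differentiableOn
      (fun u hu => by rw [h0, mem_closedBall_zero_iff]; exact hM u hu) hw
  have h2 := dist_le_div_mul_dist_of_mapsTo_ball (f := dslope f c) (R₂ := 10 * M)
    ((differentiableOn_dslope hb).2 hf.differentiableOn)
    (fun u hu => by
      rw [mem_closedBall_iff_norm]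
      have := norm_sub_le (dslope f c u) (dslope f c c)
      have a := h1 u hu
      have b := h1 c (Metric.mem_ball_self (by norm_num))
      linarith) hz
  rw [dist_eq_norm, dist_eq_norm, dslope_same] at h2
  have h3 : f z = (z - c) • dslope f c z := by rw [sub_smul_dslope, h0, sub_zero]
  rw [h3, norm_smul]
  refine mul_le_mul_of_nonneg_left ?_ (norm_nonneg _)
  have h4 := norm_add_le (deriv f c) (dslope f c z - deriv f c)
  rw [add_sub_cancel] at h4
  linarith

end Zer

theorem zer : ZER := by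
  intro hN C h
  refine ⟨Zer.realZ hN h, ?_⟩
  obtain ⟨C₀, hC₀, hle⟩ := z1_le
  have hC := h.1
  refine ⟨2 * C * (200 * C * C₀ + 4), by positivity, fun v hv => ?_⟩
  set A : ℝ := (1 + |v|) ^ 2 with hA
  have hA1 : 1 ≤ A := by nlinarith [abs_nonneg v]
  have hM : ∀ w ∈ Metric.ball (v : ℂ) (1 / 5), ‖z1 w‖ ≤ 2 * C₀ * A := fun w hw => by
    rw [mem_ball_iff_norm] at hw
    have h1 : w.im < 1 / 4 := by
      have := (abs_le.1 (abs_im_le_norm (w - v))).2
      rw [sub_im, ofReal_im] at this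
      linarith
    have h2 : ‖w‖ ≤ |v| + 1 / 5 := by
      have := norm_add_le (v : ℂ) (w - v)
      rw [add_sub_cancel, norm_real, Real.norm_eq_abs] at this
      linarith
    refine (hle w h1).trans ?_
    have h3 : (1 + ‖w‖) ^ 2 ≤ 2 * A := by nlinarith [abs_nonneg v, norm_nonneg w]
    nlinarith
  set B : ℝ := (200 * C * C₀ + 4) * A with hB
  have hCC : 0 < C * C₀ := mul_pos hC hC₀
  have hB4 : 4 ≤ B := by nlinarith
  have hB0 : 0 < B := by linarith
  set s : ℝ := 1 / B with hs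
  have hs0 : 0 < s := by positivity
  have hsB : s * B = 1 := by rw [hs]; field_simp
  have hs4 : s ≤ 1 / 4 := by nlinarith
  have hd : s ^ 2 ≤ 1 / 16 := by nlinarith
  have hn : ‖((v : ℂ) - (s ^ 2 : ℝ) * I) - v‖ = s ^ 2 := by
    rw [sub_sub_cancel_left, norm_neg, norm_mul, norm_I, mul_one, norm_real,
      Real.norm_of_nonneg (by positivity)]
  have him : ((v : ℂ) - (s ^ 2 : ℝ) * I).im = -s ^ 2 := by
    rw [sub_im, ofReal_im, mul_I_im, ofReal_re, zero_sub]
  have h1 := Zer.second z1_diff hv hM (z := (v : ℂ) - (s ^ 2 : ℝ) * I)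
    (by rw [mem_ball_iff_norm, hn]; linarith)
  have h2 := h.2 ((v : ℂ) - (s ^ 2 : ℝ) * I) (by rw [him]; linarith)
    (by rw [him]; have := pow_pos hs0 2; linarith)
  rw [hn] at h1
  rw [him, neg_neg, Real.sqrt_sq hs0.le] at h2
  set D : ℝ := ‖deriv z1 v‖
  have h3 : s ≤ C * (D + 50 * (2 * C₀ * A) * s ^ 2) := by
    have h4 := h2.trans (mul_le_mul_of_nonneg_left h1 hC.le)
    have h5 : s ^ 2 * s ≤ s ^ 2 * (C * (D + 50 * (2 * C₀ * A) * s ^ 2)) := by linarith
    exact le_of_mul_le_mul_left h5 (pow_pos hs0 2)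
  have h6 : 200 * C * C₀ * A * s ≤ 1 := by
    have : 0 ≤ s * A := by positivity
    nlinarith
  have h7 : s ≤ 2 * C * D := by nlinarith
  have h8 := mul_le_mul_of_nonneg_right h7 hB0.le
  rw [hsB] at h8
  calc (1 : ℝ) ≤ 2 * C * D * B := h8
    _ = 2 * C * (200 * C * C₀ + 4) * A * D := by rw [hB]; ring

end Pool.Agent.MP_a550d9_nt.H28
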