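import Pool.Agent.MP_a550d9_nt.H28.FinB
import Pool.Agent.MP_a550d9_nt.H28.LAP
import Pool.Agent.MP_a550d9_nt.H28.LAN
import Pool.Agent.MP_a550d9_nt.H28.FE
import Pool.Agent.MP_a550d9_nt.H28.LOW
import Pool.Agent.MP_a550d9_nt.H28.ZER
import Pool.Agent.MP_a550d9_nt.H28.CNT
import Pool.Agent.MP_a550d9_nt.H28.SID
import Pool.Agent.MP_a550d9_nt.H28.EXP
import Pool.Agent.MP_a550d9_nt.H28.FORMA
import Pool.Agent.MP_a550d9_nt.H28.FORMB
import Pool.Agent.MP_a550d9_nt.H28.GAU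
import Pool.Agent.MP_a550d9_nt.H28.DR
import Pool.Agent.MP_a550d9_nt.H28.MASS

/-! The steps put together. -/

namespace Pool.Agent.MP_a550d9_nt.H28

theorem zd_of (h : OneSide) : ∃ C, ZD C := by
  obtain ⟨C₁, h1⟩ := low lap lan nz h
  obtain ⟨h2, C₂, p2, h3⟩ := zer nz C₁ h1
  obtain ⟨C₃, h4⟩ := cnt C₁ h1
  obtain ⟨C₄, p4, h5, h6⟩ := sumz C₃ h4
  obtain ⟨C₅, p5, h7⟩ := sid feq h2 C₁ C₃ h1 h4
  refine ⟨C₂ + C₄ + C₅, by linarith, h2, fun v hv => (h3 v hv).trans ?_,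
    fun V hV => (h5 V hV).trans (by linarith), fun X hX => (h6 X hX).trans ?_, fun X₀ => ?_⟩
  · gcongr
    linarith
  · have := Real.log_nonneg (show 1 ≤ X by linarith)
    gcongr
    linarith
  · obtain ⟨X, k1, k2⟩ := h7 (max X₀ 0)
    have k3 : Real.exp (C₅ * X) ≤ Real.exp ((C₂ + C₄ + C₅) * X) := Real.exp_le_exp.2
      (mul_le_mul_of_nonneg_right (by linarith) ((le_max_right _ _).trans k1))
    exact ⟨X, (le_max_left _ _).trans k1, fun y hy =>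
      ⟨(k2 y hy).1.trans (mul_le_mul_of_nonneg_right k3 (norm_nonneg _)),
        (k2 y hy).2.trans (mul_le_mul_of_nonneg_right k3 (norm_nonneg _))⟩⟩

theorem thmA {e : ℝ} (he : e = 1 ∨ e = -1) (N₀ : ℕ) :
    ∃ N h : ℕ, N₀ ≤ N ∧ (h : ℝ) ≤ FinA.Hl N ∧ √N / 2 ≤ e * (Mer (N + h) - Mer N) :=
  finA (fun h => by
    obtain ⟨C, Z⟩ := zd_of h
    obtain ⟨C', p, F⟩ := forma lap left expl C Z
    exact ⟨C, C', Z, p, F⟩) gau base dir he N₀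

theorem thmB {e κ A : ℝ} (he : e = 1 ∨ e = -1) (hκ : 1 ≤ κ) (hA : 1 ≤ A)
    (hI : ∀ T₀ : ℝ, ∃ T : ℝ, T₀ ≤ T ∧ Ind T (Real.exp (-Real.exp (A * Real.log T ^ κ)))) :
    ∃ c : ℝ, 0 < c ∧ ∀ X : ℕ, ∃ N : ℕ, X ≤ N ∧
      c * √N * Real.log (Real.log (Real.log N)) ^ (1 / κ) ≤ e * Mer N :=
  finB (fun h => by
    obtain ⟨C, Z⟩ := zd_of h
    obtain ⟨C', p, F⟩ := forma lap left expl C Z
    obtain ⟨C'', p', F'⟩ := formb lap left expl C Z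
    exact ⟨C, C'', Z, p', F', mass base C C' Z F⟩) nz gau riesz he hκ hA hI

theorem Mer_sub (N h : ℕ) : Mer (N + h) - Mer N =
    ((∑ n ∈ Finset.Ioc N (N + h), ArithmeticFunction.moebius n : ℤ) : ℝ) := by
  have e : ∀ m : ℕ, Finset.Icc 1 m = Finset.Ioc 0 m := fun m => by
    ext n
    simp only [Finset.mem_Icc, Finset.mem_Ioc]
    omega
  rw [Mer, Mer, e, e, ← Finset.sum_Ioc_consecutive _ (Nat.zero_le N) (Nat.le_add_right N h)]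
  push_cast
  ring

end Pool.Agent.MP_a550d9_nt.H28
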