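import Pool.Agent.MP_ca0a54_nt.L0.ZetaA
import Pool.Agent.MP_ca0a54_nt.L0.Residue
import Pool.Agent.MP_ca0a54_nt.L0.Factor
import Pool.Agent.MP_ca0a54_nt.L0.Zeros

/-!
Oscillation of the Mertens function: definitions, basic facts and the statements of the steps.
Coordinates: `s = 1/2 + i w`, so `re s = 1/2 - im w`.
-/

open Complex MeasureTheory Pool.Agent.MP_ca0a54_nt.L0.ZetaA

namespace Pool.Agent.MP_a550d9_nt.H28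

/-- The Mertens function. -/
noncomputable def Mer (N : ℕ) : ℝ :=
  ((∑ n ∈ Finset.Icc 1 N, ArithmeticFunction.moebius n : ℤ) : ℝ)

/-- `M (e ^ y)`. -/
noncomputable def Me (y : ℝ) : ℝ := Mer ⌊Real.exp y⌋₊

/-- The entire function `(s - 1) ζ(s)` at `s = 1/2 + i w`. -/
noncomputable def z1 (w : ℂ) : ℂ := riemannZeta₁ (1 / 2 + I * w)

/-- The Gaussian density of width `1 / T`. -/
noncomputable def Kt (T v : ℝ) : ℝ := T / √(2 * Real.pi) * Real.exp (-(T ^ 2 * v ^ 2 / 2))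

/-- `1 / (ρ ζ'(ρ))` at `ρ = 1/2 + i v`. -/
noncomputable def cz (v : ℝ) : ℂ := I * (I * v - 1 / 2) / ((1 / 2 + I * v) * deriv z1 v)

/-- The kernel on the side of the zeros. -/
noncomputable def Ew (T u : ℝ) (w : ℂ) : ℂ := exp (I * w * u - w ^ 2 / (2 * T ^ 2))

/-- Smoothed increment of `M`. -/
noncomputable def IA (η T u : ℝ) : ℝ :=
  ∫ y, (Me (y + η) - Me y) * Real.exp (-y / 2) * Kt T (y - u)

/-- Smoothed value of `M`. -/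
noncomputable def IB (T u : ℝ) : ℝ := ∫ y, Me y * Real.exp (-y / 2) * Kt T (y - u)

theorem abs_Mer_le (N : ℕ) : |Mer N| ≤ N := by
  unfold Mer
  push_cast
  refine (Finset.abs_sum_le_sum_abs _ _).trans ?_
  refine (Finset.sum_le_card_nsmul _ _ 1 fun n _ => ?_).trans (by simp)
  exact_mod_cast ArithmeticFunction.abs_moebius_le_one (n := n)

theorem abs_Me_le (y : ℝ) : |Me y| ≤ Real.exp y :=
  (abs_Mer_le _).trans (Nat.floor_le (Real.exp_pos y).le)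

theorem Me_neg {y : ℝ} (h : y < 0) : Me y = 0 := by
  unfold Me
  rw [Nat.floor_eq_zero.2 (Real.exp_lt_one_iff.2 h)]
  simp [Mer]

theorem measurable_Me : Measurable Me :=
  (measurable_of_countable Mer).comp (Nat.measurable_floor.comp Real.measurable_exp)

theorem z1_diff : Differentiable ℂ z1 := by
  unfold z1
  fun_prop

theorem z1_eq {w : ℂ} (h : 1 / 2 + I * w ≠ 1) :
    z1 w = (I * w - 1 / 2) * riemannZeta (1 / 2 + I * w) := by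
  rw [riemannZeta_eq_inv_sub_mul h, z1, show I * w - 1 / 2 = 1 / 2 + I * w - 1 by ring,
    ← mul_assoc, mul_inv_cancel₀ (sub_ne_zero.2 h), one_mul]

theorem pt_ne_one (v : ℝ) : (1 / 2 + I * v : ℂ) ≠ 1 := fun h => by
  have := congrArg Complex.re h
  norm_num at this

theorem z1_real_eq_zero (v : ℝ) : z1 v = 0 ↔ riemannZeta (1 / 2 + I * v) = 0 := by
  rw [z1_eq (pt_ne_one v), mul_eq_zero, or_iff_right]
  intro h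
  have := congrArg Complex.re h
  norm_num at this

theorem zeta1_conj (s : ℂ) : riemannZeta₁ ((starRingEnd ℂ) s) = (starRingEnd ℂ) (riemannZeta₁ s) := by
  by_cases h : s = 1
  · simp [h]
  have h' : (starRingEnd ℂ) s ≠ 1 := fun e => h (by simpa using congrArg (starRingEnd ℂ) e)
  have e : ∀ z : ℂ, z ≠ 1 → riemannZeta₁ z = (z - 1) * riemannZeta z := fun z hz => by
    rw [riemannZeta_eq_inv_sub_mul hz, ← mul_assoc, mul_inv_cancel₀ (sub_ne_zero.2 hz), one_mul]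
  rw [e _ h, e _ h', riemannZeta_conj]
  simp

theorem z1_conj (w : ℂ) : z1 (-(starRingEnd ℂ) w) = (starRingEnd ℂ) (z1 w) := by
  rw [z1, z1, ← zeta1_conj]
  congr 1
  simp [map_ofNat]

theorem z1_neg (v : ℝ) : z1 (-v : ℝ) = (starRingEnd ℂ) (z1 v) := by
  rw [← z1_conj]
  simp

theorem deriv_z1_neg (v : ℝ) : deriv z1 (-v : ℝ) = -(starRingEnd ℂ) (deriv z1 v) := by
  have h1 : HasDerivAt (fun t : ℝ => z1 t) (deriv z1 v) v := (z1_diff v).hasDerivAt.comp_ofReal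
  have h2 : HasDerivAt (fun t : ℝ => z1 t) (deriv z1 (-v : ℝ)) (-v) :=
    (z1_diff _).hasDerivAt.comp_ofReal
  have h3 : HasDerivAt (fun t : ℝ => z1 (-t : ℝ)) ((-1 : ℝ) • deriv z1 (-v : ℝ)) v :=
    h2.scomp v (hasDerivAt_neg v)
  have h4 : HasDerivAt (fun t : ℝ => (starRingEnd ℂ) (z1 t)) ((starRingEnd ℂ) (deriv z1 v)) v :=
    conjCLE.hasFDerivAt.comp_hasDerivAt v h1
  have h5 := (h3.congr_of_eventuallyEq (f₁ := fun t : ℝ => (starRingEnd ℂ) (z1 t))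
    (Filter.Eventually.of_forall fun t => (z1_neg t).symm)).unique h4
  rw [← h5]
  simp

theorem cz_neg (v : ℝ) : cz (-v) = (starRingEnd ℂ) (cz v) := by
  rw [cz, cz, deriv_z1_neg]
  simp only [map_div₀, map_mul, map_sub, map_add, conj_I, conj_ofReal, map_one, map_ofNat,
    ofReal_neg]
  rw [mul_neg (1 / 2 + I * -(v : ℂ)), div_neg, ← neg_div]
  congr 1 <;> ring

theorem norm_cz (v : ℝ) : ‖cz v‖ = ‖deriv z1 v‖⁻¹ := by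
  have h : ‖(I * v - 1 / 2 : ℂ)‖ = ‖(1 / 2 + I * v : ℂ)‖ := by
    rw [← norm_neg, ← norm_conj]
    congr 1
    simp [map_ofNat]
  have h0 : ‖(1 / 2 + I * v : ℂ)‖ ≠ 0 := norm_ne_zero_iff.2 fun e => by
    have := congrArg Complex.re e
    norm_num at this
  rw [cz, norm_div, norm_mul, norm_mul, norm_I, one_mul, h, div_mul_eq_div_div, div_self h0,
    one_div]

theorem norm_Ew (T u x y : ℝ) :
    ‖Ew T u (x + y * I)‖ = Real.exp (-y * u - (x ^ 2 - y ^ 2) / (2 * T ^ 2)) := by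
  rw [Ew, norm_exp]
  congr 1
  rw [show (2 * (T : ℂ) ^ 2) = ((2 * T ^ 2 : ℝ) : ℂ) by push_cast; ring, sub_re, div_ofReal_re]
  simp [pow_two]

theorem norm_Ew_real (T u x : ℝ) : ‖Ew T u x‖ = Real.exp (-(x ^ 2 / (2 * T ^ 2))) := by
  have := norm_Ew T u x 0
  simpa using this

/-- Polynomial upper bound to the right of `re s = 1/4`. -/
theorem z1_le : ∃ C : ℝ, 0 < C ∧ ∀ w : ℂ, w.im < 1 / 4 → ‖z1 w‖ ≤ C * (1 + ‖w‖) ^ 2 := by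
  refine ⟨Z + 1, by linarith [Z_nonneg], fun w hw => ?_⟩
  have hs : 1 / 4 < (1 / 2 + I * w : ℂ).re := by rw [re_arg]; linarith
  have h2 : ‖z1 w - 1‖ ≤ ‖1 / 2 + I * w - 1‖ * ‖1 / 2 + I * w‖ * Z := by
    rw [z1, ← tsum_tm _ hs, ← tsum_Z', ← tsum_mul_left]
    exact tsum_of_norm_bounded (summable_Z'.mul_left _).hasSum fun n => norm_tm_le n _ hs.le
  have h3 : ‖(1 / 2 + I * w : ℂ)‖ ≤ 1 + ‖w‖ :=
    (norm_add_le _ _).trans (by simp; norm_num)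
  have h4 : ‖(1 / 2 + I * w - 1 : ℂ)‖ ≤ 1 + ‖w‖ := by
    rw [show (1 / 2 + I * w - 1 : ℂ) = -(1 / 2) + I * w by ring]
    exact (norm_add_le _ _).trans (by simp; norm_num)
  have h5 := norm_add_le (z1 w - 1) 1
  rw [sub_add_cancel, norm_one] at h5
  have h6 := mul_le_mul_of_nonneg_right (mul_le_mul h4 h3 (norm_nonneg _) (by positivity))
    Z_nonneg
  nlinarith [norm_nonneg w]

theorem zs_fin (X : ℝ) : {v : ℝ | z1 v = 0 ∧ |v| ≤ X}.Finite := by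
  have h1 : IsCompact ((fun v : ℝ => (1 / 2 + I * v : ℂ)) '' Set.Icc (-X) X) :=
    isCompact_Icc.image (by fun_prop)
  refine Set.Finite.of_finite_image (f := fun v : ℝ => (1 / 2 + I * v : ℂ))
    (h1.inter_riemannZetaZeros_finite.subset ?_) fun a _ b _ h =>
      ofReal_injective (mul_left_cancel₀ I_ne_zero (add_left_cancel h))
  rintro _ ⟨v, ⟨h2, h3⟩, rfl⟩
  exact ⟨⟨v, abs_le.1 h3, rfl⟩, (z1_real_eq_zero v).1 h2⟩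

/-- The real zeros of `z1` in `[-X, X]`. -/
noncomputable def ZS (X : ℝ) : Finset ℝ := (zs_fin X).toFinset

theorem mem_ZS {X v : ℝ} : v ∈ ZS X ↔ z1 v = 0 ∧ |v| ≤ X := by simp [ZS]

/-- A one-sided bound for `M`. -/
def OneSide : Prop :=
  ∃ e C : ℝ, (e = 1 ∨ e = -1) ∧ ∀ N : ℕ, e * Mer N ≤ C * √(N * (1 + Real.log N))

/-- Lower bound for `z1` to the right of the critical line. -/
def Low (C : ℝ) : Prop :=
  0 < C ∧ ∀ w : ℂ, -(3 / 2) ≤ w.im → w.im < 0 → -w.im * √(-w.im) ≤ C * ‖z1 w‖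

/-- The zeros in the strip are on the line. -/
def RealZ : Prop := ∀ w : ℂ, |w.im| ≤ 3 / 2 → z1 w = 0 → w.im = 0

/-- Number of zeros in a short window. -/
def Cnt (C : ℝ) : Prop :=
  0 < C ∧ ∀ (x : ℝ) (V : Finset ℝ), (∀ v ∈ V, z1 v = 0 ∧ |v - x| ≤ 1 / 20) →
    (V.card : ℝ) ≤ C * Real.log (|x| + 2)

/-- Heights at which `z1` is not small. -/
def Side (C : ℝ) : Prop :=
  ∀ X₀ : ℝ, ∃ X : ℝ, X₀ ≤ X ∧ ∀ y : ℝ, |y| ≤ 3 / 2 →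
    1 ≤ Real.exp (C * X) * ‖z1 (X + y * I)‖ ∧ 1 ≤ Real.exp (C * X) * ‖z1 (-X + y * I)‖

/-- What is used about the zeros. -/
structure ZD (C : ℝ) : Prop where
  pos : 0 < C
  real : RealZ
  res : ∀ v : ℝ, z1 v = 0 → 1 ≤ C * (1 + |v|) ^ 2 * ‖deriv z1 v‖
  sum : ∀ V : Finset ℝ, (∀ v ∈ V, z1 v = 0) → ∑ v ∈ V, 1 / (1 + |v|) ^ 3 ≤ C
  card : ∀ X : ℝ, 2 ≤ X → ((ZS X).card : ℝ) ≤ C * X * Real.log X
  side : Side C

def LAP : Prop := ∀ s : ℂ, 1 < s.re →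
  Integrable (fun y : ℝ => (Me y : ℂ) * exp (-s * y)) ∧
    ∫ y : ℝ, (Me y : ℂ) * exp (-s * y) = (s - 1) / (s * riemannZeta₁ s)

def LAN : Prop := ∀ (f : ℝ → ℝ) (a r : ℝ) (G : ℂ → ℂ), Measurable f → (∀ y, 0 ≤ f y) →
  (∀ y, y < 0 → f y = 0) → 0 < r →
  (∀ σ : ℝ, a < σ → Integrable fun y : ℝ => f y * Real.exp (-σ * y)) →
  DifferentiableOn ℂ G (Metric.ball (a : ℂ) r) →
  (∀ s ∈ Metric.ball (a : ℂ) r, a < s.re → G s = ∫ y : ℝ, (f y : ℂ) * exp (-s * y)) →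
  Integrable fun y : ℝ => f y * Real.exp (-(a - r / 4) * y)

def NZ : Prop := ∀ σ : ℝ, -1 ≤ σ → σ ≤ 2 → riemannZeta₁ σ ≠ 0

def LEFT : Prop := ∃ C : ℝ, 0 < C ∧ ∀ x : ℝ,
  (1 + |x|) ^ 2 * √(1 + |x|) ≤ C * ‖z1 (x + (3 / 2 : ℝ) * I)‖

def FEQ : Prop := ∃ C : ℝ, 0 < C ∧ ∀ x y : ℝ, 1 ≤ |x| → 0 ≤ y → y ≤ 3 / 2 →
  ‖z1 (x - y * I)‖ ≤ Real.exp (C * |x|) * ‖z1 (x + y * I)‖

def LOW : Prop := LAP → LAN → NZ → OneSide → ∃ C, Low C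

def ZER : Prop := NZ → ∀ C, Low C → RealZ ∧
  ∃ C' : ℝ, 0 < C' ∧ ∀ v : ℝ, z1 v = 0 → 1 ≤ C' * (1 + |v|) ^ 2 * ‖deriv z1 v‖

def CNT : Prop := ∀ C, Low C → ∃ C', Cnt C'

def SUM : Prop := ∀ C, Cnt C → ∃ C' : ℝ, 0 < C' ∧
  (∀ V : Finset ℝ, (∀ v ∈ V, z1 v = 0) → ∑ v ∈ V, 1 / (1 + |v|) ^ 3 ≤ C') ∧
  ∀ X : ℝ, 2 ≤ X → ((ZS X).card : ℝ) ≤ C' * X * Real.log X

def SID : Prop := FEQ → RealZ → ∀ C C', Low C → Cnt C' → ∃ C'' : ℝ, 0 < C'' ∧ Side C''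

def EXP : Prop := ∀ C, ZD C → ∀ (N : ℂ → ℂ) (K T u : ℝ) (f b : ℝ → ℝ), Differentiable ℂ N →
  0 < T → (∀ x y : ℝ, 1 ≤ |x| → |y| ≤ 3 / 2 →
    ‖N (x + y * I)‖ ≤ K * (1 + |x|) * (1 + ‖z1 (x + y * I)‖)) →
  Integrable (fun y : ℝ => f y * Real.exp (-2 * y)) →
  (∀ x : ℝ, ∫ y : ℝ, (f y : ℂ) * exp (-(2 + I * x) * y) =
    N (x - (3 / 2 : ℝ) * I) / z1 (x - (3 / 2 : ℝ) * I)) →
  Integrable b →
  (∀ x : ℝ, ‖N (x + (3 / 2 : ℝ) * I) / z1 (x + (3 / 2 : ℝ) * I)‖ *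
    Real.exp (-(x ^ 2 / (2 * T ^ 2))) ≤ b x) →
  ∀ ε X₀ : ℝ, 0 < ε → ∃ X : ℝ, X₀ ≤ X ∧
    ‖((∫ y, f y * Real.exp (-y / 2) * Kt T (y - u) : ℝ) : ℂ) -
      ∑ v ∈ ZS X, I * N v / deriv z1 v * Ew T u v‖ ≤
        ε + Real.exp (-(3 / 2) * u + 9 / (8 * T ^ 2)) * ∫ x, b x

/-- Explicit formula for the increments. -/
def FA (C : ℝ) : Prop := ∀ η T u X : ℝ, 0 < η → η ≤ 1 → 1 ≤ T → -1 ≤ u → 0 ≤ X →
  ‖(IA η T u : ℂ) - ∑ v ∈ ZS X, cz v * (exp (η * (1 / 2 + I * v)) - 1) * Ew T u v‖ ≤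
    C * (η + T ^ 6 * Real.exp (-(X ^ 2 / (4 * T ^ 2))))

/-- Explicit formula for the values. -/
def FB (C : ℝ) : Prop := ∀ T u X : ℝ, 1 ≤ T → 0 ≤ u → 0 ≤ X →
  ‖(IB T u : ℂ) - ∑ v ∈ ZS X, cz v * Ew T u v‖ ≤
    C * (T * Real.exp (-u / 2) + T ^ 6 * Real.exp (-(X ^ 2 / (4 * T ^ 2))))

def FORMA : Prop := LAP → LEFT → EXP → ∀ C, ZD C → ∃ C' : ℝ, 0 < C' ∧ FA C'

def FORMB : Prop := LAP → LEFT → EXP → ∀ C, ZD C → ∃ C' : ℝ, 0 < C' ∧ FB C'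

def GAU : Prop := ∀ (f : ℝ → ℝ) (T u a K : ℝ), Measurable f → 1 ≤ T → 16 ≤ u → 0 ≤ a →
  (∀ y, |f y| ≤ K * Real.exp y) →
  (∀ y, u / 2 ≤ y → y ≤ 3 * u / 2 → f y ≤ a * Real.exp (y / 2)) →
  ∫ y, f y * Real.exp (-y / 2) * Kt T (y - u) ≤ a + 2 * K * Real.exp (-u / 2)

def BASE : Prop := ∃ T₀ : ℝ, ∀ T : ℝ, T₀ ≤ T →
  13 / 20 ≤ IA (8 / T) T (-4 / T) ∧ IA (8 / T) T (Real.log 2 - 4 / T) ≤ -(13 / 20)

def DIR : Prop := ∀ (V : Finset ℝ) (q : ℕ) (U : ℝ), 0 < q → ∃ k : ℕ, 1 ≤ k ∧ k ≤ q ^ V.card ∧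
  ∀ v ∈ V, ‖exp (I * v * (k * U : ℝ)) - 1‖ ≤ 7 / q

def RIESZ : Prop := ∀ (P Z : Finset ℝ) (a : ℝ → ℂ) (Δ U b : ℝ), P ⊆ Z → 0 < Δ → 0 < U → 0 ≤ b →
  (∀ g ∈ Z, Δ ≤ g) →
  (∀ P₁ P₂ : Finset ℝ, P₁ ⊆ P → P₂ ⊆ P → Disjoint P₁ P₂ → (P₁ ∪ P₂).Nonempty → ∀ g : ℝ,
    (g = 0 ∨ g ∈ Z) → ¬ (P₁ = {g} ∧ P₂ = ∅) → Δ ≤ |∑ p ∈ P₁, p - ∑ p ∈ P₂, p - g|) →
  (∀ u : ℝ, U ≤ u → u ≤ 2 * U → ∑ g ∈ Z, 2 * (a g * exp (I * g * u)).re ≤ b) →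
  ∑ g ∈ P, ‖a g‖ ≤ b + (b + 2 * ∑ g ∈ Z, ‖a g‖) * 2 ^ P.card * 2 / (U * Δ)

/-- The residues at the zeros between `Y` and `Y ^ 10` have total size at least `c log Y`. -/
def Mass : Prop := ∃ c Y₀ : ℝ, 0 < c ∧ ∀ Y : ℝ, Y₀ ≤ Y →
  c * Real.log Y ≤ ∑ v ∈ (ZS (Y ^ 10)).filter (fun v => Y ≤ v),
    ‖cz v‖ * Real.exp (-(v ^ 2 / (2 * (Y ^ 9) ^ 2)))

def MASS : Prop := BASE → ∀ C C', ZD C → FA C' → Mass

end Pool.Agent.MP_a550d9_nt.H28
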